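import Pool.Agent.Helper34.QH.Defs

/-! Project QH (helper34), module QH-4c: a compact convex set with positive lattice widths has
nonempty interior. -/

namespace Pool.Agent.Helper34.QH

open MeasureTheory

/-- Simultaneous approximation. -/
private theorem dirichlet_finset {ι : Type} (s : Finset ι) (a : ι → ℝ) :
    ∀ ε : ℝ, 0 < ε → ∃ q : ℕ, 0 < q ∧ ∀ i ∈ s, ∃ m : ℤ, |(q : ℝ) * a i - m| ≤ ε := by
  classical
  induction s using Finset.induction_on with
  | empty => intro ε _; exact ⟨1, one_pos, by simp⟩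
  | insert j s hj ih =>
    intro ε hε
    obtain ⟨N, hN⟩ := exists_nat_gt (1 / ε)
    have hNpos : 0 < N := by
      have : (0 : ℝ) < N := lt_trans (by positivity) hN
      exact_mod_cast this
    have hNR : (0 : ℝ) < N := by exact_mod_cast hNpos
    obtain ⟨q, hq, hqs⟩ := ih (ε / N) (by positivity)
    obtain ⟨k, hk, hkN, hkr⟩ := Real.exists_nat_abs_mul_sub_round_le ((q : ℝ) * a j) hNpos
    refine ⟨k * q, Nat.mul_pos hk hq, ?_⟩
    intro i hi
    rcases Finset.mem_insert.mp hi with rfl | hi
    · refine ⟨round ((k : ℝ) * ((q : ℝ) * a i)), ?_⟩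
      have h1 : (1 : ℝ) / ((N : ℝ) + 1) ≤ ε := by
        rw [div_le_iff₀ (by positivity)]
        have := (div_lt_iff₀ hε).mp hN
        nlinarith
      have h2 : ((k * q : ℕ) : ℝ) * a i = (k : ℝ) * ((q : ℝ) * a i) := by push_cast; ring
      rw [h2]
      exact hkr.trans h1
    · obtain ⟨m, hm⟩ := hqs i hi
      refine ⟨(k : ℤ) * m, ?_⟩
      have h2 : ((k * q : ℕ) : ℝ) * a i - (((k : ℤ) * m : ℤ) : ℝ) =
          (k : ℝ) * ((q : ℝ) * a i - m) := by push_cast; ring
      rw [h2, abs_mul, abs_of_nonneg (by positivity : (0 : ℝ) ≤ (k : ℝ))]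
      have hkR : (k : ℝ) ≤ N := by exact_mod_cast hkN
      calc (k : ℝ) * |(q : ℝ) * a i - m| ≤ N * (ε / N) := by
            apply mul_le_mul hkR hm (abs_nonneg _) hNR.le
        _ = ε := by field_simp

theorem interior_of_wide {n : ℕ} (hn : 1 ≤ n) (K : Set (Fin n → ℝ)) (hc : Convex ℝ K)
    (hk : IsCompact K) (w : ℝ) (hw : 0 < w) (hW : Wide K w) : (interior K).Nonempty := by
  classical
  have hne : K.Nonempty := by
    obtain ⟨x, hx, -⟩ := hW (fun _ => 1) (by
      intro h
      have := congrFun h ⟨0, hn⟩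
      simp at this)
    exact ⟨x, hx⟩
  rw [hc.interior_nonempty_iff_affineSpan_eq_top]
  by_contra htop
  -- a nonzero functional constant on K
  have hdir : (affineSpan ℝ K).direction ≠ ⊤ := by
    intro h
    apply htop
    rwa [← AffineSubspace.direction_eq_top_iff_of_nonempty
      ((affineSpan_nonempty ℝ).mpr hne)]
  obtain ⟨f, hf0, hf⟩ := Submodule.exists_le_ker_of_lt_top _ (lt_top_iff_ne_top.mpr hdir)
  have hconst : ∀ x ∈ K, ∀ y ∈ K, f x - f y = 0 := by
    intro x hx y hy
    have : x -ᵥ y ∈ (affineSpan ℝ K).direction :=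
      AffineSubspace.vsub_mem_direction (subset_affineSpan ℝ K hx) (subset_affineSpan ℝ K hy)
    have h2 := hf this
    rw [LinearMap.mem_ker] at h2
    simpa [vsub_eq_sub, map_sub] using h2
  have hsum : ∀ x : Fin n → ℝ, f x = ∑ i, x i * f (Pi.single i 1) := by
    intro x
    conv_lhs => rw [LinearMap.pi_apply_eq_sum_univ f x]
    refine Finset.sum_congr rfl fun i _ => ?_
    rw [smul_eq_mul]
    congr 2
    ext j
    simp [Pi.single_apply, eq_comm]
  obtain ⟨j, hj⟩ : ∃ j, f (Pi.single j 1) ≠ 0 := by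
    by_contra hcon
    push Not at hcon
    apply hf0
    ext x
    simp [hcon]
  set a : Fin n → ℝ := fun i => f (Pi.single i 1) / f (Pi.single j 1) with ha
  have haj : a j = 1 := by simp [ha, hj]
  have hax : ∀ x ∈ K, ∀ y ∈ K, ∑ i, a i * (x i - y i) = 0 := by
    intro x hx y hy
    have h1 := hconst x hx y hy
    rw [hsum x, hsum y, ← Finset.sum_sub_distrib] at h1
    have h2 : ∑ i, a i * (x i - y i) =
        (∑ i, (x i * f (Pi.single i 1) - y i * f (Pi.single i 1))) / f (Pi.single j 1) := by
      rw [Finset.sum_div]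
      refine Finset.sum_congr rfl fun i _ => ?_
      simp only [ha]
      ring
    rw [h2, h1, zero_div]
  -- boundedness
  obtain ⟨R, hR⟩ := hk.isBounded.exists_norm_le
  have hR0 : 0 ≤ R := by
    obtain ⟨x, hx⟩ := hne
    exact (norm_nonneg x).trans (hR x hx)
  have hnR : (0 : ℝ) < n := by exact_mod_cast hn
  set ε : ℝ := min (1 / 2) (w / (4 * n * (R + 1))) with hε
  have hεpos : 0 < ε := by
    rw [hε]
    apply lt_min (by norm_num)
    positivity
  obtain ⟨q, hq, hqa⟩ := dirichlet_finset (Finset.univ : Finset (Fin n)) a ε hεpos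
  choose! u hu using hqa
  have hu' : ∀ i, |(q : ℝ) * a i - u i| ≤ ε := fun i => hu i (Finset.mem_univ i)
  have hune : u ≠ 0 := by
    intro h
    have h1 := hu' j
    rw [h, haj] at h1
    simp only [Pi.zero_apply, Int.cast_zero, sub_zero, mul_one] at h1
    rw [abs_of_nonneg (by positivity)] at h1
    have h2 : (1 : ℝ) ≤ q := by exact_mod_cast hq
    have h3 : ε ≤ 1 / 2 := min_le_left _ _
    linarith
  obtain ⟨x, hx, y, hy, hxy⟩ := hW u hune
  have h4 : lin u x - lin u y = ∑ i, ((u i : ℝ) - q * a i) * (x i - y i) := by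
    have h5 := hax x hx y hy
    have h6 : ∑ i, ((u i : ℝ) - q * a i) * (x i - y i) =
        (∑ i, (u i : ℝ) * x i - ∑ i, (u i : ℝ) * y i) - q * ∑ i, a i * (x i - y i) := by
      rw [← Finset.sum_sub_distrib, Finset.mul_sum, ← Finset.sum_sub_distrib]
      refine Finset.sum_congr rfl fun i _ => ?_
      ring
    rw [h6, h5]
    simp [lin]
  have h7 : lin u x - lin u y ≤ n * (ε * (2 * R)) := by
    rw [h4]
    calc ∑ i, ((u i : ℝ) - q * a i) * (x i - y i)
        ≤ ∑ _i : Fin n, ε * (2 * R) := by
          refine Finset.sum_le_sum fun i _ => ?_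
          refine (le_abs_self _).trans ?_
          rw [abs_mul]
          apply mul_le_mul
          · rw [abs_sub_comm]; exact hu' i
          · have hxi : |x i| ≤ R := (norm_le_pi_norm x i).trans (hR x hx)
            have hyi : |y i| ≤ R := (norm_le_pi_norm y i).trans (hR y hy)
            have := abs_sub (x i) (y i)
            linarith
          · exact abs_nonneg _
          · exact hεpos.le
      _ = n * (ε * (2 * R)) := by simp
  have h8 : ε ≤ w / (4 * n * (R + 1)) := min_le_right _ _
  have h9 : n * (ε * (2 * R)) < w := by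
    calc (n : ℝ) * (ε * (2 * R)) ≤ n * ((w / (4 * n * (R + 1))) * (2 * R)) := by gcongr
      _ = w * (R / (2 * (R + 1))) := by field_simp; ring
      _ < w * 1 := by
        apply mul_lt_mul_of_pos_left _ hw
        rw [div_lt_one (by positivity)]
        linarith
      _ = w := mul_one w
  linarith

end Pool.Agent.Helper34.QH
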