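import Pool.Agent.Helper34.QH.Defs

/-! Project QH, module QH-4b: transference between the covering radius of a lattice and the
shortest nonzero vector of the dual lattice. -/

namespace Pool.Agent.Helper34.QH

open Module Submodule

/-- `y` is a dual vector of `L`. -/
def trDual {E : Type} [NormedAddCommGroup E] [InnerProductSpace ℝ E] (L : Submodule ℤ E)
    (y : E) : Prop :=
  ∀ x ∈ L, ∃ m : ℤ, inner ℝ y x = (m : ℝ)

/-- A shortest nonzero dual vector exists. -/
theorem tr_shortest {E : Type} [NormedAddCommGroup E] [InnerProductSpace ℝ E]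
    [FiniteDimensional ℝ E] (hE : 0 < finrank ℝ E) (L : Submodule ℤ E)
    [DiscreteTopology L] [IsZLattice ℝ L] :
    ∃ u : E, u ≠ 0 ∧ trDual L u ∧ ∀ y, y ≠ 0 → trDual L y → ‖u‖ ≤ ‖y‖ := by
  classical
  have h1 : Module.Finite ℤ L := ZLattice.module_finite ℝ L
  have h2 : Module.Free ℤ L := ZLattice.module_free ℝ L
  set ι := Module.Free.ChooseBasisIndex ℤ L
  let b : Basis ι ℤ L := Module.Free.chooseBasis ℤ L
  let B : Basis ι ℝ E := b.ofZLatticeBasis ℝ L
  have hBL : span ℤ (Set.range B) = L := b.ofZLatticeBasis_span ℝ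
  have hBmem : ∀ i, B i ∈ L := fun i => by
    rw [← hBL]
    exact subset_span ⟨i, rfl⟩
  have hne : Nonempty ι := by
    have : finrank ℝ E = Fintype.card ι := finrank_eq_card_basis B
    rw [this] at hE
    exact Fintype.card_pos_iff.1 hE
  obtain ⟨i0⟩ := hne
  -- a nonzero dual vector
  obtain ⟨y0, hy0, hy0'⟩ : ∃ y : E, y ≠ 0 ∧ trDual L y := by
    refine ⟨(InnerProductSpace.toDual ℝ E).symm (LinearMap.toContinuousLinearMap (B.coord i0)),
      ?_, ?_⟩
    · intro h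
      have h3 := InnerProductSpace.toDual_symm_apply (𝕜 := ℝ) (E := E)
        (x := B i0) (y := LinearMap.toContinuousLinearMap (B.coord i0))
      rw [h] at h3
      simp at h3
    · intro x hx
      rw [InnerProductSpace.toDual_symm_apply]
      refine ⟨b.repr ⟨x, hx⟩ i0, ?_⟩
      have := b.ofZLatticeBasis_repr_apply ℝ L ⟨x, hx⟩ i0
      simpa using this
  -- finitely many dual vectors in a ball
  have hfin : ∀ R : ℝ, {y : E | trDual L y ∧ ‖y‖ ≤ R}.Finite := by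
    intro R
    refine Set.Finite.of_finite_image (f := fun y : E => fun i => ⌊inner ℝ y (B i)⌋) ?_ ?_
    · refine (Set.finite_Icc (fun i : ι => -⌈R * ‖B i‖⌉) (fun i : ι => ⌈R * ‖B i‖⌉)).subset ?_
      rintro _ ⟨y, ⟨-, hy⟩, rfl⟩
      have h3 : ∀ i, |inner ℝ y (B i)| ≤ R * ‖B i‖ := fun i =>
        (abs_real_inner_le_norm y (B i)).trans (mul_le_mul_of_nonneg_right hy (norm_nonneg _))
      constructor
      · intro i
        change -⌈R * ‖B i‖⌉ ≤ ⌊inner ℝ y (B i)⌋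
        rw [Int.le_floor]
        push_cast
        have h4 := Int.le_ceil (R * ‖B i‖)
        have h5 := (abs_le.1 (h3 i)).1
        linarith
      · intro i
        change ⌊inner ℝ y (B i)⌋ ≤ ⌈R * ‖B i‖⌉
        have h4 := Int.le_ceil (R * ‖B i‖)
        have h5 := (abs_le.1 (h3 i)).2
        have h6 := Int.floor_le (inner ℝ y (B i) : ℝ)
        have h7 : (⌊inner ℝ y (B i)⌋ : ℝ) ≤ (⌈R * ‖B i‖⌉ : ℝ) := by linarith
        exact_mod_cast h7
    · intro y hy z hz hyz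
      have h3 : ∀ i, inner ℝ y (B i) = inner ℝ z (B i) := by
        intro i
        obtain ⟨m, hm⟩ := hy.1 (B i) (hBmem i)
        obtain ⟨m', hm'⟩ := hz.1 (B i) (hBmem i)
        have h4 := congrFun hyz i
        simp only [hm, hm', Int.floor_intCast] at h4
        rw [hm, hm', h4]
      have h4 : ∀ x : E, inner ℝ (y - z) x = 0 := by
        intro x
        rw [← B.sum_repr x, inner_sum]
        refine Finset.sum_eq_zero fun i _ => ?_
        rw [inner_smul_right, inner_sub_left, h3 i, sub_self, mul_zero]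
      have h5 := h4 (y - z)
      rw [inner_self_eq_zero (𝕜 := ℝ)] at h5
      exact sub_eq_zero.1 h5
  obtain ⟨u, ⟨⟨hu1, hu2⟩, hu3⟩, hu4⟩ := Set.exists_min_image
    {y : E | (trDual L y ∧ ‖y‖ ≤ ‖y0‖) ∧ y ≠ 0} (fun y => ‖y‖)
    ((hfin ‖y0‖).subset fun y hy => hy.1) ⟨y0, ⟨hy0', le_rfl⟩, hy0⟩
  refine ⟨u, hu3, hu1, fun y hy hy' => ?_⟩
  by_cases h : ‖y‖ ≤ ‖y0‖
  · exact hu4 y ⟨⟨hy', h⟩, hy⟩
  · exact hu2.trans (not_le.1 h).le

/-- A shortest nonzero dual vector is primitive. -/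
theorem tr_primitive {E : Type} [NormedAddCommGroup E] [InnerProductSpace ℝ E]
    [FiniteDimensional ℝ E] (L : Submodule ℤ E)
    [DiscreteTopology L] [IsZLattice ℝ L] (u : E) (hu : u ≠ 0) (hd : trDual L u)
    (hmin : ∀ y, y ≠ 0 → trDual L y → ‖u‖ ≤ ‖y‖) : ∃ e ∈ L, inner ℝ u e = (1 : ℝ) := by
  have hpos : 0 < ‖u‖ := norm_pos_iff.2 hu
  -- the ideal of values
  let I : Ideal ℤ :=
    { carrier := {m | ∃ x ∈ L, inner ℝ u x = (m : ℝ)}
      add_mem' := by
        rintro a b ⟨x, hx, hx'⟩ ⟨y, hy, hy'⟩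
        exact ⟨x + y, L.add_mem hx hy, by rw [inner_add_right, hx', hy']; push_cast; ring⟩
      zero_mem' := ⟨0, L.zero_mem, by simp⟩
      smul_mem' := by
        rintro c a ⟨x, hx, hx'⟩
        refine ⟨c • x, L.smul_mem c hx, ?_⟩
        rw [← Int.cast_smul_eq_zsmul ℝ, inner_smul_right, hx', smul_eq_mul]
        push_cast
        ring }
  obtain ⟨g, hg⟩ := (inferInstance : Submodule.IsPrincipal I)
  have hI : ∀ m : ℤ, (∃ x ∈ L, inner ℝ u x = (m : ℝ)) ↔ g ∣ m := by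
    intro m
    have h1 : m ∈ I ↔ m ∈ Submodule.span ℤ {g} := by rw [hg]
    rw [← Ideal.mem_span_singleton]
    exact h1
  have hg0 : g ≠ 0 := by
    rintro rfl
    apply hu
    have h1 : ∀ x ∈ L, inner ℝ u x = (0 : ℝ) := by
      intro x hx
      obtain ⟨m, hm⟩ := hd x hx
      have h2 := (hI m).1 ⟨x, hx, hm⟩
      rw [zero_dvd_iff] at h2
      rw [hm, h2]
      simp
    have h2 : ∀ x ∈ Submodule.span ℝ (L : Set E), inner ℝ u x = (0 : ℝ) := by
      intro x hx
      induction hx using Submodule.span_induction with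
      | mem x hx => exact h1 x hx
      | zero => simp
      | add x y _ _ hx hy => rw [inner_add_right, hx, hy, add_zero]
      | smul a x _ hx => rw [inner_smul_right, hx, mul_zero]
    have h3 := h2 u (by rw [IsZLattice.span_top]; trivial)
    exact (inner_self_eq_zero (𝕜 := ℝ)).1 h3
  have hgR : (g : ℝ) ≠ 0 := by exact_mod_cast hg0
  have h1 := hmin ((1 / (g : ℝ)) • u) (smul_ne_zero (one_div_ne_zero hgR) hu) (by
    intro x hx
    obtain ⟨m, hm⟩ := hd x hx
    obtain ⟨k, hk⟩ := (hI m).1 ⟨x, hx, hm⟩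
    refine ⟨k, ?_⟩
    rw [real_inner_smul_left, hm, hk]
    push_cast
    field_simp)
  rw [norm_smul, norm_div, norm_one, Real.norm_eq_abs] at h1
  have h2 : |(g : ℝ)| ≤ 1 := by
    have h3 : 0 < |(g : ℝ)| := abs_pos.2 hgR
    rw [div_mul_eq_mul_div, one_mul, le_div_iff₀ h3] at h1
    nlinarith
  have h3 : |g| ≤ 1 := by
    rw [← Int.cast_abs] at h2
    exact_mod_cast h2
  have h4 : g ∣ 1 := by
    have h5 : g = 1 ∨ g = -1 := by
      have := abs_le.1 h3
      omega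
    rcases h5 with rfl | rfl
    · exact dvd_rfl
    · exact ⟨-1, by norm_num⟩
  obtain ⟨e, he, he'⟩ := (hI 1).2 h4
  exact ⟨e, he, by rw [he']; simp⟩

/-- The step. -/
theorem tr_step (n : ℕ)
    (ih : ∀ (E : Type) [NormedAddCommGroup E] [InnerProductSpace ℝ E]
      [FiniteDimensional ℝ E] (_ : finrank ℝ E = n) (L : Submodule ℤ E)
      [DiscreteTopology L] [IsZLattice ℝ L] (lam : ℝ) (_ : 0 < lam)
      (_ : ∀ y : E, y ≠ 0 → trDual L y → lam ≤ ‖y‖) (p : E),
      ∃ x ∈ L, ‖p - x‖ ^ 2 ≤ 3 / 4 * ((4 / 3) ^ n - 1) / lam ^ 2)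
    (E : Type) [NormedAddCommGroup E] [InnerProductSpace ℝ E]
    [FiniteDimensional ℝ E] (hE : finrank ℝ E = n + 1) (L : Submodule ℤ E)
    [DiscreteTopology L] [IsZLattice ℝ L] (lam : ℝ) (hlam : 0 < lam)
    (hd : ∀ y : E, y ≠ 0 → trDual L y → lam ≤ ‖y‖) (p : E) :
    ∃ x ∈ L, ‖p - x‖ ^ 2 ≤ 3 / 4 * ((4 / 3) ^ (n + 1) - 1) / lam ^ 2 := by
  classical
  obtain ⟨u, hu0, hu1, hu2⟩ := tr_shortest (by omega : 0 < finrank ℝ E) L
  obtain ⟨e, he, he1⟩ := tr_primitive L u hu0 hu1 hu2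
  have hμ : 0 < ‖u‖ := norm_pos_iff.2 hu0
  have hlu : lam ≤ ‖u‖ := hd u hu0 hu1
  let F : Submodule ℝ E := (ℝ ∙ u)ᗮ
  have hF : ∀ x : E, x ∈ F ↔ inner ℝ u x = (0 : ℝ) := fun x =>
    Submodule.mem_orthogonal_singleton_iff_inner_right
  have hFdim : finrank ℝ F = n := by
    have h1 := Submodule.finrank_add_finrank_orthogonal (ℝ ∙ u)
    rw [finrank_span_singleton hu0, hE] at h1
    change finrank ℝ (ℝ ∙ u)ᗮ = n
    omega
  let L' : Submodule ℤ F := ZLattice.comap ℝ L F.subtype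
  have hL' : ∀ x : F, x ∈ L' ↔ (x : E) ∈ L := fun x => Iff.rfl
  have hdisc : DiscreteTopology L' :=
    ZLattice.comap_discreteTopology ℝ L continuous_subtype_val Subtype.val_injective
  have hlat : IsZLattice ℝ L' := by
    constructor
    have h1 : Module.Finite ℤ L := ZLattice.module_finite ℝ L
    have h2 : Module.Free ℤ L := ZLattice.module_free ℝ L
    set ι := Module.Free.ChooseBasisIndex ℤ L
    let b : Basis ι ℤ L := Module.Free.chooseBasis ℤ L
    let B : Basis ι ℝ E := b.ofZLatticeBasis ℝ L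
    have hBL : span ℤ (Set.range B) = L := b.ofZLatticeBasis_span ℝ
    have hBmem : ∀ i, B i ∈ L := fun i => by
      rw [← hBL]
      exact subset_span ⟨i, rfl⟩
    -- the vectors `b_i - ⟨u, b_i⟩ e`
    choose a ha using fun i => hu1 (B i) (hBmem i)
    have hmem : ∀ i, B i - (a i : ℝ) • e ∈ F := fun i => by
      rw [hF, inner_sub_right, inner_smul_right, ha, he1]
      ring
    have hmem' : ∀ i, B i - (a i : ℝ) • e ∈ L := fun i => by
      rw [Int.cast_smul_eq_zsmul]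
      exact L.sub_mem (hBmem i) (L.smul_mem _ he)
    rw [eq_top_iff]
    rintro v -
    have hv : v = ∑ i, B.repr (v : E) i • (⟨B i - (a i : ℝ) • e, hmem i⟩ : F) := by
      apply Subtype.ext
      rw [AddSubmonoidClass.coe_finsetSum]
      simp only [Submodule.coe_smul]
      have h3 : (0 : ℝ) = ∑ i, B.repr (v : E) i * a i := by
        have h4 := (hF v).1 v.2
        rw [← B.sum_repr (v : E), inner_sum] at h4
        rw [← h4]
        refine Finset.sum_congr rfl fun i _ => ?_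
        rw [inner_smul_right, ha]
      calc (v : E) = ∑ i, B.repr (v : E) i • B i - (0 : ℝ) • e := by
            rw [B.sum_repr, zero_smul, sub_zero]
        _ = ∑ i, B.repr (v : E) i • (B i - (a i : ℝ) • e) := by
            rw [h3, Finset.sum_smul, ← Finset.sum_sub_distrib]
            refine Finset.sum_congr rfl fun i _ => ?_
            rw [smul_sub, smul_smul]
    rw [hv]
    refine Submodule.sum_mem _ fun i _ => Submodule.smul_mem _ _ (subset_span ?_)
    exact hmem' i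
  -- dual vectors of `L'`
  have hdual : ∀ y : F, y ≠ 0 → trDual L' y → Real.sqrt (3 / 4) * ‖u‖ ≤ ‖y‖ := by
    intro y hy hy'
    obtain ⟨c, hc, m0, hm0⟩ : ∃ c : ℝ, |c| ≤ 1 / 2 ∧ ∃ m0 : ℤ,
        inner ℝ ((y : E) + c • u) e = (m0 : ℝ) := by
      refine ⟨-(inner ℝ (y : E) e - round (inner ℝ (y : E) e)), ?_,
        round (inner ℝ (y : E) e), ?_⟩
      · rw [abs_neg]
        exact abs_sub_round _
      · rw [inner_add_left, real_inner_smul_left, he1]
        ring
    have hdu : trDual L ((y : E) + c • u) := by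
      intro x hx
      obtain ⟨m, hm⟩ := hu1 x hx
      have h1 : x - (m : ℝ) • e ∈ F := by
        rw [hF, inner_sub_right, inner_smul_right, hm, he1]
        ring
      have h2 : x - (m : ℝ) • e ∈ L := by
        rw [Int.cast_smul_eq_zsmul]
        exact L.sub_mem hx (L.smul_mem _ he)
      obtain ⟨k, hk⟩ := hy' ⟨x - (m : ℝ) • e, h1⟩ h2
      have hk' : inner ℝ (y : E) (x - (m : ℝ) • e) = (k : ℝ) := hk
      refine ⟨k + m * m0, ?_⟩
      have h3 : inner ℝ ((y : E) + c • u) (x - (m : ℝ) • e) = (k : ℝ) := by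
        rw [inner_add_left, real_inner_smul_left, hk', (hF _).1 h1]
        ring
      have h4 : inner ℝ ((y : E) + c • u) x =
          inner ℝ ((y : E) + c • u) (x - (m : ℝ) • e) +
            (m : ℝ) * inner ℝ ((y : E) + c • u) e := by
        rw [inner_sub_right, inner_smul_right]
        ring
      rw [h4, h3, hm0]
      push_cast
      ring
    have horth : inner ℝ (y : E) (c • u) = (0 : ℝ) := by
      rw [inner_smul_right, real_inner_comm, (hF _).1 y.2, mul_zero]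
    have hsq : ‖(y : E) + c • u‖ ^ 2 = ‖y‖ ^ 2 + c ^ 2 * ‖u‖ ^ 2 := by
      rw [@norm_add_sq_real, horth, norm_smul, Real.norm_eq_abs, mul_pow, sq_abs]
      simp
    have hne : (y : E) + c • u ≠ 0 := by
      intro h
      rw [h] at hsq
      have h1 : 0 < ‖y‖ := norm_pos_iff.2 hy
      have h2 : 0 < ‖y‖ ^ 2 := by positivity
      have h3 : 0 ≤ c ^ 2 * ‖u‖ ^ 2 := by positivity
      simp only [norm_zero] at hsq
      nlinarith
    have h1 := hu2 _ hne hdu
    have h2 : ‖u‖ ^ 2 ≤ ‖y‖ ^ 2 + c ^ 2 * ‖u‖ ^ 2 := by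
      rw [← hsq]
      exact pow_le_pow_left₀ hμ.le h1 2
    have h3 : c ^ 2 ≤ 1 / 4 := by
      have := abs_le.1 hc
      nlinarith
    have h4 : (Real.sqrt (3 / 4) * ‖u‖) ^ 2 ≤ ‖y‖ ^ 2 := by
      rw [mul_pow, Real.sq_sqrt (by norm_num)]
      nlinarith [sq_nonneg ‖u‖]
    exact le_of_sq_le_sq h4 (norm_nonneg _)
  -- the point
  obtain ⟨s, hs, q', hq'⟩ : ∃ s : ℝ, |s| ≤ 1 / 2 ∧ ∃ q' : F,
      p - ((round (inner ℝ u p) : ℤ) : ℝ) • e = (q' : E) + (s / ‖u‖ ^ 2) • u := by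
    refine ⟨inner ℝ u p - round (inner ℝ u p), abs_sub_round _,
      ⟨p - ((round (inner ℝ u p) : ℤ) : ℝ) • e -
        ((inner ℝ u p - round (inner ℝ u p)) / ‖u‖ ^ 2) • u, ?_⟩, by simp⟩
    rw [hF, inner_sub_right, inner_sub_right, inner_smul_right, inner_smul_right, he1,
      real_inner_self_eq_norm_sq]
    field_simp
    ring
  obtain ⟨x', hx', hxn⟩ := ih F hFdim L' (Real.sqrt (3 / 4) * ‖u‖) (by positivity) hdual q'
  refine ⟨((round (inner ℝ u p) : ℤ) : ℝ) • e + x', ?_, ?_⟩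
  · rw [Int.cast_smul_eq_zsmul]
    exact L.add_mem (L.smul_mem _ he) hx'
  · have e1 : p - (((round (inner ℝ u p) : ℤ) : ℝ) • e + (x' : E)) =
        ((q' - x' : F) : E) + (s / ‖u‖ ^ 2) • u := by
      rw [← sub_sub, hq']
      push_cast
      abel
    have horth : inner ℝ ((q' - x' : F) : E) ((s / ‖u‖ ^ 2) • u) = (0 : ℝ) := by
      rw [inner_smul_right, real_inner_comm, (hF _).1 (q' - x').2, mul_zero]
    rw [e1, @norm_add_sq_real, horth, norm_smul, Real.norm_eq_abs, mul_pow, sq_abs]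
    have h1 : ‖((q' - x' : F) : E)‖ ^ 2 ≤ ((4 / 3 : ℝ) ^ n - 1) / ‖u‖ ^ 2 := by
      refine hxn.trans (le_of_eq ?_)
      rw [mul_pow, Real.sq_sqrt (by norm_num)]
      field_simp
    have h2 : (s / ‖u‖ ^ 2) ^ 2 * ‖u‖ ^ 2 ≤ 1 / 4 / ‖u‖ ^ 2 := by
      have h3 : (s / ‖u‖ ^ 2) ^ 2 * ‖u‖ ^ 2 = s ^ 2 / ‖u‖ ^ 2 := by
        field_simp
      rw [h3]
      have h4 : s ^ 2 ≤ 1 / 4 := by
        have := abs_le.1 hs
        nlinarith
      exact div_le_div_of_nonneg_right h4 (by positivity)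
    have h3 : 3 / 4 * ((4 / 3 : ℝ) ^ (n + 1) - 1) / ‖u‖ ^ 2 ≤
        3 / 4 * ((4 / 3 : ℝ) ^ (n + 1) - 1) / lam ^ 2 := by
      apply div_le_div_of_nonneg_left
      · have : (1 : ℝ) ≤ (4 / 3) ^ (n + 1) := one_le_pow₀ (by norm_num)
        nlinarith
      · positivity
      · exact pow_le_pow_left₀ hlam.le hlu 2
    refine le_trans ?_ h3
    have h4 : 3 / 4 * ((4 / 3 : ℝ) ^ (n + 1) - 1) / ‖u‖ ^ 2 =
        ((4 / 3 : ℝ) ^ n - 1) / ‖u‖ ^ 2 + 1 / 4 / ‖u‖ ^ 2 := by
      rw [pow_succ]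
      field_simp
      ring
    rw [h4]
    linarith

theorem transference {n : ℕ} {E : Type} [NormedAddCommGroup E] [InnerProductSpace ℝ E]
    [FiniteDimensional ℝ E] (hE : Module.finrank ℝ E = n) (L : Submodule ℤ E)
    [DiscreteTopology L] [IsZLattice ℝ L] (lam : ℝ) (hlam : 0 < lam)
    (hd : ∀ y : E, y ≠ 0 → (∀ x ∈ L, ∃ m : ℤ, inner ℝ y x = (m : ℝ)) → lam ≤ ‖y‖) (p : E) :
    ∃ x ∈ L, ‖p - x‖ ^ 2 ≤ 3 / 4 * ((4 / 3) ^ n - 1) / lam ^ 2 := by
  have main : ∀ (n : ℕ) (E : Type) [NormedAddCommGroup E] [InnerProductSpace ℝ E]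
      [FiniteDimensional ℝ E] (_ : finrank ℝ E = n) (L : Submodule ℤ E)
      [DiscreteTopology L] [IsZLattice ℝ L] (lam : ℝ) (_ : 0 < lam)
      (_ : ∀ y : E, y ≠ 0 → trDual L y → lam ≤ ‖y‖) (p : E),
      ∃ x ∈ L, ‖p - x‖ ^ 2 ≤ 3 / 4 * ((4 / 3) ^ n - 1) / lam ^ 2 := by
    intro n
    induction n with
    | zero =>
      intro E _ _ _ hE L _ _ lam _ _ p
      have : Subsingleton E := finrank_zero_iff.1 hE
      refine ⟨0, L.zero_mem, ?_⟩
      rw [Subsingleton.elim (p - 0) 0]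
      simp
    | succ n ih => exact tr_step n ih
  exact main n E hE L lam hlam hd p

end Pool.Agent.Helper34.QH
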