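import Pool.Agent.Helper34.QH.Position
import Pool.Agent.Helper34.QH.Transference
import Pool.Agent.Helper34.QH.Interior

/-! Project QH (helper34), MP_735047_co, module QH-4d: the flatness theorem. -/

namespace Pool.Agent.Helper34.QH

open MeasureTheory


/-- the frame as a linear isomorphism -/
private theorem exists_frame {n : ℕ} (w : Fin n → Fin n → ℝ) (hw : (Matrix.of w).det ≠ 0) :
    ∃ T : EuclideanSpace ℝ (Fin n) ≃ₗ[ℝ] (Fin n → ℝ), ∀ c : EuclideanSpace ℝ (Fin n),
      T c = ∑ i, c i • w i := by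
  have hinj : Function.Injective (Matrix.of w).vecMul := by
    have hu : IsUnit (Matrix.of w) := by
      rw [Matrix.isUnit_iff_isUnit_det]
      exact isUnit_iff_ne_zero.2 hw
    exact Matrix.vecMul_injective_of_isUnit hu
  let f : EuclideanSpace ℝ (Fin n) →ₗ[ℝ] (Fin n → ℝ) :=
    (Matrix.vecMulLinear (Matrix.of w)).comp (WithLp.linearEquiv 2 ℝ (Fin n → ℝ)).toLinearMap
  have hf : ∀ c : EuclideanSpace ℝ (Fin n), f c = ∑ i, c i • w i := by
    intro c
    ext j
    simp [f, Matrix.vecMul, dotProduct, Finset.sum_apply]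
  have hfi : Function.Injective f := by
    intro a b hab
    have h1 := hinj (a₁ := (WithLp.linearEquiv 2 ℝ (Fin n → ℝ)) a)
      (a₂ := (WithLp.linearEquiv 2 ℝ (Fin n → ℝ)) b) hab
    exact (WithLp.linearEquiv 2 ℝ (Fin n → ℝ)).injective h1
  refine ⟨LinearEquiv.ofInjectiveOfFinrankEq f hfi ?_, ?_⟩
  · simp
  · intro c
    rw [← hf c]
    rfl

private theorem numeric {n : ℕ} (hn : 1 ≤ n) :
    4 * Real.sqrt n * (2 * ((n : ℝ) + 1) * Real.sqrt (3 / 4 * ((4 / 3) ^ n - 1))) ≤ F n := by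
  have hn' : (1 : ℝ) ≤ n := by exact_mod_cast hn
  have h43 : (1 : ℝ) ≤ (4 / 3) ^ n := one_le_pow₀ (by norm_num)
  have hs : ((Real.sqrt (4 / 3)) ^ n) ^ 2 = (4 / 3) ^ n := by
    rw [← pow_mul, mul_comm, pow_mul, Real.sq_sqrt (by norm_num)]
  have hF : 0 ≤ F n := by
    unfold F
    positivity
  refine le_of_sq_le_sq ?_ hF
  unfold F
  set q : ℝ := (4 / 3) ^ n with hq
  have e1 : (4 * Real.sqrt n * (2 * ((n : ℝ) + 1) * Real.sqrt (3 / 4 * (q - 1)))) ^ 2 =
      48 * n * ((n : ℝ) + 1) ^ 2 * (q - 1) := by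
    rw [mul_pow, mul_pow, mul_pow, Real.sq_sqrt (by positivity), Real.sq_sqrt (by linarith)]
    ring
  have e2 : (7 * ((n : ℝ) + 1) ^ 2 * (Real.sqrt (4 / 3)) ^ n) ^ 2 =
      49 * ((n : ℝ) + 1) ^ 2 * ((n : ℝ) + 1) ^ 2 * q := by
    rw [mul_pow, hs]
    ring
  rw [e1, e2]
  have e3 : 48 * (n : ℝ) ≤ 49 * ((n : ℝ) + 1) ^ 2 := by nlinarith
  have e4 : 0 ≤ ((n : ℝ) + 1) ^ 2 := by positivity
  calc 48 * n * ((n : ℝ) + 1) ^ 2 * (q - 1) ≤ 48 * n * ((n : ℝ) + 1) ^ 2 * q :=
        mul_le_mul_of_nonneg_left (by linarith) (by positivity)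
    _ ≤ 49 * ((n : ℝ) + 1) ^ 2 * ((n : ℝ) + 1) ^ 2 * q := by
        refine mul_le_mul_of_nonneg_right ?_ (by linarith)
        exact mul_le_mul_of_nonneg_right e3 e4

theorem flat {n : ℕ} (hn : 1 ≤ n) (K : Set (Fin n → ℝ)) (hc : Convex ℝ K) (hk : IsCompact K)
    (hW : Wide K (F n)) : (pts K).Nonempty := by
  have hn' : (1 : ℝ) ≤ n := by exact_mod_cast hn
  have hFpos : 0 < F n := by
    unfold F
    have : 0 < Real.sqrt (4 / 3) := Real.sqrt_pos.2 (by norm_num)
    positivity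
  obtain ⟨o, w, hp, -⟩ := exists_pos hn K hc hk (interior_of_wide hn K hc hk (F n) hFpos hW)
  obtain ⟨T, hT⟩ := exists_frame w hp.det_ne
  set b : Module.Basis (Fin n) ℝ (EuclideanSpace ℝ (Fin n)) :=
    (Pi.basisFun ℝ (Fin n)).map T.symm with hb
  have hbj : ∀ j, T (b j) = Pi.single j 1 := by
    intro j
    simp [hb]
  have hrepr : ∀ x j, b.repr x j = T x j := by
    intro x j
    simp [hb]
  set L : Submodule ℤ (EuclideanSpace ℝ (Fin n)) := Submodule.span ℤ (Set.range b) with hL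
  set f : ℝ := 3 / 4 * ((4 / 3) ^ n - 1) with hf
  have hf0 : 0 < f := by
    have : (1 : ℝ) < (4 / 3) ^ n := one_lt_pow₀ (by norm_num) (by omega)
    rw [hf]
    linarith
  set lam : ℝ := 2 * ((n : ℝ) + 1) * Real.sqrt f with hlam
  have hlam0 : 0 < lam := by
    have := Real.sqrt_pos.2 hf0
    positivity
  have hd : ∀ y : EuclideanSpace ℝ (Fin n), y ≠ 0 →
      (∀ x ∈ L, ∃ m : ℤ, inner ℝ y x = (m : ℝ)) → lam ≤ ‖y‖ := by
    intro y hy hyL
    have h1 : ∀ j, ∃ m : ℤ, inner ℝ y (b j) = (m : ℝ) := fun j =>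
      hyL _ (Submodule.subset_span ⟨j, rfl⟩)
    choose u hu using h1
    -- `⟪y, c⟫ = lin u (T c)`
    have hlin : ∀ c : EuclideanSpace ℝ (Fin n), inner ℝ y c = lin u (T c) := by
      intro c
      conv_lhs => rw [← b.sum_repr c]
      rw [inner_sum]
      unfold lin
      refine Finset.sum_congr rfl fun j _ => ?_
      rw [inner_smul_right, hu, hrepr]
      ring
    have hu0 : u ≠ 0 := by
      rintro rfl
      apply hy
      have h2 : inner ℝ y y = 0 := by
        rw [hlin]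
        simp [lin]
      exact inner_self_eq_zero.1 h2
    obtain ⟨x, hx, x', hx', hxx⟩ := hW u hu0
    obtain ⟨c, hxc, hc2⟩ := hp.bdd x hx
    obtain ⟨c', hxc', hc2'⟩ := hp.bdd x' hx'
    set e : EuclideanSpace ℝ (Fin n) := WithLp.toLp 2 (c - c') with he
    have h3 : lin u x - lin u x' = inner ℝ y e := by
      rw [hlin, hT, hxc, hxc']
      have : ∀ z z' : Fin n → ℝ, lin u z - lin u z' = lin u (z - z') := by
        intro z z'
        unfold lin
        rw [← Finset.sum_sub_distrib]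
        refine Finset.sum_congr rfl fun j _ => ?_
        simp
        ring
      rw [this]
      congr 1
      simp only [he]
      rw [add_sub_add_left_eq_sub, ← Finset.sum_sub_distrib]
      refine Finset.sum_congr rfl fun j _ => ?_
      rw [← sub_smul]
      rfl
    have h4 : ‖e‖ ≤ 4 * Real.sqrt n := by
      rw [EuclideanSpace.norm_eq]
      have h5 : ∑ i, ‖e i‖ ^ 2 ≤ ∑ _i : Fin n, (4 : ℝ) ^ 2 := by
        refine Finset.sum_le_sum fun i _ => ?_
        have h6 : ‖e i‖ ≤ 4 := by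
          have : e i = c i - c' i := rfl
          rw [this, Real.norm_eq_abs]
          have := abs_sub (c i) (c' i)
          linarith [hc2 i, hc2' i]
        exact pow_le_pow_left₀ (norm_nonneg _) h6 2
      rw [Finset.sum_const, Finset.card_univ, Fintype.card_fin, nsmul_eq_mul] at h5
      refine (Real.sqrt_le_sqrt h5).trans ?_
      rw [Real.sqrt_mul (by positivity), Real.sqrt_sq (by norm_num)]
      linarith
    have h7 : F n ≤ ‖y‖ * (4 * Real.sqrt n) := by
      calc F n ≤ lin u x - lin u x' := hxx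
        _ = inner ℝ y e := h3
        _ ≤ ‖y‖ * ‖e‖ := real_inner_le_norm _ _
        _ ≤ ‖y‖ * (4 * Real.sqrt n) := mul_le_mul_of_nonneg_left h4 (norm_nonneg _)
    have h8 := numeric hn
    rw [← hf, ← hlam] at h8
    have h9 : 0 < 4 * Real.sqrt n := by
      have : 0 < Real.sqrt n := Real.sqrt_pos.2 (by linarith)
      positivity
    have h10 : lam * (4 * Real.sqrt n) ≤ ‖y‖ * (4 * Real.sqrt n) := by linarith
    exact le_of_mul_le_mul_right h10 h9
  obtain ⟨x, hxL, hx⟩ := transference (E := EuclideanSpace ℝ (Fin n)) (n := n) (by simp) L lam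
    hlam0 hd (T.symm o)
  have hflam : 3 / 4 * ((4 / 3) ^ n - 1) / lam ^ 2 = (1 / (2 * ((n : ℝ) + 1))) ^ 2 := by
    rw [← hf, hlam, mul_pow, Real.sq_sqrt hf0.le]
    field_simp
  rw [hflam] at hx
  have hx' : ‖T.symm o - x‖ ≤ 1 / (2 * ((n : ℝ) + 1)) :=
    le_of_sq_le_sq hx (by positivity)
  have hmem := hp.box hc (fun i => (x - T.symm o) i) (by
    intro i
    have h1 : ‖(x - T.symm o) i‖ ≤ ‖x - T.symm o‖ := PiLp.norm_apply_le _ _
    rw [norm_sub_rev x] at h1
    rw [Real.norm_eq_abs] at h1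
    exact h1.trans hx')
  have h2 : o + ∑ i, (x - T.symm o) i • w i = T x := by
    rw [← hT, map_sub, LinearEquiv.apply_symm_apply]
    abel
  rw [h2] at hmem
  -- `T x` is integral
  rw [hL, Module.Basis.mem_span_iff_repr_mem] at hxL
  choose z hz using hxL
  refine ⟨z, ?_⟩
  have h3 : toR z = T x := by
    ext j
    rw [← hrepr, ← hz j]
    simp [toR]
  show toR z ∈ K
  rw [h3]
  exact hmem

end Pool.Agent.Helper34.QH
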