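import Pool.Agent.Helper34.QH.Defs

/-!
Project QH, module 2: basic facts, the parity bound, dimension one.
-/

set_option autoImplicit false

namespace Pool.Agent.Helper34.QH

open MeasureTheory

theorem toR_injective {n : ℕ} : Function.Injective (toR (n := n)) := by
  intro x y h
  funext i
  have := congrFun h i
  simpa [toR] using this

theorem pts_finite {n : ℕ} {K : Set (Fin n → ℝ)} (hK : Bornology.IsBounded K) :
    (pts K).Finite := by
  obtain ⟨R, hR⟩ := (Metric.isBounded_iff_subset_closedBall 0).1 hK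
  refine (Set.finite_Icc (fun _ : Fin n => -⌈R⌉) (fun _ => ⌈R⌉)).subset ?_
  intro z hz
  have h1 := hR hz
  rw [mem_closedBall_zero_iff] at h1
  have h2 : ∀ i, |(z i : ℝ)| ≤ R := fun i => by
    have := (norm_le_pi_norm (toR z) i).trans h1
    simpa [toR] using this
  constructor
  · intro i
    have h3 := (abs_le.1 (h2 i)).1
    have h4 : -(⌈R⌉ : ℝ) ≤ z i := by
      have := Int.le_ceil R
      linarith
    exact_mod_cast h4
  · intro i
    have h3 := (abs_le.1 (h2 i)).2
    have h4 : (z i : ℝ) ≤ (⌈R⌉ : ℝ) := h3.trans (Int.le_ceil R)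
    exact_mod_cast h4

theorem hull_compact {n : ℕ} (V : Finset (Fin n → ℤ)) : IsCompact (hull V) :=
  (V.finite_toSet.image toR).isCompact_convexHull (𝕜 := ℝ)

theorem oth_finite {n : ℕ} (V : Finset (Fin n → ℤ)) : (oth V).Finite :=
  (pts_finite (hull_compact V).isBounded).subset fun _ hx => hx.1

theorem hull_mono {n : ℕ} {V S : Finset (Fin n → ℤ)} (hS : S ⊆ V) : hull S ⊆ hull V :=
  convexHull_mono (Set.image_mono (Finset.coe_subset.2 hS))

theorem CI.subset {n : ℕ} {V S : Finset (Fin n → ℤ)} (hV : CI V) (hS : S ⊆ V) : CI S := by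
  intro v hv h
  exact hV v (hS hv) (hull_mono (Finset.erase_subset_erase v hS) h)

/-- A CI set whose points lie in a bounded convex set `K` has at most `#pts K` other points. -/
theorem oth_le_pts {n : ℕ} (V : Finset (Fin n → ℤ)) (K : Set (Fin n → ℝ)) (hc : Convex ℝ K)
    (hb : Bornology.IsBounded K) (hV : ∀ v ∈ V, toR v ∈ K) : (oth V).ncard ≤ (pts K).ncard := by
  refine Set.ncard_le_ncard ?_ (pts_finite hb)
  intro x hx
  refine convexHull_min ?_ hc hx.1
  rintro _ ⟨v, hv, rfl⟩
  exact hV v hv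

theorem QH2_mem_hull {n : ℕ} {V : Finset (Fin n → ℤ)} {v : Fin n → ℤ} (hv : v ∈ V) :
    toR v ∈ hull V :=
  subset_convexHull ℝ _ ⟨v, hv, rfl⟩

theorem parity {n : ℕ} (V : Finset (Fin n → ℤ)) (hV : CI V) :
    V.card ≤ 2 ^ n * ((oth V).ncard + 1) := by
  classical
  by_contra hcon
  push Not at hcon
  have hcard : (Finset.univ : Finset (Fin n → ZMod 2)).card * ((oth V).ncard + 1) < V.card := by
    rw [Finset.card_univ, Fintype.card_pi]
    simpa [ZMod.card] using hcon
  obtain ⟨r, -, hr⟩ := Finset.exists_lt_card_fiber_of_mul_lt_card_of_maps_to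
    (f := fun v : Fin n → ℤ => fun i => ((v i : ℤ) : ZMod 2)) (t := Finset.univ)
    (fun _ _ => Finset.mem_univ _) hcard
  set W := V.filter (fun v => (fun i => ((v i : ℤ) : ZMod 2)) = r) with hW
  have hne : W.Nonempty := Finset.card_pos.1 (by omega)
  obtain ⟨v1, hv1⟩ := hne
  have hv1V : v1 ∈ V := (Finset.mem_filter.1 hv1).1
  -- the midpoints
  let mid : (Fin n → ℤ) → (Fin n → ℤ) := fun v i => (v1 i + v i) / 2
  have hmid : ∀ v ∈ W, ∀ i, 2 * mid v i = v1 i + v i := by
    intro v hv i
    have h1 := congrFun (Finset.mem_filter.1 hv1).2 i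
    have h2 := congrFun (Finset.mem_filter.1 hv).2 i
    have h3 : ((v1 i + v i : ℤ) : ZMod 2) = 0 := by
      push_cast
      have e : ((v1 i : ℤ) : ZMod 2) = ((v i : ℤ) : ZMod 2) := h1.trans h2.symm
      rw [e]
      exact CharTwo.add_self_eq_zero _
    have h4 : (2 : ℤ) ∣ v1 i + v i := by
      have := (ZMod.intCast_zmod_eq_zero_iff_dvd (v1 i + v i) 2).1 h3
      exact_mod_cast this
    exact Int.mul_ediv_cancel' h4
  have hmidR : ∀ v ∈ W, toR (mid v) = (1 / 2 : ℝ) • toR v1 + (1 / 2 : ℝ) • toR v := by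
    intro v hv
    funext i
    have h1 := hmid v hv i
    have h2 : (2 : ℝ) * (mid v i : ℝ) = v1 i + v i := by exact_mod_cast h1
    simp only [toR, Pi.add_apply, Pi.smul_apply, smul_eq_mul]
    linarith
  have hsub : ((W.erase v1).image mid : Set (Fin n → ℤ)) ⊆ oth V := by
    intro x hx
    rw [Finset.mem_coe, Finset.mem_image] at hx
    obtain ⟨v, hv, rfl⟩ := hx
    rw [Finset.mem_erase] at hv
    have hvV : v ∈ V := (Finset.mem_filter.1 hv.2).1
    have hR := hmidR v hv.2
    have key : ∀ S : Finset (Fin n → ℤ), v1 ∈ S → v ∈ S → toR (mid v) ∈ hull S := by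
      intro S h1 h2
      rw [hR]
      exact (convex_convexHull ℝ _) (QH2_mem_hull h1) (QH2_mem_hull h2) (by norm_num) (by norm_num)
        (by norm_num)
    refine ⟨key V hv1V hvV, fun hmem => ?_⟩
    refine hV (mid v) hmem (key _ ?_ ?_)
    · rw [Finset.mem_erase]
      refine ⟨fun h => hv.1 ?_, hv1V⟩
      funext i
      have h1 := hmid v hv.2 i
      rw [← h] at h1
      omega
    · rw [Finset.mem_erase]
      refine ⟨fun h => hv.1 ?_, hvV⟩
      funext i
      have h1 := hmid v hv.2 i
      rw [← h] at h1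
      omega
  have hinj : Set.InjOn mid (W.erase v1 : Set (Fin n → ℤ)) := by
    intro x hx y hy hxy
    rw [Finset.mem_coe, Finset.mem_erase] at hx hy
    funext i
    have h1 := hmid x hx.2 i
    have h2 := hmid y hy.2 i
    rw [hxy] at h1
    omega
  have h1 := Set.ncard_le_ncard hsub (oth_finite V)
  rw [Set.ncard_coe_finset, Finset.card_image_of_injOn hinj, Finset.card_erase_of_mem hv1] at h1
  omega

theorem dim_one (V : Finset (Fin 1 → ℤ)) (hV : CI V) : V.card ≤ 2 := by
  classical
  rcases V.eq_empty_or_nonempty with rfl | hne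
  · simp
  obtain ⟨a, ha, hamin⟩ := V.exists_min_image (fun v => v 0) hne
  obtain ⟨c, hc, hcmax⟩ := V.exists_max_image (fun v => v 0) hne
  have hsub : V ⊆ {a, c} := by
    intro b hb
    by_contra hbn
    simp only [Finset.mem_insert, Finset.mem_singleton, not_or] at hbn
    have h1 : toR a ∈ hull (V.erase b) := QH2_mem_hull (Finset.mem_erase.2 ⟨Ne.symm hbn.1, ha⟩)
    have h2 : toR c ∈ hull (V.erase b) := QH2_mem_hull (Finset.mem_erase.2 ⟨Ne.symm hbn.2, hc⟩)
    have h3 : (a 0 : ℝ) ≤ b 0 := by exact_mod_cast hamin b hb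
    have h4 : (b 0 : ℝ) ≤ c 0 := by exact_mod_cast hcmax b hb
    have h5 : (a 0 : ℝ) < c 0 := by
      rcases (h3.trans h4).lt_or_eq with h | h
      · exact h
      · exfalso
        apply hbn.1
        funext i
        have : i = 0 := Subsingleton.elim _ _
        subst this
        have h6 : (b 0 : ℝ) = a 0 := by linarith
        exact_mod_cast h6
    apply hV b hb
    have h6 : toR b = ((c 0 - b 0 : ℝ) / (c 0 - a 0)) • toR a
        + ((b 0 - a 0 : ℝ) / (c 0 - a 0)) • toR c := by
      funext i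
      have : i = 0 := Subsingleton.elim _ _
      subst this
      simp only [toR, Pi.add_apply, Pi.smul_apply, smul_eq_mul]
      have h7 : (c 0 : ℝ) - a 0 ≠ 0 := by linarith
      field_simp
      ring
    rw [h6]
    refine (convex_convexHull ℝ _) h1 h2 ?_ ?_ ?_
    · exact div_nonneg (by linarith) (by linarith)
    · exact div_nonneg (by linarith) (by linarith)
    · have h7 : (c 0 : ℝ) - a 0 ≠ 0 := by linarith
      field_simp
      ring
  calc V.card ≤ ({a, c} : Finset (Fin 1 → ℤ)).card := Finset.card_le_card hsub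
    _ ≤ 2 := Finset.card_le_two

end Pool.Agent.Helper34.QH
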