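import Pool.Agent.Helper34.QH.CountAvg
import Pool.Agent.Helper34.QH.Parity
import Pool.Agent.Helper34.QH.Flat

/-! QH-5b: counting lattice points of wide convex bodies (MP_735047_co) -/

set_option autoImplicit false

namespace Pool.Agent.Helper34.QH

open MeasureTheory
open scoped Pointwise

theorem F_pos (n : ℕ) : 0 < F n := by
  unfold F
  positivity

theorem lin_sub' {n : ℕ} (u : Fin n → ℤ) (x y t : Fin n → ℝ) (c : ℝ) :
    lin u (c • x + t) - lin u (c • y + t) = c * (lin u x - lin u y) := by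
  unfold lin
  rw [← Finset.sum_sub_distrib, ← Finset.sum_sub_distrib, Finset.mul_sum]
  apply Finset.sum_congr rfl
  intro i _
  simp only [Pi.add_apply, Pi.smul_apply, smul_eq_mul]
  ring

theorem Wide.mono {n : ℕ} {K : Set (Fin n → ℝ)} {w w' : ℝ} (h : Wide K w) (hw : w' ≤ w) :
    Wide K w' := by
  intro u hu
  obtain ⟨x, hx, y, hy, h1⟩ := h u hu
  exact ⟨x, hx, y, hy, hw.trans h1⟩

theorem Wide.affine {n : ℕ} {K : Set (Fin n → ℝ)} {w : ℝ} (h : Wide K w) {c : ℝ} (hc : 0 ≤ c)
    (t : Fin n → ℝ) : Wide ((fun x => c • x + t) '' K) (c * w) := by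
  intro u hu
  obtain ⟨x, hx, y, hy, h1⟩ := h u hu
  refine ⟨_, Set.mem_image_of_mem _ hx, _, Set.mem_image_of_mem _ hy, ?_⟩
  rw [lin_sub']
  exact mul_le_mul_of_nonneg_left h1 hc

theorem affine_compact {n : ℕ} {K : Set (Fin n → ℝ)} (hk : IsCompact K) (c : ℝ)
    (t : Fin n → ℝ) : IsCompact ((fun x => c • x + t) '' K) :=
  hk.image (by fun_prop)

theorem affine_convex {n : ℕ} {K : Set (Fin n → ℝ)} (hk : Convex ℝ K) (c : ℝ)
    (t : Fin n → ℝ) : Convex ℝ ((fun x => c • x + t) '' K) := by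
  have h := hk.affinity t c
  simpa only [add_comm t] using h

/-- a lattice point in `(1/m) K + t` -/
theorem exists_latt {n : ℕ} (hn : 1 ≤ n) {m : ℝ} (hm : 0 < m) {K : Set (Fin n → ℝ)}
    (hc : Convex ℝ K) (hk : IsCompact K) (hW : Wide K (m * F n)) (t : Fin n → ℝ) :
    ∃ z : Fin n → ℤ, ∃ x ∈ K, toR z = (1 / m) • x + t := by
  have h1 := hW.affine (c := 1 / m) (by positivity) t
  have h2 : (1 / m) * (m * F n) = F n := by field_simp
  rw [h2] at h1
  obtain ⟨z, hz⟩ := flat hn _ (affine_convex hc (1 / m) t) (affine_compact hk (1 / m) t) h1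
  obtain ⟨x, hx, hxe⟩ := hz
  exact ⟨z, x, hx, hxe.symm⟩

theorem vol_smul {n : ℕ} {c : ℝ} (hc : 0 ≤ c) (K : Set (Fin n → ℝ)) :
    volume.real ((fun x => c • x) '' K) = c ^ n * volume.real K := by
  have h1 : (fun x : Fin n → ℝ => c • x) '' K = c • K := Set.image_smul
  rw [h1, measureReal_def, Measure.addHaar_smul, ENNReal.toReal_mul, ENNReal.toReal_ofReal
    (abs_nonneg _), Module.finrank_fin_fun, abs_of_nonneg (by positivity)]
  rfl

theorem toR_add {n : ℕ} (x y : Fin n → ℤ) : toR (x + y) = toR x + toR y := by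
  funext i
  simp [toR]

theorem toR_inj {n : ℕ} {x y : Fin n → ℤ} (h : toR x = toR y) : x = y := by
  funext i
  have := congrFun h i
  simpa [toR] using this

/-- translation by a lattice point is injective on lattice points -/
theorem ncard_le_of_add {n : ℕ} {K K' : Set (Fin n → ℝ)} (hb : Bornology.IsBounded K')
    (z : Fin n → ℤ) (h : ∀ p : Fin n → ℤ, toR p ∈ K → toR (p + z) ∈ K') :
    (pts K).ncard ≤ (pts K').ncard := by
  refine Set.ncard_le_ncard_of_injOn (fun p => p + z) ?_ ?_ (pts_finite hb)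
  · intro p hp
    exact h p hp
  · intro p _ q _ hpq
    exact add_right_cancel hpq

theorem count_le {n : ℕ} (hn : 1 ≤ n) (K : Set (Fin n → ℝ)) (hc : Convex ℝ K)
    (hk : IsCompact K) (hW : Wide K (n * F n)) :
    ((pts K).ncard : ℝ) ≤ (1 + 1 / (n : ℝ)) ^ n * volume.real K := by
  have hn' : (0 : ℝ) < n := by exact_mod_cast hn
  rw [← vol_smul (by positivity) K]
  apply le_vol_of_translates _ (hk.image (by fun_prop))
  intro t
  obtain ⟨z, x, hx, hz⟩ := exists_latt hn hn' hc hk hW t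
  have hb : Bornology.IsBounded ((fun x => x + t) '' ((fun x => (1 + 1 / (n : ℝ)) • x) '' K)) :=
    ((hk.image (by fun_prop)).image (by fun_prop)).isBounded
  have := ncard_le_of_add (K := K) hb z (by
    intro p hp
    refine ⟨(1 + 1 / (n : ℝ)) • ((1 + 1 / (n : ℝ))⁻¹ • (toR p + (1 / (n : ℝ)) • x)),
      ⟨_, ?_, rfl⟩, ?_⟩
    · have hpos : (0 : ℝ) < 1 + 1 / n := by positivity
      have := hc hp hx (a := (1 + 1 / (n : ℝ))⁻¹) (b := (1 + 1 / (n : ℝ))⁻¹ * (1 / n))
        (by positivity) (by positivity) (by field_simp)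
      rwa [mul_smul, ← smul_add] at this
    · have hpos : (1 : ℝ) + 1 / n ≠ 0 := by positivity
      beta_reduce
      rw [smul_inv_smul₀ hpos, toR_add, hz]
      abel)
  exact_mod_cast this

theorem count_ge {n : ℕ} (hn : 1 ≤ n) (K : Set (Fin n → ℝ)) (hc : Convex ℝ K)
    (hk : IsCompact K) (hW : Wide K (n * F n)) :
    (1 - 1 / (n : ℝ)) ^ n * volume.real K ≤ ((pts K).ncard : ℝ) := by
  have hn' : (1 : ℝ) ≤ n := by exact_mod_cast hn
  have h1n : 1 / (n : ℝ) ≤ 1 := by
    rw [div_le_one (by linarith)]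
    exact hn'
  rw [← vol_smul (by linarith) K]
  apply vol_le_of_translates _ (hk.image (by fun_prop))
  intro t
  obtain ⟨z, x, hx, hz⟩ := exists_latt hn (by linarith : (0 : ℝ) < n) hc hk hW (-t)
  have := ncard_le_of_add (K := (fun x => x + t) '' ((fun x => (1 - 1 / (n : ℝ)) • x) '' K))
    hk.isBounded z (by
    rintro p ⟨y', ⟨y, hy, rfl⟩, hp⟩
    beta_reduce at hp
    rw [toR_add, ← hp, hz]
    have h2 := hc hy hx (a := 1 - 1 / (n : ℝ)) (b := 1 / n) (by linarith) (by positivity)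
      (by ring)
    convert h2 using 1
    abel)
  exact_mod_cast this

theorem count_many {n m : ℕ} (hn : 1 ≤ n) (hm : 1 ≤ m) (K : Set (Fin n → ℝ))
    (hc : Convex ℝ K) (hk : IsCompact K) (hW : Wide K (m * F n)) :
    m ^ n ≤ (pts K).ncard := by
  have hm' : (0 : ℝ) < m := by exact_mod_cast hm
  -- for every residue class
  have h1 : ∀ r : Fin n → Fin m, ∃ z : Fin n → ℤ, toR (fun i => (m : ℤ) * z i + (r i : ℕ)) ∈ K := by
    intro r
    obtain ⟨z, x, hx, hz⟩ := exists_latt hn hm' hc hk hW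
      (fun i => -(((r i : ℕ) : ℝ) / m))
    refine ⟨z, ?_⟩
    have : toR (fun i => (m : ℤ) * z i + (r i : ℕ)) = x := by
      funext i
      have h2 := congrFun hz i
      simp only [toR, Pi.add_apply, Pi.smul_apply, smul_eq_mul] at h2 ⊢
      push_cast
      rw [h2]
      field_simp
      ring
    rw [this]
    exact hx
  choose z hz using h1
  have h2 : (Set.univ : Set (Fin n → Fin m)).ncard ≤ (pts K).ncard := by
    refine Set.ncard_le_ncard_of_injOn (fun r i => (m : ℤ) * z r i + ((r i : ℕ) : ℤ)) ?_ ?_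
      (pts_finite hk.isBounded)
    · intro r _
      exact hz r
    · intro r _ s _ h
      funext i
      have h3 := congrFun h i
      beta_reduce at h3
      have h4 : ((r i : ℕ) : ℤ) % m = ((s i : ℕ) : ℤ) % m := by
        have h5 : (((m : ℤ) * z r i + ((r i : ℕ) : ℤ)) % m) =
            (((m : ℤ) * z s i + ((s i : ℕ) : ℤ)) % m) := by rw [h3]
        rwa [Int.mul_add_emod_self_left, Int.mul_add_emod_self_left] at h5
      rw [Int.emod_eq_of_lt (by positivity) (by exact_mod_cast (r i).2),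
        Int.emod_eq_of_lt (by positivity) (by exact_mod_cast (s i).2)] at h4
      apply Fin.ext
      exact_mod_cast h4
  rw [Set.ncard_univ, Nat.card_eq_fintype_card, Fintype.card_fun, Fintype.card_fin,
    Fintype.card_fin] at h2
  exact h2

theorem vol_ge {n m : ℕ} (hn : 1 ≤ n) (hm : n ≤ m) (K : Set (Fin n → ℝ))
    (hc : Convex ℝ K) (hk : IsCompact K) (hW : Wide K (m * F n)) :
    (m : ℝ) ^ n ≤ 3 * volume.real K := by
  have hn' : (1 : ℝ) ≤ n := by exact_mod_cast hn
  have h1 : ((m ^ n : ℕ) : ℝ) ≤ ((pts K).ncard : ℝ) := by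
    exact_mod_cast count_many hn (hn.trans hm) K hc hk hW
  have hF := F_pos n
  have h2 := count_le hn K hc hk (hW.mono (by
    have : (n : ℝ) ≤ m := by exact_mod_cast hm
    exact mul_le_mul_of_nonneg_right this hF.le))
  have h3 : (1 + 1 / (n : ℝ)) ^ n ≤ 3 := by
    have h4 : 1 + 1 / (n : ℝ) ≤ Real.exp (1 / n) := by
      have := Real.add_one_le_exp (1 / (n : ℝ))
      linarith
    calc (1 + 1 / (n : ℝ)) ^ n ≤ (Real.exp (1 / n)) ^ n := by gcongr
      _ = Real.exp 1 := by
          rw [← Real.exp_nat_mul]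
          congr 1
          field_simp
      _ ≤ 3 := by linarith [Real.exp_one_lt_d9]
  have hv : 0 ≤ volume.real K := measureReal_nonneg
  push_cast at h1
  calc (m : ℝ) ^ n ≤ (1 + 1 / (n : ℝ)) ^ n * volume.real K := h1.trans h2
    _ ≤ 3 * volume.real K := by gcongr

/-- a vertex is an extreme point -/
theorem vertex_ext {n : ℕ} {V : Finset (Fin n → ℤ)} (hV : CI V) {v : Fin n → ℤ} (hv : v ∈ V)
    {x y : Fin n → ℝ} (hx : x ∈ hull V) (hy : y ∈ hull V) {a b : ℝ} (ha : 0 < a) (hb : 0 < b)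
    (hab : a + b = 1) (h : toR v = a • x + b • y) : x = toR v := by
  classical
  have h1 : toR '' (V : Set (Fin n → ℤ)) = insert (toR v) (toR '' ((V.erase v : Finset _) : Set _)) := by
    rw [← Set.image_insert_eq]
    congr 1
    rw [← Finset.coe_insert, Finset.insert_erase hv]
  have h2 : toR v ∉ convexHull ℝ (toR '' ((V.erase v : Finset _) : Set (Fin n → ℤ))) := hV v hv
  -- write `x` and `y` as combinations of `v` and a point of the other hull
  rcases (V.erase v).eq_empty_or_nonempty with he | hne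
  · have h3 : hull V = {toR v} := by
      unfold hull
      rw [h1, he]
      simp
    rw [h3] at hx
    exact hx
  have hne' : (toR '' ((V.erase v : Finset _) : Set (Fin n → ℤ))).Nonempty :=
    (Finset.coe_nonempty.2 hne).image _
  have h4 : ∀ p ∈ hull V, ∃ q ∈ convexHull ℝ (toR '' ((V.erase v : Finset _) : Set (Fin n → ℤ))),
      ∃ c : ℝ, 0 ≤ c ∧ c ≤ 1 ∧ p = (1 - c) • toR v + c • q := by
    intro p hp
    unfold hull at hp
    rw [h1, convexHull_insert hne', mem_convexJoin] at hp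
    obtain ⟨p1, hp1, q, hq, hs⟩ := hp
    rw [Set.mem_singleton_iff.1 hp1] at hs
    obtain ⟨s, c, hs0, hc0, hsc, rfl⟩ := hs
    exact ⟨q, hq, c, hc0, by linarith, by rw [← hsc]; simp⟩
  obtain ⟨q1, hq1, c1, hc1, hc1', hxe⟩ := h4 x hx
  obtain ⟨q2, hq2, c2, hc2, hc2', hye⟩ := h4 y hy
  by_contra hne2
  have hc1pos : 0 < c1 := by
    rcases hc1.eq_or_lt with h0 | h0
    · exfalso
      apply hne2
      rw [hxe, ← h0]
      simp
    · exact h0
  -- then `v` is a combination of `q1` and `q2`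
  apply h2
  have hsum : 0 < a * c1 + b * c2 := by positivity
  have h5 : (a * c1 + b * c2) • toR v = (a * c1) • q1 + (b * c2) • q2 := by
    rw [hxe, hye] at h
    have h6 : toR v = (1 - (a * c1 + b * c2)) • toR v + ((a * c1) • q1 + (b * c2) • q2) := by
      conv_lhs => rw [h]
      have : b = 1 - a := by linarith
      subst this
      module
    have h7 : toR v - (1 - (a * c1 + b * c2)) • toR v = (a * c1) • q1 + (b * c2) • q2 := by
      conv_lhs => rw [h6]
      have h8 : (1 - (a * c1 + b * c2)) • toR v + ((a * c1) • q1 + (b * c2) • q2) -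
          (1 - (a * c1 + b * c2)) • ((1 - (a * c1 + b * c2)) • toR v +
            ((a * c1) • q1 + (b * c2) • q2)) = (1 - (a * c1 + b * c2)) • toR v +
              ((a * c1) • q1 + (b * c2) • q2) - (1 - (a * c1 + b * c2)) • toR v := by
        rw [← h6]
      rw [h8]
      abel
    rw [← h7]
    module
  have h6 : toR v = (a * c1 / (a * c1 + b * c2)) • q1 + (b * c2 / (a * c1 + b * c2)) • q2 := by
    have h7 : toR v = (a * c1 + b * c2)⁻¹ • ((a * c1 + b * c2) • toR v) := by
      rw [smul_smul, inv_mul_cancel₀ hsum.ne', one_smul]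
    rw [h7, h5, smul_add, smul_smul, smul_smul]
    congr 2 <;> ring
  rw [h6]
  exact (convex_convexHull ℝ _) hq1 hq2 (by positivity) (by positivity) (by
    rw [← add_div, div_self hsum.ne'])

theorem quarter_le {n : ℕ} (hn : 2 ≤ n) : 1 / 4 ≤ (1 - 1 / (n : ℝ)) ^ n := by
  have hn' : (2 : ℝ) ≤ n := by exact_mod_cast hn
  have h1 : 1 / (n : ℝ) ≤ 1 / 2 := by
    apply div_le_div_of_nonneg_left (by norm_num) (by norm_num) hn'
  have h2 := one_add_mul_self_le_rpow_one_add (s := -(1 / (n : ℝ))) (by linarith)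
    (p := (n : ℝ) / 2) (by linarith)
  have h3 : 1 + (n : ℝ) / 2 * -(1 / (n : ℝ)) = 1 / 2 := by
    field_simp
    norm_num
  rw [h3] at h2
  have h0 : (0 : ℝ) ≤ 1 + -(1 / (n : ℝ)) := by linarith
  have h4 : (1 - 1 / (n : ℝ)) ^ n = ((1 + -(1 / (n : ℝ))) ^ ((n : ℝ) / 2)) ^ 2 := by
    rw [← Real.rpow_natCast (_ ^ _) 2, ← Real.rpow_mul h0, ← Real.rpow_natCast _ n]
    congr 1
    push_cast
    ring
  rw [h4]
  nlinarith

theorem vol_le_oth {n : ℕ} (hn : 2 ≤ n) (V : Finset (Fin n → ℤ)) (hV : CI V)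
    (hW : Wide (hull V) (2 * n * F n)) :
    volume.real (hull V) ≤ 16 * ((oth V).ncard : ℝ) := by
  classical
  have hn' : (2 : ℝ) ≤ n := by exact_mod_cast hn
  have hF := F_pos n
  have hcv : Convex ℝ (hull V) := convex_convexHull ℝ _
  have hck := hull_compact V
  -- two points
  obtain ⟨a, ha, b, hb, hab⟩ : ∃ a ∈ V, ∃ b ∈ V, a ≠ b := by
    by_contra hc
    push Not at hc
    obtain ⟨x, hx, y, hy, h⟩ := hW (fun _ => 1) (by
      intro h
      have := congrFun h ⟨0, by omega⟩
      simp at this)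
    have h1 : ∀ p ∈ hull V, ∀ q ∈ hull V, p = q := by
      rcases V.eq_empty_or_nonempty with he | ⟨v, hv⟩
      · intro p hp
        unfold hull at hp
        rw [he] at hp
        simp at hp
      · have h2 : V = {v} := by
          ext w
          rw [Finset.mem_singleton]
          constructor
          · intro hw; exact hc w hw v hv
          · rintro rfl; exact hv
        have h3 : hull V = {toR v} := by
          unfold hull
          rw [h2]
          simp
        rw [h3]
        intro p hp q hq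
        rw [Set.mem_singleton_iff.1 hp, Set.mem_singleton_iff.1 hq]
    rw [h1 x hx y hy, sub_self] at h
    have : 0 < 2 * (n : ℝ) * F n := by positivity
    linarith
  have haH : toR a ∈ hull V := subset_convexHull ℝ _ (Set.mem_image_of_mem _ ha)
  have hbH : toR b ∈ hull V := subset_convexHull ℝ _ (Set.mem_image_of_mem _ hb)
  set o : Fin n → ℝ := (1 / 2 : ℝ) • toR a + (1 / 2 : ℝ) • toR b with ho
  have hoH : o ∈ hull V := hcv haH hbH (by norm_num) (by norm_num) (by norm_num)
  have hov : ∀ v ∈ V, o ≠ toR v := by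
    intro v hv h
    have h1 := vertex_ext hV hv haH hbH (a := 1/2) (b := 1/2) (by norm_num) (by norm_num)
      (by norm_num) (by rw [← h])
    have h2 := vertex_ext hV hv hbH haH (a := 1/2) (b := 1/2) (by norm_num) (by norm_num)
      (by norm_num) (by rw [← h, ho]; abel)
    exact hab (toR_inj (h1.trans h2.symm))
  have h1n : 1 / (n : ℝ) ≤ 1 / 2 := by
    apply div_le_div_of_nonneg_left (by norm_num) (by norm_num) hn'
  have h1n0 : 0 < 1 / (n : ℝ) := by positivity
  set c : ℝ := 1 - 1 / (n : ℝ) with hc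
  have hc0 : 1 / 2 ≤ c := by rw [hc]; linarith
  set K1 : Set (Fin n → ℝ) := (fun x => c • x + (1 / (n : ℝ)) • o) '' hull V with hK1
  have hWK : Wide K1 (n * F n) := by
    refine (hW.affine (c := c) (by linarith) ((1 / (n : ℝ)) • o)).mono ?_
    have : (n : ℝ) * F n = 1 / 2 * (2 * n * F n) := by ring
    rw [this]
    gcongr
  have h2 := count_ge (by omega) K1 (affine_convex hcv c _) (affine_compact hck c _) hWK
  have h3 : volume.real K1 = c ^ n * volume.real (hull V) := by
    rw [← vol_smul (by linarith) (hull V)]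
    have : K1 = (fun x => x + (1 / (n : ℝ)) • o) '' ((fun x => c • x) '' hull V) := by
      rw [hK1, Set.image_image]
    rw [this]
    have h4 : (fun x : Fin n → ℝ => x + (1 / (n : ℝ)) • o) '' ((fun x => c • x) '' hull V) =
        (fun x => x + -((1 / (n : ℝ)) • o)) ⁻¹' ((fun x => c • x) '' hull V) := by
      ext x
      simp only [Set.mem_image, Set.mem_preimage]
      constructor
      · rintro ⟨y, ⟨z, hz, rfl⟩, rfl⟩
        exact ⟨z, hz, by simp⟩
      · rintro ⟨z, hz, hze⟩
        exact ⟨_, ⟨z, hz, rfl⟩, by rw [hze]; simp⟩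
    rw [h4, measureReal_def, measure_preimage_add_right]
    rfl
  have h4 : ((pts K1).ncard : ℝ) ≤ ((oth V).ncard : ℝ) := by
    have : pts K1 ⊆ oth V := by
      rintro z ⟨x, hx, hz⟩
      beta_reduce at hz
      constructor
      · rw [← hz]
        exact hcv hx hoH (by linarith) h1n0.le (by rw [hc]; ring)
      · intro hzV
        have h5 := vertex_ext hV hzV hoH hx (a := 1 / (n : ℝ)) (b := c) h1n0 (by linarith)
          (by rw [hc]; ring) (by rw [← hz]; abel)
        exact hov z hzV h5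
    exact_mod_cast Set.ncard_le_ncard this (oth_finite V)
  have h5 := quarter_le hn
  rw [← hc] at h5
  have hv : 0 ≤ volume.real (hull V) := measureReal_nonneg
  rw [h3] at h2
  have h6 : 1 / 4 * (1 / 4 * volume.real (hull V)) ≤ c ^ n * (c ^ n * volume.real (hull V)) := by
    gcongr
  linarith

theorem exists_thin {n : ℕ} (hn : 2 ≤ n) (V : Finset (Fin n → ℤ)) (hV : CI V) (K : ℝ)
    (hK : 1 ≤ K) (hk : ((oth V).ncard : ℝ) ≤ K) :
    ∃ u : Fin n → ℤ, u ≠ 0 ∧
      ∀ x ∈ V, ∀ y ∈ V, lin u (toR x) - lin u (toR y) ≤ 5 * F n * K ^ (1 / (n : ℝ)) := by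
  classical
  by_contra hcon
  push Not at hcon
  have hn' : (2 : ℝ) ≤ n := by exact_mod_cast hn
  have hF := F_pos n
  set R : ℝ := K ^ (1 / (n : ℝ)) with hR
  have hR1 : 1 ≤ R := Real.one_le_rpow hK (by positivity)
  set m : ℕ := ⌊5 * R⌋₊ with hm
  have hm1 : (m : ℝ) ≤ 5 * R := Nat.floor_le (by positivity)
  have hm2 : 4 * R ≤ m := by
    have := Nat.sub_one_lt_floor (5 * R)
    linarith
  have hm3 : 1 ≤ m := by
    have : (1 : ℝ) ≤ m := by linarith
    exact_mod_cast this
  have hW : Wide (hull V) (m * F n) := by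
    intro u hu
    obtain ⟨x, hx, y, hy, h⟩ := hcon u hu
    refine ⟨toR x, subset_convexHull ℝ _ (Set.mem_image_of_mem _ hx), toR y,
      subset_convexHull ℝ _ (Set.mem_image_of_mem _ hy), ?_⟩
    refine le_trans ?_ h.le
    nlinarith
  have h1 := count_many (by omega) hm3 (hull V) (convex_convexHull ℝ _) (hull_compact V) hW
  have h2 : (pts (hull V)).ncard ≤ V.card + (oth V).ncard := by
    have h3 : pts (hull V) ⊆ (V : Set (Fin n → ℤ)) ∪ oth V := by
      intro z hz
      by_cases h : z ∈ V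
      · exact Or.inl h
      · exact Or.inr ⟨hz, h⟩
    refine (Set.ncard_le_ncard h3 (V.finite_toSet.union (oth_finite V))).trans ?_
    refine (Set.ncard_union_le _ _).trans ?_
    rw [Set.ncard_coe_finset]
  have h3 := parity V hV
  have h4 : ((m ^ n : ℕ) : ℝ) ≤ 2 ^ n * (K + 1) + K := by
    have h5 : ((m ^ n : ℕ) : ℝ) ≤ (V.card : ℝ) + ((oth V).ncard : ℝ) := by
      exact_mod_cast h1.trans h2
    have h6 : (V.card : ℝ) ≤ 2 ^ n * (((oth V).ncard : ℝ) + 1) := by exact_mod_cast h3
    have h7 : (2 : ℝ) ^ n * (((oth V).ncard : ℝ) + 1) ≤ 2 ^ n * (K + 1) := by gcongr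
    linarith
  have h5 : (4 : ℝ) ^ n * K ≤ ((m ^ n : ℕ) : ℝ) := by
    push_cast
    have h6 : K = R ^ n := by
      rw [hR, ← Real.rpow_natCast, ← Real.rpow_mul (by linarith), one_div,
        inv_mul_cancel₀ (by positivity), Real.rpow_one]
    calc (4 : ℝ) ^ n * K = (4 * R) ^ n := by rw [mul_pow, ← h6]
      _ ≤ (m : ℝ) ^ n := by gcongr
  have h6 : (4 : ℝ) ^ n = 2 ^ n * 2 ^ n := by rw [← mul_pow]; norm_num
  have h7 : (4 : ℝ) ≤ 2 ^ n := by
    calc (4 : ℝ) = 2 ^ 2 := by norm_num
      _ ≤ 2 ^ n := pow_le_pow_right₀ (by norm_num) hn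
  rw [h6] at h5
  have h8 : (2 : ℝ) ^ n * 2 ^ n * K ≤ 2 ^ n * (K + 1) + K := h5.trans h4
  have h9 : (4 : ℝ) * 2 ^ n * K ≤ 2 ^ n * 2 ^ n * K := by gcongr
  nlinarith

/-- For a point set: if `hull V` is not `w`-wide there is a thin direction. -/
theorem thin_of_not_wide {n : ℕ} (V : Finset (Fin n → ℤ)) (w : ℝ) (h : ¬ Wide (hull V) w) :
    ∃ u : Fin n → ℤ, u ≠ 0 ∧
      ∀ x ∈ V, ∀ y ∈ V, lin u (toR x) - lin u (toR y) ≤ w := by
  unfold Wide at h
  push Not at h
  obtain ⟨u, hu, h1⟩ := h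
  refine ⟨u, hu, fun x hx y hy => ?_⟩
  exact (h1 (toR x) (subset_convexHull ℝ _ (Set.mem_image_of_mem _ hx)) (toR y)
    (subset_convexHull ℝ _ (Set.mem_image_of_mem _ hy))).le

end Pool.Agent.Helper34.QH
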