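import Pool.Agent.Helper34.QH.Position

/-! Project QH (helper34), MP_735047_co, module QH-6a: the dual part of the core estimate. -/

namespace Pool.Agent.Helper34.QH

open MeasureTheory

/-- The dual box of an index. -/
def dbox {n : ℕ} (φ0 : (Fin n → ℝ) →ₗ[ℝ] ℝ) (h0 : ℝ) (e : Fin n → Fin n → ℝ) :
    Set (Fin n → ℝ) :=
  {ψ | ∀ i, |(∑ j, ψ j * e i j) - φ0 (e i) / 2| < h0 / (2 * n)}

/-- The linear form with coefficient vector `ψ`. -/
noncomputable def dlf {n : ℕ} (ψ : Fin n → ℝ) : (Fin n → ℝ) →ₗ[ℝ] ℝ :=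
  ∑ j, ψ j • LinearMap.proj j

theorem dlf_apply {n : ℕ} (ψ x : Fin n → ℝ) : dlf ψ x = ∑ j, ψ j * x j := by
  simp [dlf]

theorem dl_volume_preimage {n : ℕ} (e : Fin n → Fin n → ℝ) (he : (Matrix.of e).det ≠ 0)
    (B : Set (Fin n → ℝ)) :
    volume.real {ψ : Fin n → ℝ | (fun i => ∑ j, ψ j * e i j) ∈ B} =
      |(Matrix.of e).det|⁻¹ * volume.real B := by
  have h1 : {ψ : Fin n → ℝ | (fun i => ∑ j, ψ j * e i j) ∈ B} =
      (Matrix.toLin' (Matrix.of e)) ⁻¹' B := by
    ext ψ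
    simp only [Set.mem_ofPred_eq, Set.mem_preimage, Matrix.toLin'_apply]
    have : (fun i => ∑ j, ψ j * e i j) = (Matrix.of e).mulVec ψ := by
      ext i
      simp [Matrix.mulVec, dotProduct, mul_comm]
    rw [this]
  have hdet : LinearMap.det (Matrix.toLin' (Matrix.of e)) ≠ 0 := by
    rwa [LinearMap.det_toLin']
  rw [h1, Measure.real, Measure.addHaar_preimage_linearMap _ hdet, ENNReal.toReal_mul,
    LinearMap.det_toLin', ENNReal.toReal_ofReal (abs_nonneg _), abs_inv]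
  rfl

theorem volume_dbox {n : ℕ} (φ0 : (Fin n → ℝ) →ₗ[ℝ] ℝ) (h0 : ℝ) (hh : 0 < h0) (hn : 1 ≤ n)
    (e : Fin n → Fin n → ℝ) (he : (Matrix.of e).det ≠ 0) :
    volume.real (dbox φ0 h0 e) = |(Matrix.of e).det|⁻¹ * (h0 / n) ^ n := by
  have hn' : (0 : ℝ) < n := by exact_mod_cast hn
  have hr : 0 < h0 / (2 * n) := by positivity
  have h1 : dbox φ0 h0 e = {ψ : Fin n → ℝ | (fun i => ∑ j, ψ j * e i j) ∈
      Metric.ball (fun i => φ0 (e i) / 2) (h0 / (2 * n))} := by
    ext ψ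
    simp only [dbox, Set.mem_ofPred_eq, Metric.mem_ball]
    rw [dist_pi_lt_iff hr]
    simp [Real.dist_eq]
  rw [h1, dl_volume_preimage e he, Measure.real, Real.volume_pi_ball _ hr,
    ENNReal.toReal_ofReal (by positivity), Fintype.card_fin]
  congr 2
  field_simp

theorem measurableSet_dbox {n : ℕ} (φ0 : (Fin n → ℝ) →ₗ[ℝ] ℝ) (h0 : ℝ)
    (e : Fin n → Fin n → ℝ) : MeasurableSet (dbox φ0 h0 e) := by
  have : IsOpen (dbox φ0 h0 e) := by
    simp only [dbox, Set.ofPred_forall]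
    refine isOpen_iInter_of_finite fun i => ?_
    exact isOpen_lt (by fun_prop) continuous_const
  exact this.measurableSet

/-- A family of sets of multiplicity at most `d` inside `W`. -/
theorem dl_sum_measureReal_le {α ι : Type*} [MeasurableSpace α] (μ : Measure α) (S : Finset ι)
    (U : ι → Set α) (W : Set α) (hU : ∀ i ∈ S, MeasurableSet (U i)) (hW : MeasurableSet W)
    (hWf : μ W ≠ ⊤) (hsub : ∀ i ∈ S, U i ⊆ W) (d : ℝ)
    (hd : ∀ x ∈ W, ∀ T ⊆ S, (∀ i ∈ T, x ∈ U i) → (T.card : ℝ) ≤ d) :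
    ∑ i ∈ S, μ.real (U i) ≤ d * μ.real W := by
  classical
  have hfin : ∀ i ∈ S, μ (U i) ≠ ⊤ := fun i hi =>
    ((measure_mono (hsub i hi)).trans_lt hWf.lt_top).ne
  have hint : ∀ i ∈ S, Integrable ((U i).indicator (fun _ => (1 : ℝ))) μ := fun i hi =>
    (integrable_indicator_iff (hU i hi)).mpr (integrableOn_const (hfin i hi))
  calc ∑ i ∈ S, μ.real (U i) = ∑ i ∈ S, ∫ x, (U i).indicator (fun _ => (1 : ℝ)) x ∂μ := by
        refine Finset.sum_congr rfl fun i hi => ?_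
        rw [integral_indicator_const _ (hU i hi), smul_eq_mul, mul_one]
    _ = ∫ x, ∑ i ∈ S, (U i).indicator (fun _ => (1 : ℝ)) x ∂μ := by
        rw [integral_finsetSum S hint]
    _ ≤ ∫ x, W.indicator (fun _ => d) x ∂μ := by
        refine integral_mono (integrable_finsetSum S hint)
          ((integrable_indicator_iff hW).mpr (integrableOn_const hWf)) fun x => ?_
        simp only
        by_cases hx : x ∈ W
        · rw [Set.indicator_of_mem hx]
          have h1 : ∑ i ∈ S, (U i).indicator (fun _ => (1 : ℝ)) x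
              = ((S.filter fun i => x ∈ U i).card : ℝ) := by
            rw [Finset.card_filter, Nat.cast_sum]
            refine Finset.sum_congr rfl fun i _ => ?_
            by_cases hi : x ∈ U i
            · rw [Set.indicator_of_mem hi, if_pos hi]; simp
            · rw [Set.indicator_of_notMem hi, if_neg hi]; simp
          rw [h1]
          exact hd x hx _ (Finset.filter_subset _ _) fun i hi => (Finset.mem_filter.mp hi).2
        · rw [Set.indicator_of_notMem hx]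
          refine le_of_eq (Finset.sum_eq_zero fun i hi => ?_)
          exact Set.indicator_of_notMem (fun h => hx (hsub i hi h)) _
    _ = d * μ.real W := by
        rw [integral_indicator_const _ hW, smul_eq_mul, mul_comm]

/-- The container of all dual boxes. -/
def dcon {n : ℕ} (w : Fin n → Fin n → ℝ) : Set (Fin n → ℝ) :=
  {ψ | ∀ i, -(2 * (n : ℝ)) < ∑ j, ψ j * w i j ∧ ∑ j, ψ j * w i j < 2}

theorem volume_dcon {n : ℕ} (w : Fin n → Fin n → ℝ) (hw : (Matrix.of w).det ≠ 0) :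
    volume.real (dcon w) = |(Matrix.of w).det|⁻¹ * (2 * n + 2) ^ n := by
  have h1 : dcon w = {ψ : Fin n → ℝ | (fun i => ∑ j, ψ j * w i j) ∈
      Set.pi Set.univ (fun _ => Set.Ioo (-(2 * (n : ℝ))) 2)} := by
    ext ψ
    simp [dcon]
  rw [h1, dl_volume_preimage w hw, Measure.real, Real.volume_pi_Ioo, Finset.prod_const,
    ENNReal.toReal_pow, ENNReal.toReal_ofReal (by
      have : (0 : ℝ) ≤ n := Nat.cast_nonneg n
      linarith), Finset.card_univ, Fintype.card_fin]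
  congr 2
  ring

theorem isOpen_dcon {n : ℕ} (w : Fin n → Fin n → ℝ) : IsOpen (dcon w) := by
  simp only [dcon, Set.ofPred_forall]
  refine isOpen_iInter_of_finite fun i => ?_
  have hcont : Continuous fun ψ : Fin n → ℝ => ∑ j, ψ j * w i j := by fun_prop
  exact IsOpen.and (isOpen_lt continuous_const hcont) (isOpen_lt hcont continuous_const)

theorem volume_dcon_ne_top {n : ℕ} (w : Fin n → Fin n → ℝ) (hw : (Matrix.of w).det ≠ 0) :
    volume (dcon w) ≠ ⊤ := by
  have h1 : dcon w = (Matrix.toLin' (Matrix.of w)) ⁻¹'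
      Set.pi Set.univ (fun _ => Set.Ioo (-(2 * (n : ℝ))) 2) := by
    ext ψ
    have : (fun i => ∑ j, ψ j * w i j) = (Matrix.of w).mulVec ψ := by
      ext i
      simp [Matrix.mulVec, dotProduct, mul_comm]
    simp only [Set.mem_preimage, Matrix.toLin'_apply, ← this]
    simp [dcon]
  have hdet : LinearMap.det (Matrix.toLin' (Matrix.of w)) ≠ 0 := by
    rwa [LinearMap.det_toLin']
  rw [h1, Measure.addHaar_preimage_linearMap _ hdet, Real.volume_pi_Ioo]
  exact ENNReal.mul_ne_top ENNReal.ofReal_ne_top (ENNReal.prod_ne_top fun _ _ => ENNReal.ofReal_ne_top)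

section core

variable {n : ℕ} {ι : Type} (P : Set (Fin n → ℝ)) (o : Fin n → ℝ)
  (S : Finset ι) (a : ι → Fin n → ℝ) (φ : ι → ((Fin n → ℝ) →ₗ[ℝ] ℝ)) (h : ι → ℝ)

theorem dl_cap_compact {φ0 : (Fin n → ℝ) →ₗ[ℝ] ℝ} {h0 : ℝ} (hk : IsCompact P) :
    IsCompact (cap P o φ0 h0) := by
  have hc : Continuous φ0 := LinearMap.continuous_of_finiteDimensional φ0
  have : cap P o φ0 h0 = P ∩ {x | 1 - h0 ≤ φ0 (x - o)} := rfl
  rw [this]
  exact hk.inter_right (isClosed_le continuous_const (hc.comp (continuous_id.sub continuous_const)))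

theorem dl_cap_convex {φ0 : (Fin n → ℝ) →ₗ[ℝ] ℝ} {h0 : ℝ} (hc : Convex ℝ P) :
    Convex ℝ (cap P o φ0 h0) := by
  have : cap P o φ0 h0 = P ∩ {x | 1 - h0 ≤ φ0 (x - o)} := rfl
  rw [this]
  refine hc.inter ?_
  intro x hx y hy s t hs ht hst
  simp only [Set.mem_ofPred_eq, map_sub, map_add, map_smul, smul_eq_mul] at hx hy ⊢
  have h1 : φ0 o = s * φ0 o + t * φ0 o := by rw [← add_mul, hst, one_mul]
  have h2 : s * (1 - h0) + t * (1 - h0) = 1 - h0 := by rw [← add_mul, hst, one_mul]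
  have h3 := mul_le_mul_of_nonneg_left hx hs
  have h4 := mul_le_mul_of_nonneg_left hy ht
  have h5 : s * φ0 x + t * φ0 y - φ0 o = s * (φ0 x - φ0 o) + t * (φ0 y - φ0 o) := by
    rw [mul_sub, mul_sub]; linarith
  rw [h5]
  linarith

/-- Existence of the dual box: volume, separation property and container. -/
theorem exists_dbox (hn : 2 ≤ n) (hc : Convex ℝ P) (hk : IsCompact P)
    (w : Fin n → Fin n → ℝ) (hp : Pos P o w) (ho : o ∈ P)
    (a0 : Fin n → ℝ) (ha : a0 ∈ P) (φ0 : (Fin n → ℝ) →ₗ[ℝ] ℝ) (h0 : ℝ)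
    (h1 : φ0 (a0 - o) = 1) (h2 : ∀ x ∈ P, φ0 (x - o) ≤ 1) (hh : 0 < h0) (hh' : h0 ≤ 1 / n)
    (hv : 0 < volume.real (cap P o φ0 h0)) :
    ∃ U : Set (Fin n → ℝ), MeasurableSet U ∧
      h0 ^ n ≤ (n : ℝ) ^ (2 * n) * volume.real (cap P o φ0 h0) * volume.real U ∧
      (∀ ψ ∈ U, ∀ x ∈ P, x ∉ cap P o φ0 h0 → ∑ j, ψ j * x j < ∑ j, ψ j * a0 j) ∧
      (∀ ψ ∈ U, ∀ i, -(2 * (n : ℝ)) < ∑ j, ψ j * w i j ∧ ∑ j, ψ j * w i j < 2) := by
  have hn' : (2 : ℝ) ≤ n := by exact_mod_cast hn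
  have hn0 : (0 : ℝ) < n := by linarith
  have hh1 : h0 ≤ 1 / 2 := hh'.trans (one_div_le_one_div_of_le (by norm_num) hn')
  set D := cap P o φ0 h0 with hD
  have hDk : IsCompact D := dl_cap_compact P o hk
  have hDc : Convex ℝ D := dl_cap_convex P o hc
  have haD : a0 ∈ D := ⟨ha, by rw [h1]; linarith⟩
  obtain ⟨b, hb, hdet, hcr⟩ := exists_max_det D hDk a0 haD hv
  set e : Fin n → Fin n → ℝ := fun i => a0 - b i with he
  have hdetpos : 0 < |(Matrix.of e).det| := abs_pos.mpr hdet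
  -- the inner box
  have hbox : |(Matrix.of e).det| * (1 / n) ^ n ≤ volume.real D := by
    have hv1 := vol_box e a0 (fun _ => -(1 / (n : ℝ))) (fun _ => 0)
      (fun _ => by simp only [Left.neg_nonpos_iff]; positivity)
    have hsub : {x : Fin n → ℝ | ∃ c : Fin n → ℝ, x = a0 + ∑ i, c i • e i ∧
        ∀ i, -(1 / (n : ℝ)) ≤ c i ∧ c i ≤ 0} ⊆ D := by
      rintro x ⟨c, rfl, hc1⟩
      have h3 : a0 + ∑ i, c i • e i = (1 - ∑ i, (-c i)) • a0 + ∑ i, (-c i) • b i := by
        simp only [he, smul_sub, Finset.sum_sub_distrib, ← Finset.sum_smul, neg_smul,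
          Finset.sum_neg_distrib, sub_smul, one_smul]
        abel
      have h4 : ∑ i, (-c i) ≤ 1 := by
        calc ∑ i, (-c i) ≤ ∑ _i : Fin n, (1 / (n : ℝ)) :=
              Finset.sum_le_sum fun i _ => by linarith [(hc1 i).1]
          _ = 1 := by simp [hn0.ne']
      have h5 := hDc.sum_mem (t := (Finset.univ : Finset (Option (Fin n))))
        (w := fun i => i.elim (1 - ∑ i, (-c i)) (fun i => -c i))
        (z := fun i => i.elim a0 b) (by
          rintro (_ | i) _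
          · simp only [Option.elim_none]; linarith
          · simp only [Option.elim_some]; linarith [(hc1 i).2]) (by
          rw [Fintype.sum_option]
          simp only [Option.elim_none, Option.elim_some]; ring) (by
          rintro (_ | i) _
          · exact haD
          · exact hb i)
      rw [Fintype.sum_option] at h5
      simp only [Option.elim_none, Option.elim_some] at h5
      rwa [h3]
    have h6 : volume.real {x : Fin n → ℝ | ∃ c : Fin n → ℝ, x = a0 + ∑ i, c i • e i ∧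
        ∀ i, -(1 / (n : ℝ)) ≤ c i ∧ c i ≤ 0} ≤ volume.real D :=
      measureReal_mono hsub hDk.measure_lt_top.ne
    rw [hv1] at h6
    calc |(Matrix.of e).det| * (1 / n) ^ n
        = (∏ _i : Fin n, (0 - -(1 / (n : ℝ)))) * |(Matrix.of e).det| := by
          rw [Finset.prod_const, Finset.card_univ, Fintype.card_fin]; ring
      _ ≤ _ := h6
  -- the basic estimate on the cap
  have key : ∀ ψ ∈ dbox φ0 h0 e, ∀ y ∈ D,
      |dlf ψ (a0 - y) - φ0 (a0 - y) / 2| < h0 / 2 := by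
    intro ψ hψ y hy
    obtain ⟨c, hc1, hc2⟩ := hcr y hy
    have h3 : dlf ψ (a0 - y) - φ0 (a0 - y) / 2 =
        ∑ i, c i * (dlf ψ (e i) - φ0 (e i) / 2) := by
      rw [hc1, map_sum, map_sum, Finset.sum_div, ← Finset.sum_sub_distrib]
      refine Finset.sum_congr rfl fun i _ => ?_
      rw [map_smul, map_smul, smul_eq_mul, smul_eq_mul]
      ring
    have hne : (Finset.univ : Finset (Fin n)).Nonempty := ⟨⟨0, by omega⟩, Finset.mem_univ _⟩
    calc |dlf ψ (a0 - y) - φ0 (a0 - y) / 2|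
        ≤ ∑ i, |c i * (dlf ψ (e i) - φ0 (e i) / 2)| := by
          rw [h3]; exact Finset.abs_sum_le_sum_abs _ _
      _ < ∑ _i : Fin n, h0 / (2 * n) := by
          refine Finset.sum_lt_sum_of_nonempty hne fun i _ => ?_
          rw [abs_mul]
          have h4 := hψ i
          rw [← dlf_apply] at h4
          calc |c i| * |dlf ψ (e i) - φ0 (e i) / 2|
              ≤ 1 * |dlf ψ (e i) - φ0 (e i) / 2| :=
                mul_le_mul_of_nonneg_right (hc2 i) (abs_nonneg _)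
            _ < h0 / (2 * n) := by rw [one_mul]; exact h4
      _ = h0 / 2 := by
          rw [Finset.sum_const, Finset.card_univ, Fintype.card_fin, nsmul_eq_mul]
          field_simp
  have sep : ∀ ψ ∈ dbox φ0 h0 e, ∀ x ∈ P, x ∉ D → dlf ψ x < dlf ψ a0 := by
    intro ψ hψ x hx hxD
    have h3 : φ0 (x - o) < 1 - h0 := by
      by_contra hcon
      exact hxD ⟨hx, not_lt.mp hcon⟩
    have h4 : 0 < 1 - φ0 (x - o) := by linarith
    set τ : ℝ := h0 / (1 - φ0 (x - o)) with hτ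
    have hτ0 : 0 < τ := div_pos hh h4
    have hτ1 : τ ≤ 1 := by rw [hτ, div_le_one h4]; linarith
    have h5 : φ0 (a0 - (a0 + τ • (x - a0))) = h0 := by
      have h6 : a0 - (a0 + τ • (x - a0)) = τ • ((a0 - o) - (x - o)) := by
        module
      rw [h6, map_smul, map_sub, h1, smul_eq_mul, hτ, div_mul_cancel₀ _ h4.ne']
    have h7 : a0 + τ • (x - a0) ∈ D := by
      refine ⟨hc.add_smul_sub_mem ha hx ⟨hτ0.le, hτ1⟩, ?_⟩
      have h8 : φ0 (a0 + τ • (x - a0) - o) = φ0 (a0 - o) - φ0 (a0 - (a0 + τ • (x - a0))) := by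
        rw [← map_sub]; congr 1; abel
      rw [h8, h5, h1]
    have h9 := key ψ hψ _ h7
    rw [h5, abs_lt] at h9
    have h10 : dlf ψ (a0 - (a0 + τ • (x - a0))) = τ * (dlf ψ a0 - dlf ψ x) := by
      have h6 : a0 - (a0 + τ • (x - a0)) = τ • (a0 - x) := by module
      rw [h6, map_smul, map_sub, smul_eq_mul]
    rw [h10] at h9
    have h11 : 0 < τ * (dlf ψ a0 - dlf ψ x) := by linarith [h9.1]
    have := (pos_iff_pos_of_mul_pos h11).mp hτ0
    linarith
  have hcen : ∀ ψ ∈ dbox φ0 h0 e, dlf ψ (a0 - o) < 1 := by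
    intro ψ hψ
    have h5 : φ0 (a0 - (a0 + h0 • (o - a0))) = h0 := by
      have h6 : a0 - (a0 + h0 • (o - a0)) = h0 • (a0 - o) := by module
      rw [h6, map_smul, h1, smul_eq_mul, mul_one]
    have h7 : a0 + h0 • (o - a0) ∈ D := by
      refine ⟨hc.add_smul_sub_mem ha ho ⟨hh.le, by linarith⟩, ?_⟩
      have h8 : φ0 (a0 + h0 • (o - a0) - o) = φ0 (a0 - o) - φ0 (a0 - (a0 + h0 • (o - a0))) := by
        rw [← map_sub]; congr 1; abel
      rw [h8, h5, h1]
    have h9 := key ψ hψ _ h7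
    rw [h5, abs_lt] at h9
    have h10 : dlf ψ (a0 - (a0 + h0 • (o - a0))) = h0 * dlf ψ (a0 - o) := by
      have h6 : a0 - (a0 + h0 • (o - a0)) = h0 • (a0 - o) := by module
      rw [h6, map_smul, smul_eq_mul]
    rw [h10] at h9
    have h11 : h0 * dlf ψ (a0 - o) < h0 * 1 := by linarith [h9.2]
    exact lt_of_mul_lt_mul_left h11 hh.le
  have hup : ∀ ψ ∈ dbox φ0 h0 e, ∀ x ∈ P, dlf ψ (x - o) < 2 := by
    intro ψ hψ x hx
    have h3 := hcen ψ hψ
    rw [map_sub] at h3 ⊢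
    by_cases hxD : x ∈ D
    · have h4 := key ψ hψ x hxD
      rw [abs_lt] at h4
      have h5 : 0 ≤ φ0 (a0 - x) := by
        have h6 : φ0 (a0 - x) = φ0 (a0 - o) - φ0 (x - o) := by
          rw [← map_sub]; congr 1; abel
        rw [h6, h1]
        linarith [h2 x hx]
      have h7 := h4.1
      rw [map_sub (dlf ψ)] at h7
      linarith
    · have h4 := sep ψ hψ x hx hxD
      linarith
  have hlow : ∀ ψ ∈ dbox φ0 h0 e, ∀ x ∈ P, -(2 * (n : ℝ)) < dlf ψ (x - o) := by
    intro ψ hψ x hx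
    have hcont : ContinuousOn (fun x => dlf ψ (x - o)) P :=
      ((LinearMap.continuous_of_finiteDimensional (dlf ψ)).comp
        (continuous_id.sub continuous_const)).continuousOn
    obtain ⟨z, hz, hmax⟩ := hk.exists_isMaxOn ⟨o, ho⟩ hcont
    have h3 : dlf ψ (z - o) < 2 := hup ψ hψ z hz
    have h4 : 0 ≤ dlf ψ (z - o) := by
      have := hmax ho
      simpa using this
    set M : ℝ := (dlf ψ (z - o) + 2) / 2 with hM
    have hM0 : 0 < M := by rw [hM]; linarith
    have hM2 : M < 2 := by rw [hM]; linarith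
    have h5 := hp.low (M⁻¹ • dlf ψ) (fun y hy => by
      rw [LinearMap.smul_apply, smul_eq_mul, inv_mul_le_one₀ hM0]
      have h6 : dlf ψ (y - o) ≤ dlf ψ (z - o) := hmax hy
      rw [hM]; linarith) x hx
    rw [LinearMap.smul_apply, smul_eq_mul] at h5
    have h6 : -(n : ℝ) * M ≤ dlf ψ (x - o) := by
      have h7 := mul_le_mul_of_nonneg_right h5 hM0.le
      have h8 : M⁻¹ * dlf ψ (x - o) * M = dlf ψ (x - o) := by field_simp
      rwa [h8] at h7
    nlinarith
  refine ⟨dbox φ0 h0 e, measurableSet_dbox φ0 h0 e, ?_, ?_, ?_⟩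
  · rw [volume_dbox φ0 h0 hh (by omega) e hdet]
    have h7 : |(Matrix.of e).det| ≤ (n : ℝ) ^ n * volume.real D := by
      have : |(Matrix.of e).det| = (n : ℝ) ^ n * (|(Matrix.of e).det| * (1 / n) ^ n) := by
        rw [one_div, inv_pow]; field_simp
      rw [this]
      exact mul_le_mul_of_nonneg_left hbox (by positivity)
    calc h0 ^ n = h0 ^ n * (|(Matrix.of e).det|⁻¹ * |(Matrix.of e).det|) := by
          rw [inv_mul_cancel₀ hdetpos.ne', mul_one]
      _ ≤ h0 ^ n * (|(Matrix.of e).det|⁻¹ * ((n : ℝ) ^ n * volume.real D)) := by gcongr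
      _ = (n : ℝ) ^ (2 * n) * volume.real D * (|(Matrix.of e).det|⁻¹ * (h0 / n) ^ n) := by
          rw [div_pow, two_mul, pow_add]; field_simp
  · intro ψ hψ x hx hxD
    rw [← dlf_apply, ← dlf_apply]
    exact sep ψ hψ x hx hxD
  · intro ψ hψ i
    rw [← dlf_apply]
    have h3 : w i = (o + w i) - o := by abel
    rw [h3]
    exact ⟨hlow ψ hψ _ (hp.mem i), hup ψ hψ _ (hp.mem i)⟩

theorem dual_sum (hn : 2 ≤ n) (hc : Convex ℝ P) (hk : IsCompact P)
    (w : Fin n → Fin n → ℝ) (hp : Pos P o w) (ho : o ∈ P)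
    (ha : ∀ i ∈ S, a i ∈ P) (h1 : ∀ i ∈ S, φ i (a i - o) = 1)
    (h2 : ∀ i ∈ S, ∀ x ∈ P, φ i (x - o) ≤ 1) (hh : ∀ i ∈ S, 0 < h i ∧ h i ≤ 1 / n)
    (hv : ∀ i ∈ S, 0 < volume.real (cap P o (φ i) (h i))) (d : ℝ) (hd0 : 0 ≤ d)
    (hd : ∀ b ∈ S, ∀ T ⊆ S, (∀ i ∈ T, a i ∈ cap P o (φ b) (h b)) → (T.card : ℝ) ≤ d) :
    (∑ i ∈ S, h i ^ n / volume.real (cap P o (φ i) (h i))) * volume.real P ≤
      (n : ℝ) ^ (2 * n) * (8 * n + 8) ^ n * d := by
  classical
  have hU : ∀ i : ι, ∃ U : Set (Fin n → ℝ), i ∈ S → (MeasurableSet U ∧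
      h i ^ n ≤ (n : ℝ) ^ (2 * n) * volume.real (cap P o (φ i) (h i)) * volume.real U ∧
      (∀ ψ ∈ U, ∀ x ∈ P, x ∉ cap P o (φ i) (h i) → ∑ j, ψ j * x j < ∑ j, ψ j * a i j) ∧
      (∀ ψ ∈ U, ∀ i, -(2 * (n : ℝ)) < ∑ j, ψ j * w i j ∧ ∑ j, ψ j * w i j < 2)) := by
    intro i
    by_cases hi : i ∈ S
    · obtain ⟨U, hU⟩ := exists_dbox P o hn hc hk w hp ho (a i) (ha i hi) (φ i) (h i) (h1 i hi)
        (h2 i hi) (hh i hi).1 (hh i hi).2 (hv i hi)
      exact ⟨U, fun _ => hU⟩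
    · exact ⟨∅, fun hi' => absurd hi' hi⟩
  choose U hU using hU
  have hdet := hp.det_ne
  have hdetpos : 0 < |(Matrix.of w).det| := abs_pos.mpr hdet
  have hsum : ∑ i ∈ S, volume.real (U i) ≤ d * volume.real (dcon w) := by
    refine dl_sum_measureReal_le volume S U (dcon w) (fun i hi => (hU i hi).1)
      (isOpen_dcon w).measurableSet (volume_dcon_ne_top w hdet)
      (fun i hi ψ hψ => (hU i hi).2.2.2 ψ hψ) d ?_
    intro ψ _ T hTS hT
    rcases T.eq_empty_or_nonempty with rfl | hTne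
    · simpa using hd0
    obtain ⟨b, hbT, hbmin⟩ := Finset.exists_min_image T (fun i => ∑ j, ψ j * a i j) hTne
    refine hd b (hTS hbT) T hTS fun i hi => ?_
    by_contra hcon
    have h3 := (hU b (hTS hbT)).2.2.1 ψ (hT b hbT) (a i) (ha i (hTS hi)) hcon
    exact absurd h3 (not_lt.mpr (hbmin i hi))
  have h4 : ∑ i ∈ S, h i ^ n / volume.real (cap P o (φ i) (h i)) ≤
      (n : ℝ) ^ (2 * n) * (d * (|(Matrix.of w).det|⁻¹ * (2 * n + 2) ^ n)) := by
    calc ∑ i ∈ S, h i ^ n / volume.real (cap P o (φ i) (h i))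
        ≤ ∑ i ∈ S, (n : ℝ) ^ (2 * n) * volume.real (U i) := by
          refine Finset.sum_le_sum fun i hi => ?_
          rw [div_le_iff₀ (hv i hi)]
          calc h i ^ n ≤ _ := (hU i hi).2.1
            _ = _ := by ring
      _ = (n : ℝ) ^ (2 * n) * ∑ i ∈ S, volume.real (U i) := by rw [Finset.mul_sum]
      _ ≤ (n : ℝ) ^ (2 * n) * (d * volume.real (dcon w)) :=
          mul_le_mul_of_nonneg_left hsum (by positivity)
      _ = _ := by rw [volume_dcon w hdet]
  have h5 := hp.vol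
  calc (∑ i ∈ S, h i ^ n / volume.real (cap P o (φ i) (h i))) * volume.real P
      ≤ (n : ℝ) ^ (2 * n) * (d * (|(Matrix.of w).det|⁻¹ * (2 * n + 2) ^ n)) *
        (4 ^ n * |(Matrix.of w).det|) := by
        gcongr
    _ = (n : ℝ) ^ (2 * n) * (8 * n + 8) ^ n * d := by
        have h6 : (8 * (n : ℝ) + 8) ^ n = (2 * n + 2) ^ n * 4 ^ n := by
          rw [← mul_pow]; congr 1; ring
        rw [h6]
        field_simp

end core

end Pool.Agent.Helper34.QH
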