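import Pool.Agent.Helper34.QH.Defs

/-! Project QH (helper34), module QH-6b: the primal pieces. -/

namespace Pool.Agent.Helper34.QH

open MeasureTheory

section core

variable {n : ℕ} {ι : Type} (P : Set (Fin n → ℝ)) (o : Fin n → ℝ)
  (S : Finset ι) (a : ι → Fin n → ℝ) (φ : ι → ((Fin n → ℝ) →ₗ[ℝ] ℝ)) (h : ι → ℝ)

/-- The `i`-th piece `o + (1-θh)^i (D' - o)`, `D' = a + θ (D - a)`, `θ = 1/(2n)`. -/
def piece (D : Set (Fin n → ℝ)) (a0 : Fin n → ℝ) (h0 : ℝ) (i : ℕ) : Set (Fin n → ℝ) :=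
  {y | ∃ x ∈ D, y = o + (1 - h0 / (2 * n)) ^ i • (a0 + (1 / (2 * (n : ℝ))) • (x - a0) - o)}

/-- The value of the form on the shrunk cap. -/
private theorem phi_shrunk (a0 x0 : Fin n → ℝ) (φ0 : (Fin n → ℝ) →ₗ[ℝ] ℝ)
    (h1 : φ0 (a0 - o) = 1) :
    φ0 (a0 + (1 / (2 * (n : ℝ))) • (x0 - a0) - o) =
      (1 - 1 / (2 * (n : ℝ))) + 1 / (2 * (n : ℝ)) * φ0 (x0 - o) := by
  have e : a0 + (1 / (2 * (n : ℝ))) • (x0 - a0) - o =
      (1 - 1 / (2 * (n : ℝ))) • (a0 - o) + (1 / (2 * (n : ℝ))) • (x0 - o) := by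
    ext i
    simp only [Pi.add_apply, Pi.sub_apply, Pi.smul_apply, smul_eq_mul]
    ring
  rw [e, map_add, map_smul, map_smul, h1]
  simp

/-- The shrunk cap is in the cap. -/
private theorem shrunk_mem (hn : 2 ≤ n) (hc : Convex ℝ P) 
    (a0 : Fin n → ℝ) (ha0 : a0 ∈ P) (φ0 : (Fin n → ℝ) →ₗ[ℝ] ℝ) (h0 : ℝ)
    (h1 : φ0 (a0 - o) = 1) (hh : 0 < h0) (x0 : Fin n → ℝ)
    (hx0 : x0 ∈ cap P o φ0 h0) :
    a0 + (1 / (2 * (n : ℝ))) • (x0 - a0) ∈ cap P o φ0 h0 := by
  have hnR : (2 : ℝ) ≤ n := by exact_mod_cast hn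
  have hth : 0 < 1 / (2 * (n : ℝ)) := by positivity
  have hth1 : 1 / (2 * (n : ℝ)) ≤ 1 := by
    rw [div_le_one (by positivity)]; linarith
  refine ⟨?_, ?_⟩
  · exact hc.add_smul_sub_mem ha0 hx0.1 ⟨hth.le, hth1⟩
  · rw [phi_shrunk o a0 x0 φ0 h1]
    have h3 := hx0.2
    nlinarith

/-- The key geometric step: two points whose pieces meet. -/
theorem piece_meet (hn : 2 ≤ n) (hc : Convex ℝ P) (ho : o ∈ P)
    (a0 a1 : Fin n → ℝ) (ha0 : a0 ∈ P) (ha1 : a1 ∈ P) (φ0 : (Fin n → ℝ) →ₗ[ℝ] ℝ) (h0 : ℝ)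
    (D1 : Set (Fin n → ℝ)) (hD1 : D1 ⊆ P)
    (h1 : φ0 (a0 - o) = 1) (h2 : ∀ x ∈ P, φ0 (x - o) ≤ 1) (hh : 0 < h0)
    (s0 s1 : ℝ) (hs0 : 0 < s0) (hs1 : 0 < s1) (hs : s1 ≤ s0)
    (hs' : s0 * (1 - 1 / ((n : ℝ) * (2 * n - 1))) ≤ s1) (x0 x1 : Fin n → ℝ)
    (hx0 : x0 ∈ cap P o φ0 h0) (hx1 : x1 ∈ D1)
    (hy : s0 • (a0 + (1 / (2 * (n : ℝ))) • (x0 - a0) - o) =
      s1 • (a1 + (1 / (2 * (n : ℝ))) • (x1 - a1) - o)) :
    a0 + (1 / (2 * (n : ℝ))) • (x0 - a0) ∈ cap P o φ0 h0 ∧
    a1 ∈ opp (kap n) (cap P o φ0 h0) (a0 + (1 / (2 * (n : ℝ))) • (x0 - a0)) := by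
  have hmem := shrunk_mem P o hn hc a0 ha0 φ0 h0 h1 hh x0 hx0
  refine ⟨hmem, ?_⟩
  have hnR : (2 : ℝ) ≤ n := by exact_mod_cast hn
  set y0 : Fin n → ℝ := a0 + (1 / (2 * (n : ℝ))) • (x0 - a0) with hy0
  have hphi0 : φ0 (y0 - o) = (1 - 1 / (2 * (n : ℝ))) + 1 / (2 * (n : ℝ)) * φ0 (x0 - o) :=
    phi_shrunk o a0 x0 φ0 h1
  have hkpos : 0 < kap n := by
    unfold kap
    apply div_pos (by linarith)
    apply mul_pos (by linarith) (by linarith)
  have hkinv : 1 / kap n = (2 * (n : ℝ) + 1) * ((n : ℝ) - 1) / ((n : ℝ) + 1) := by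
    unfold kap
    rw [one_div_div]
  set K : ℝ := 1 / kap n with hK
  have hKpos : 0 < K := by rw [hK]; positivity
  set ρ : ℝ := s0 / s1 with hρ
  have hρ1 : 1 ≤ ρ := by rw [hρ, le_div_iff₀ hs1]; linarith
  have hden : 0 < (n : ℝ) * (2 * n - 1) - 1 := by nlinarith
  have hρ2 : ρ * ((2 * (n : ℝ) + 1) * ((n : ℝ) - 1)) ≤ (n : ℝ) * (2 * n - 1) := by
    have h3 : s0 * ((n : ℝ) * (2 * n - 1) - 1) ≤ s1 * ((n : ℝ) * (2 * n - 1)) := by
      have h4 : 0 < (n : ℝ) * (2 * n - 1) := by nlinarith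
      have h5 : s0 * (1 - 1 / ((n : ℝ) * (2 * n - 1))) * ((n : ℝ) * (2 * n - 1)) =
          s0 * ((n : ℝ) * (2 * n - 1) - 1) := by
        rw [mul_assoc, sub_mul, one_mul, one_div_mul_cancel h4.ne']
      rw [← h5]
      exact mul_le_mul_of_nonneg_right hs' h4.le
    have h6 : ((2 * (n : ℝ) + 1) * ((n : ℝ) - 1)) = (n : ℝ) * (2 * n - 1) - 1 := by ring
    rw [h6, hρ, div_mul_eq_mul_div, div_le_iff₀ hs1]
    linarith
  -- the point z
  set cx : ℝ := K * (1 / (2 * (n : ℝ) - 1)) with hcx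
  set cy : ℝ := 1 + K - ρ * K * (2 * n / (2 * (n : ℝ) - 1)) with hcy
  have h2n1 : 0 < 2 * (n : ℝ) - 1 := by linarith
  have hcx0 : 0 ≤ cx := by rw [hcx]; positivity
  have hcy0 : 0 ≤ cy := by
    rw [hcy]
    have h7 : ρ * K * (2 * n / (2 * (n : ℝ) - 1)) ≤ 1 + K := by
      rw [hkinv]
      have e1 : ρ * ((2 * (n : ℝ) + 1) * ((n : ℝ) - 1) / ((n : ℝ) + 1)) *
          (2 * n / (2 * (n : ℝ) - 1)) =
          (ρ * ((2 * (n : ℝ) + 1) * ((n : ℝ) - 1))) * (2 * n) /
            (((n : ℝ) + 1) * (2 * (n : ℝ) - 1)) := by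
        field_simp
      rw [e1, div_le_iff₀ (by positivity)]
      have e2 : (1 + (2 * (n : ℝ) + 1) * ((n : ℝ) - 1) / ((n : ℝ) + 1)) *
          (((n : ℝ) + 1) * (2 * (n : ℝ) - 1)) = 2 * (n : ℝ) ^ 2 * (2 * (n : ℝ) - 1) := by
        field_simp
        ring
      rw [e2]
      nlinarith
    linarith
  have hsum : cx + cy ≤ 1 := by
    rw [hcx, hcy]
    have h8 : K * (1 / (2 * (n : ℝ) - 1)) + K ≤ ρ * K * (2 * n / (2 * (n : ℝ) - 1)) := by
      have e3 : K * (1 / (2 * (n : ℝ) - 1)) + K = 1 * K * (2 * n / (2 * (n : ℝ) - 1)) := by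
        field_simp
        ring
      rw [e3]
      gcongr
    linarith
  have hy1 : a1 + (1 / (2 * (n : ℝ))) • (x1 - a1) - o = ρ • (y0 - o) := by
    have e0 : ρ • (y0 - o) = s1⁻¹ • (s0 • (y0 - o)) := by
      rw [smul_smul, hρ, div_eq_inv_mul]
    rw [e0, hy, smul_smul, inv_mul_cancel₀ hs1.ne', one_smul]
  have ha1eq : ∀ i, a1 i - o i =
      (2 * n / (2 * (n : ℝ) - 1)) * (ρ * (y0 i - o i)) -
        (1 / (2 * (n : ℝ) - 1)) * (x1 i - o i) := by
    intro i
    have h9 := congrFun hy1 i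
    simp only [Pi.add_apply, Pi.sub_apply, Pi.smul_apply, smul_eq_mul] at h9
    rw [← h9]
    field_simp
    ring
  have hz : y0 + K • (y0 - a1) = o + (cx • (x1 - o) + cy • (y0 - o)) := by
    ext i
    simp only [Pi.add_apply, Pi.sub_apply, Pi.smul_apply, smul_eq_mul]
    have h10 := ha1eq i
    have h11 : a1 i = o i + ((2 * n / (2 * (n : ℝ) - 1)) * (ρ * (y0 i - o i)) -
        (1 / (2 * (n : ℝ) - 1)) * (x1 i - o i)) := by linarith
    rw [h11, hcx, hcy]
    ring
  refine ⟨y0 + K • (y0 - a1), ⟨?_, ?_⟩, ?_⟩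
  · -- in P
    rw [hz]
    have h12 : o + (cx • (x1 - o) + cy • (y0 - o)) =
        (1 - cx - cy) • o + cx • x1 + cy • y0 := by
      ext i
      simp only [Pi.add_apply, Pi.sub_apply, Pi.smul_apply, smul_eq_mul]
      ring
    rw [h12]
    have h13 := hc.sum_mem (t := Finset.univ) (w := ![1 - cx - cy, cx, cy]) (z := ![o, x1, y0])
      (by
        intro i _
        fin_cases i
        · simp; linarith
        · simpa using hcx0
        · simpa using hcy0)
      (by simp only [Fin.sum_univ_three]; simp; ring)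
      (by
        intro i _
        fin_cases i
        · simpa using ho
        · simpa using hD1 hx1
        · simpa using hmem.1)
    simpa [Fin.sum_univ_three] using h13
  · have e4 : y0 + K • (y0 - a1) - o = (1 + K) • (y0 - o) - K • (a1 - o) := by
      ext i
      simp only [Pi.add_apply, Pi.sub_apply, Pi.smul_apply, smul_eq_mul]
      ring
    rw [e4, map_sub, map_smul, map_smul, hphi0, smul_eq_mul, smul_eq_mul]
    have h14 := hx0.2
    have h15 := h2 a1 ha1
    have h16 : (1 + K) * (1 / (2 * (n : ℝ))) ≤ 1 := by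
      rw [hkinv]
      have e5 : (1 + (2 * (n : ℝ) + 1) * ((n : ℝ) - 1) / ((n : ℝ) + 1)) * (1 / (2 * (n : ℝ))) =
          n / (n + 1) := by
        field_simp
        ring
      rw [e5, div_le_one (by positivity)]
      linarith
    have h17 : (1 + K) * (1 - 1 / (2 * (n : ℝ)) + 1 / (2 * (n : ℝ)) * φ0 (x0 - o)) ≥
        1 + K - h0 := by
      have h18 : (1 + K) * (1 - 1 / (2 * (n : ℝ)) + 1 / (2 * (n : ℝ)) * φ0 (x0 - o)) =
          (1 + K) - (1 + K) * (1 / (2 * (n : ℝ))) * (1 - φ0 (x0 - o)) := by ring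
      rw [h18]
      have h19 : 1 - φ0 (x0 - o) ≤ h0 := by linarith
      have h20 : (1 + K) * (1 / (2 * (n : ℝ))) * (1 - φ0 (x0 - o)) ≤ 1 * h0 := by
        rcases le_total 0 (1 - φ0 (x0 - o)) with h21 | h21
        · exact mul_le_mul h16 h19 h21 zero_le_one
        · have h22 : 0 ≤ (1 + K) * (1 / (2 * (n : ℝ))) := by positivity
          have h23 := mul_nonpos_of_nonneg_of_nonpos h22 h21
          linarith
      linarith
    nlinarith
  · ext i
    simp only [Pi.add_apply, Pi.sub_apply, Pi.smul_apply, smul_eq_mul]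
    have h24 : kap n * K = 1 := by rw [hK]; field_simp
    have h25 : kap n * (y0 i + K * (y0 i - a1 i) - y0 i) = (kap n * K) * (y0 i - a1 i) := by ring
    rw [h25, h24]
    ring

/-- The piece is contained in the body. -/
private theorem piece_subset (hn : 2 ≤ n) (hc : Convex ℝ P) (ho : o ∈ P)
    (a0 : Fin n → ℝ) (ha0 : a0 ∈ P) (h0 : ℝ) (hh : 0 < h0) (hh' : h0 ≤ 1 / n)
    (D : Set (Fin n → ℝ)) (hD : D ⊆ P) (j : ℕ) : piece o D a0 h0 j ⊆ P := by
  have hnR : (2 : ℝ) ≤ n := by exact_mod_cast hn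
  rintro y ⟨x, hx, rfl⟩
  have hth : 0 < 1 / (2 * (n : ℝ)) := by positivity
  have hth1 : 1 / (2 * (n : ℝ)) ≤ 1 := by
    rw [div_le_one (by positivity)]; linarith
  have hy : a0 + (1 / (2 * (n : ℝ))) • (x - a0) ∈ P :=
    hc.add_smul_sub_mem ha0 (hD hx) ⟨hth.le, hth1⟩
  have hh1 : h0 ≤ 1 := by
    refine hh'.trans ?_
    rw [div_le_one (by positivity)]; linarith
  have hr : 0 ≤ 1 - h0 / (2 * n) := by
    have : h0 / (2 * n) ≤ 1 := by
      rw [div_le_one (by positivity)]; linarith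
    linarith
  have hr1 : 1 - h0 / (2 * n) ≤ 1 := by
    have : 0 ≤ h0 / (2 * n) := by positivity
    linarith
  exact hc.add_smul_sub_mem ho hy ⟨pow_nonneg hr j, pow_le_one₀ hr hr1⟩

/-- Volume of a piece. -/
private theorem piece_vol (hn : 2 ≤ n) (a0 : Fin n → ℝ) (h0 : ℝ) (hr : 0 ≤ 1 - h0 / (2 * n))
    (D : Set (Fin n → ℝ)) (j : ℕ) :
    volume.real (piece o D a0 h0 j) =
      ((1 - h0 / (2 * n)) ^ j) ^ n * (1 / (2 * (n : ℝ))) ^ n * volume.real D := by
  have hnR : (2 : ℝ) ≤ n := by exact_mod_cast hn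
  have e : piece o D a0 h0 j =
      AffineMap.homothety o ((1 - h0 / (2 * n)) ^ j) ''
        (AffineMap.homothety a0 (1 / (2 * (n : ℝ))) '' D) := by
    ext y
    simp only [piece, Set.mem_setOf_eq, Set.mem_image, exists_exists_and_eq_and,
      AffineMap.homothety_apply, vsub_eq_sub, vadd_eq_add]
    constructor
    · rintro ⟨x, hx, rfl⟩
      refine ⟨x, hx, ?_⟩
      rw [add_comm o, add_comm a0]
    · rintro ⟨x, hx, rfl⟩
      refine ⟨x, hx, ?_⟩
      rw [add_comm o, add_comm a0]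
  rw [e, measureReal_def, Measure.addHaar_image_homothety, Measure.addHaar_image_homothety]
  rw [ENNReal.toReal_mul, ENNReal.toReal_mul, ENNReal.toReal_ofReal (abs_nonneg _),
    ENNReal.toReal_ofReal (abs_nonneg _), ← measureReal_def]
  simp only [Module.finrank_fintype_fun_eq_card, Fintype.card_fin]
  rw [abs_of_nonneg (by positivity), abs_of_nonneg (by positivity), mul_assoc]

/-- Value of the form on a piece. -/
private theorem piece_phi (hn : 2 ≤ n) (a0 : Fin n → ℝ) (φ0 : (Fin n → ℝ) →ₗ[ℝ] ℝ) (h0 : ℝ)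
    (h1 : φ0 (a0 - o) = 1) (h2 : ∀ x ∈ P, φ0 (x - o) ≤ 1) (hr : 0 ≤ 1 - h0 / (2 * n))
    (j : ℕ) (y : Fin n → ℝ) (hy : y ∈ piece o (cap P o φ0 h0) a0 h0 j) :
    (1 - h0 / (2 * n)) ^ (j + 1) ≤ φ0 (y - o) ∧ φ0 (y - o) ≤ (1 - h0 / (2 * n)) ^ j := by
  have hnR : (2 : ℝ) ≤ n := by exact_mod_cast hn
  obtain ⟨x, hx, rfl⟩ := hy
  rw [add_sub_cancel_left, map_smul, phi_shrunk o a0 x φ0 h1, smul_eq_mul]
  have h3 := hx.2
  have h4 := h2 x hx.1
  have hth : 0 < 1 / (2 * (n : ℝ)) := by positivity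
  have hp : 0 ≤ (1 - h0 / (2 * n)) ^ j := pow_nonneg hr j
  constructor
  · rw [pow_succ]
    apply mul_le_mul_of_nonneg_left _ hp
    have e : h0 / (2 * (n : ℝ)) = 1 / (2 * (n : ℝ)) * h0 := by ring
    rw [e]
    nlinarith
  · calc (1 - h0 / (2 * n)) ^ j * ((1 - 1 / (2 * (n : ℝ))) + 1 / (2 * (n : ℝ)) * φ0 (x - o))
        ≤ (1 - h0 / (2 * n)) ^ j * 1 := by
          apply mul_le_mul_of_nonneg_left _ hp
          nlinarith
      _ = _ := mul_one _

/-- A point is in at most two pieces. -/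
private theorem piece_card (hn : 2 ≤ n) (a0 : Fin n → ℝ) (φ0 : (Fin n → ℝ) →ₗ[ℝ] ℝ) (h0 : ℝ)
    (h1 : φ0 (a0 - o) = 1) (h2 : ∀ x ∈ P, φ0 (x - o) ≤ 1) (hh : 0 < h0) (hh' : h0 ≤ 1)
    (N : ℕ) (y : Fin n → ℝ) [DecidablePred fun j => y ∈ piece o (cap P o φ0 h0) a0 h0 j] :
    ((Finset.range N).filter fun j => y ∈ piece o (cap P o φ0 h0) a0 h0 j).card ≤ 2 := by
  have hnR : (2 : ℝ) ≤ n := by exact_mod_cast hn
  have hr : 0 < 1 - h0 / (2 * n) := by
    have : h0 / (2 * n) < 1 := by
      rw [div_lt_one (by positivity)]; linarith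
    linarith
  have hr1 : 1 - h0 / (2 * n) < 1 := by
    have : 0 < h0 / (2 * n) := by positivity
    linarith
  set T := (Finset.range N).filter fun j => y ∈ piece o (cap P o φ0 h0) a0 h0 j with hT
  rcases T.eq_empty_or_nonempty with he | hne
  · rw [he]; simp
  · set m := T.min' hne with hm
    have hmT : m ∈ T := T.min'_mem hne
    have hsub : T ⊆ {m, m + 1} := by
      intro j hj
      have hmj : m ≤ j := T.min'_le j hj
      have hmy := (piece_phi P o hn a0 φ0 h0 h1 h2 hr.le m y (Finset.mem_filter.mp hmT).2).1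
      have hjy := (piece_phi P o hn a0 φ0 h0 h1 h2 hr.le j y (Finset.mem_filter.mp hj).2).2
      have hle := hmy.trans hjy
      have hjm : j ≤ m + 1 := by
        by_contra hcon
        push Not at hcon
        have := pow_lt_pow_right_of_lt_one₀ hr hr1 hcon
        linarith
      simp only [Finset.mem_insert, Finset.mem_singleton]
      omega
    calc T.card ≤ ({m, m + 1} : Finset ℕ).card := Finset.card_le_card hsub
      _ ≤ 2 := Finset.card_le_two

theorem primal_sum (hn : 2 ≤ n) (hc : Convex ℝ P) (hk : IsCompact P) (ho : o ∈ P)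
    (ha : ∀ i ∈ S, a i ∈ P) (h1 : ∀ i ∈ S, φ i (a i - o) = 1)
    (h2 : ∀ i ∈ S, ∀ x ∈ P, φ i (x - o) ≤ 1) (hh : ∀ i ∈ S, 0 < h i ∧ h i ≤ 1 / n) (s : ℝ)
    (hs0 : 0 ≤ s)
    (hs : ∀ b ∈ S, ∀ y ∈ cap P o (φ b) (h b), ∀ T ⊆ S,
      (∀ i ∈ T, a i ∈ opp (kap n) (cap P o (φ b) (h b)) y) → (T.card : ℝ) ≤ s) :
    ∑ i ∈ S, volume.real (cap P o (φ i) (h i)) / h i ≤
      6 * (n : ℝ) ^ 2 * s * (2 * n) ^ (n - 1) * volume.real P := by
  classical
  have hnR : (2 : ℝ) ≤ n := by exact_mod_cast hn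
  have h2n1 : 0 < 2 * (n : ℝ) - 1 := by linarith
  set D : ι → Set (Fin n → ℝ) := fun i => cap P o (φ i) (h i) with hD
  set r : ι → ℝ := fun i => 1 - h i / (2 * n) with hr
  set N : ι → ℕ := fun i => ⌊2 / ((2 * (n : ℝ) - 1) * h i)⌋₊ + 1 with hN
  set E : ι → ℕ → Set (Fin n → ℝ) := fun i j => piece o (D i) (a i) (h i) j with hE
  have hle1 : ∀ i ∈ S, h i ≤ 1 := by
    intro i hi
    refine (hh i hi).2.trans ?_
    rw [div_le_one (by positivity)]; linarith
  have hr0 : ∀ i ∈ S, 0 < r i := by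
    intro i hi
    have h3 : h i / (2 * n) < 1 := by
      rw [div_lt_one (by positivity)]; linarith [hle1 i hi]
    simp only [hr]; linarith
  have hr1 : ∀ i ∈ S, r i < 1 := by
    intro i hi
    have h3 : 0 < h i / (2 * n) := div_pos (hh i hi).1 (by positivity)
    simp only [hr]; linarith
  have hDsub : ∀ i, D i ⊆ P := fun i x hx => hx.1
  have hjle : ∀ i ∈ S, ∀ j ∈ Finset.range (N i), (j : ℝ) * h i ≤ 2 / (2 * (n : ℝ) - 1) := by
    intro i hi j hj
    have h3 : j ≤ ⌊2 / ((2 * (n : ℝ) - 1) * h i)⌋₊ := by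
      have := Finset.mem_range.mp hj
      simp only [hN] at this
      omega
    have h4 : (j : ℝ) ≤ 2 / ((2 * (n : ℝ) - 1) * h i) :=
      (Nat.le_floor_iff (by have := (hh i hi).1; positivity)).mp h3
    have h5 := (hh i hi).1
    calc (j : ℝ) * h i ≤ 2 / ((2 * (n : ℝ) - 1) * h i) * h i := by gcongr
      _ = 2 / (2 * (n : ℝ) - 1) := by field_simp
  -- lower bound for the scale factors
  have hscale : ∀ i ∈ S, ∀ j ∈ Finset.range (N i),
      1 - 1 / ((n : ℝ) * (2 * n - 1)) ≤ r i ^ j := by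
    intro i hi j hj
    have h3 := one_add_mul_le_pow (a := -(h i / (2 * n))) (by
      have := hr0 i hi
      simp only [hr] at this
      linarith) j
    have h4 : (1 + -(h i / (2 * (n : ℝ)))) ^ j = r i ^ j := by simp only [hr]; ring_nf
    rw [h4] at h3
    refine le_trans ?_ h3
    have h5 := hjle i hi j hj
    have h6 : (j : ℝ) * -(h i / (2 * n)) = -((j : ℝ) * h i / (2 * n)) := by ring
    rw [h6]
    have h7 : (j : ℝ) * h i / (2 * n) ≤ 1 / ((n : ℝ) * (2 * n - 1)) := by
      calc (j : ℝ) * h i / (2 * n) ≤ (2 / (2 * (n : ℝ) - 1)) / (2 * n) := by gcongr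
        _ = 1 / ((n : ℝ) * (2 * n - 1)) := by field_simp
    linarith
  have hscale' : ∀ i ∈ S, ∀ j ∈ Finset.range (N i), 2 / 3 ≤ (r i ^ j) ^ n := by
    intro i hi j hj
    have h3 := one_add_mul_le_pow (a := -(h i / (2 * n))) (by
      have := hr0 i hi
      simp only [hr] at this
      linarith) (j * n)
    have h4 : (1 + -(h i / (2 * (n : ℝ)))) ^ (j * n) = (r i ^ j) ^ n := by
      rw [pow_mul]; simp only [hr]; ring_nf
    rw [h4] at h3
    refine le_trans ?_ h3
    have h5 := hjle i hi j hj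
    have h6 : ((j * n : ℕ) : ℝ) * -(h i / (2 * n)) = -((j : ℝ) * h i / 2) := by
      push_cast
      field_simp
    rw [h6]
    have h7 : (j : ℝ) * h i / 2 ≤ 1 / 3 := by
      calc (j : ℝ) * h i / 2 ≤ (2 / (2 * (n : ℝ) - 1)) / 2 := by gcongr
        _ = 1 / (2 * (n : ℝ) - 1) := by ring
        _ ≤ 1 / 3 := by
          apply one_div_le_one_div_of_le (by norm_num)
          linarith
    linarith
  -- the pieces
  have hEsub : ∀ i ∈ S, ∀ j, E i j ⊆ P := fun i hi j =>
    piece_subset P o hn hc ho (a i) (ha i hi) (h i) (hh i hi).1 (hh i hi).2 (D i) (hDsub i) j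
  have hDcomp : ∀ i, IsCompact (D i) := by
    intro i
    apply hk.of_isClosed_subset _ (hDsub i)
    have : D i = P ∩ {x | 1 - h i ≤ φ i (x - o)} := rfl
    rw [this]
    apply hk.isClosed.inter
    apply isClosed_le continuous_const
    exact (φ i).continuous_of_finiteDimensional.comp (by fun_prop)
  have hEmeas : ∀ i j, MeasurableSet (E i j) := by
    intro i j
    have e : E i j = (fun x => o + (1 - h i / (2 * n)) ^ j •
        (a i + (1 / (2 * (n : ℝ))) • (x - a i) - o)) '' D i := by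
      ext y
      simp only [hE, piece, Set.mem_setOf_eq, Set.mem_image]
      constructor
      · rintro ⟨x, hx, rfl⟩; exact ⟨x, hx, rfl⟩
      · rintro ⟨x, hx, rfl⟩; exact ⟨x, hx, rfl⟩
    rw [e]
    apply IsCompact.measurableSet
    exact (hDcomp i).image (by fun_prop)
  have hPfin : volume P < ⊤ := hk.measure_lt_top
  -- pointwise multiplicity
  have hmult : ∀ y, ∑ i ∈ S, ∑ j ∈ Finset.range (N i), (E i j).indicator (fun _ => (1 : ℝ)) y ≤
      P.indicator (fun _ => 2 * s) y := by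
    intro y
    by_cases hyP : y ∈ P
    · rw [Set.indicator_of_mem hyP]
      set T : Finset ι := S.filter fun i => ∃ j ∈ Finset.range (N i), y ∈ E i j with hT
      have hTS : T ⊆ S := Finset.filter_subset _ _
      have hbound : ∀ i ∈ S, ∑ j ∈ Finset.range (N i), (E i j).indicator (fun _ => (1 : ℝ)) y ≤
          if i ∈ T then 2 else 0 := by
        intro i hi
        by_cases hiT : i ∈ T
        · rw [if_pos hiT]
          have h3 := piece_card P o hn (a i) (φ i) (h i) (h1 i hi) (h2 i hi) (hh i hi).1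
            (hle1 i hi) (N i) y
          have h4 : ∑ j ∈ Finset.range (N i), (E i j).indicator (fun _ => (1 : ℝ)) y =
              (((Finset.range (N i)).filter fun j => y ∈ E i j).card : ℝ) := by
            rw [Finset.card_filter]
            push_cast
            refine Finset.sum_congr rfl fun j _ => ?_
            simp [Set.indicator_apply]
          rw [h4]
          exact_mod_cast h3
        · rw [if_neg hiT]
          apply le_of_eq
          apply Finset.sum_eq_zero
          intro j hj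
          apply Set.indicator_of_notMem
          intro hy
          exact hiT (Finset.mem_filter.mpr ⟨hi, j, hj, hy⟩)
      calc ∑ i ∈ S, ∑ j ∈ Finset.range (N i), (E i j).indicator (fun _ => (1 : ℝ)) y
          ≤ ∑ i ∈ S, (if i ∈ T then (2 : ℝ) else 0) := Finset.sum_le_sum hbound
        _ = 2 * T.card := by
          rw [← Finset.sum_filter, Finset.sum_const, nsmul_eq_mul, mul_comm]
          congr 3
          ext i
          simp only [Finset.mem_filter]
          constructor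
          · rintro ⟨_, h⟩; exact h
          · intro h; exact ⟨hTS h, h⟩
        _ ≤ 2 * s := by
          rcases T.eq_empty_or_nonempty with he | hne
          · rw [he]; simp; exact hs0
          · have hex : ∀ i ∈ T, ∃ j ∈ Finset.range (N i), ∃ x ∈ D i,
                y = o + (r i) ^ j • (a i + (1 / (2 * (n : ℝ))) • (x - a i) - o) := by
              intro i hi
              obtain ⟨j, hj, x, hx, hxy⟩ := (Finset.mem_filter.mp hi).2
              exact ⟨j, hj, x, hx, hxy⟩
            choose! J hJ X hX hXy using hex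
            obtain ⟨b, hb, hbmax⟩ := Finset.exists_max_image T (fun i => r i ^ J i) hne
            have hbS := hTS hb
            have hsb1 : r b ^ J b ≤ 1 := pow_le_one₀ (hr0 b hbS).le (hr1 b hbS).le
            have hc0 : 0 ≤ 1 - 1 / ((n : ℝ) * (2 * n - 1)) := by
              have : 1 / ((n : ℝ) * (2 * n - 1)) ≤ 1 := by
                rw [div_le_one (by positivity)]
                nlinarith
              linarith
            have hkey : ∀ i ∈ T, a b + (1 / (2 * (n : ℝ))) • (X b - a b) ∈ D b ∧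
                a i ∈ opp (kap n) (D b) (a b + (1 / (2 * (n : ℝ))) • (X b - a b)) := by
              intro i hi
              have hiS := hTS hi
              have hsi := hscale i hiS (J i) (hJ i hi)
              apply piece_meet P o hn hc ho (a b) (a i) (ha b hbS) (ha i hiS) (φ b) (h b) (D i)
                (hDsub i) (h1 b hbS) (h2 b hbS) (hh b hbS).1 (r b ^ J b) (r i ^ J i)
                (pow_pos (hr0 b hbS) _) (pow_pos (hr0 i hiS) _) (hbmax i hi) _ (X b) (X i)
                (hX b hb) (hX i hi)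
              · have e1 := hXy b hb
                have e2 := hXy i hi
                exact add_left_cancel (e1.symm.trans e2)
              · calc r b ^ J b * (1 - 1 / ((n : ℝ) * (2 * n - 1)))
                    ≤ 1 * (1 - 1 / ((n : ℝ) * (2 * n - 1))) := by
                      exact mul_le_mul_of_nonneg_right hsb1 hc0
                  _ ≤ r i ^ J i := by rw [one_mul]; exact hsi
            have := hs b hbS _ (hkey b hb).1 T hTS fun i hi => (hkey i hi).2
            linarith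
    · rw [Set.indicator_of_notMem hyP]
      apply le_of_eq
      apply Finset.sum_eq_zero
      intro i hi
      apply Finset.sum_eq_zero
      intro j hj
      exact Set.indicator_of_notMem (fun hy => hyP (hEsub i hi j hy)) _
  -- integrate
  have hfinE : ∀ i ∈ S, ∀ j, volume (E i j) < ⊤ := fun i hi j =>
    (measure_mono (hEsub i hi j)).trans_lt hPfin
  have hintE : ∀ i ∈ S, ∀ j, Integrable ((E i j).indicator fun _ => (1 : ℝ)) volume := by
    intro i hi j
    rw [integrable_indicator_iff (hEmeas i j)]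
    exact integrableOn_const (hfinE i hi j).ne
  have hintP : Integrable (P.indicator fun _ => 2 * s) volume := by
    rw [integrable_indicator_iff hk.measurableSet]
    exact integrableOn_const hPfin.ne
  have hint : ∑ i ∈ S, ∑ j ∈ Finset.range (N i), volume.real (E i j) ≤
      2 * s * volume.real P := by
    have h3 : ∫ y, ∑ i ∈ S, ∑ j ∈ Finset.range (N i),
        (E i j).indicator (fun _ => (1 : ℝ)) y ≤ ∫ y, P.indicator (fun _ => 2 * s) y := by
      apply integral_mono _ hintP hmult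
      apply integrable_finset_sum
      intro i hi
      apply integrable_finset_sum
      intro j _
      exact hintE i hi j
    rw [integral_finset_sum _ (fun i hi => integrable_finset_sum _ fun j _ => hintE i hi j)] at h3
    have h4 : ∀ i ∈ S, ∫ y, ∑ j ∈ Finset.range (N i), (E i j).indicator (fun _ => (1 : ℝ)) y =
        ∑ j ∈ Finset.range (N i), volume.real (E i j) := by
      intro i hi
      rw [integral_finset_sum _ (fun j _ => hintE i hi j)]
      refine Finset.sum_congr rfl fun j _ => ?_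
      rw [integral_indicator (hEmeas i j)]
      simp
    rw [Finset.sum_congr rfl h4, integral_indicator hk.measurableSet] at h3
    simp only [integral_const, smul_eq_mul] at h3
    have h5 : (volume.restrict P).real Set.univ = volume.real P := by
      simp [measureReal_def]
    rw [h5] at h3
    linarith
  -- lower bound for each index
  have hlow : ∀ i ∈ S, volume.real (D i) / h i * ((2 / (3 * n)) * (1 / (2 * (n : ℝ))) ^ n) ≤
      ∑ j ∈ Finset.range (N i), volume.real (E i j) := by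
    intro i hi
    have hhi := (hh i hi).1
    have hV : 0 ≤ volume.real (D i) := measureReal_nonneg
    calc volume.real (D i) / h i * ((2 / (3 * n)) * (1 / (2 * (n : ℝ))) ^ n)
        = (1 / (n * h i)) * (2 / 3 * (1 / (2 * (n : ℝ))) ^ n * volume.real (D i)) := by
          field_simp
      _ ≤ (N i : ℝ) * (2 / 3 * (1 / (2 * (n : ℝ))) ^ n * volume.real (D i)) := by
          apply mul_le_mul_of_nonneg_right _ (by positivity)
          have h3 : 2 / ((2 * (n : ℝ) - 1) * h i) < N i := by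
            simp only [hN]
            push_cast
            exact Nat.lt_floor_add_one _
          refine le_trans ?_ h3.le
          rw [div_le_div_iff₀ (by positivity) (by positivity)]
          nlinarith
      _ = ∑ _j ∈ Finset.range (N i), (2 / 3 * (1 / (2 * (n : ℝ))) ^ n * volume.real (D i)) := by
          rw [Finset.sum_const, Finset.card_range, nsmul_eq_mul]
      _ ≤ ∑ j ∈ Finset.range (N i), volume.real (E i j) := by
          refine Finset.sum_le_sum fun j hj => ?_
          have h3 := piece_vol o hn (a i) (h i) (hr0 i hi).le (D i) j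
          have h4 : volume.real (E i j) = (r i ^ j) ^ n * (1 / (2 * (n : ℝ))) ^ n *
            volume.real (D i) := h3
          rw [h4]
          have h5 := hscale' i hi j hj
          gcongr
  have htot : (∑ i ∈ S, volume.real (D i) / h i) * ((2 / (3 * n)) * (1 / (2 * (n : ℝ))) ^ n) ≤
      2 * s * volume.real P := by
    rw [Finset.sum_mul]
    exact (Finset.sum_le_sum hlow).trans hint
  have hpow : (2 * (n : ℝ)) ^ n = 2 * n * (2 * n) ^ (n - 1) := by
    obtain ⟨m, rfl⟩ : ∃ m, n = m + 1 := ⟨n - 1, by omega⟩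
    rw [Nat.add_sub_cancel, pow_succ]
    ring
  have hfac : 0 < (2 / (3 * (n : ℝ))) * (1 / (2 * (n : ℝ))) ^ n := by positivity
  have hfin : (∑ i ∈ S, volume.real (D i) / h i) ≤
      2 * s * volume.real P / ((2 / (3 * n)) * (1 / (2 * (n : ℝ))) ^ n) := by
    rw [le_div_iff₀ hfac]
    exact htot
  refine hfin.trans (le_of_eq ?_)
  rw [one_div, inv_pow, hpow]
  field_simp
  ring

end core

end Pool.Agent.Helper34.QH
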