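import Mathlib
import Pool.Agent.Helper34.QH.Dual
import Pool.Agent.Helper34.QH.Primal

/-! Project QH (helper34), module QH-6c (written by helper27). -/

namespace Pool.Agent.Helper34.QH

open MeasureTheory

/-- The Hoelder step. -/
theorem h27_hoelder {ι : Type} (S : Finset ι) (v h : ι → ℝ) (n : ℕ) (hn : 2 ≤ n) (t : ℝ)
    (ht : 0 < t) (hv : ∀ i ∈ S, t ≤ v i) (hh : ∀ i ∈ S, 0 < h i) :
    (S.card : ℝ) ^ (n + 1) * t ^ (n - 1) ≤
      (∑ i ∈ S, h i ^ n / v i) * (∑ i ∈ S, v i / h i) ^ n := by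
  have hn0 : (0 : ℝ) < n := by
    have : 0 < n := by omega
    exact_mod_cast this
  have hp : (0 : ℝ) < (n : ℝ) + 1 := by positivity
  have hpq : Real.HolderConjugate ((n : ℝ) + 1) (((n : ℝ) + 1) / n) := by
    rw [Real.holderConjugate_iff]
    constructor
    · linarith
    · field_simp
      ring
  have hv0 : ∀ i ∈ S, 0 < v i := fun i hi => ht.trans_le (hv i hi)
  have hX0 : 0 ≤ ∑ i ∈ S, h i ^ n / v i := Finset.sum_nonneg fun i hi =>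
    div_nonneg (pow_nonneg (hh i hi).le _) (hv0 i hi).le
  have hY0 : 0 ≤ ∑ i ∈ S, v i / h i := Finset.sum_nonneg fun i hi =>
    div_nonneg (hv0 i hi).le (hh i hi).le
  have key := Real.inner_le_Lp_mul_Lq_of_nonneg (s := S)
    (f := fun i => (h i ^ n / v i) ^ (1 / ((n : ℝ) + 1)))
    (g := fun i => (v i / h i) ^ (1 / (((n : ℝ) + 1) / n))) hpq
    (fun i hi => Real.rpow_nonneg (div_nonneg (pow_nonneg (hh i hi).le _) (hv0 i hi).le) _)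
    (fun i hi => Real.rpow_nonneg (div_nonneg (hv0 i hi).le (hh i hi).le) _)
  have e1 : ∑ i ∈ S, ((h i ^ n / v i) ^ (1 / ((n : ℝ) + 1))) ^ ((n : ℝ) + 1) =
      ∑ i ∈ S, h i ^ n / v i := by
    refine Finset.sum_congr rfl fun i hi => ?_
    have h0 : 0 ≤ h i ^ n / v i := div_nonneg (pow_nonneg (hh i hi).le _) (hv0 i hi).le
    rw [← Real.rpow_mul h0, one_div, inv_mul_cancel₀ hp.ne', Real.rpow_one]
  have e2 : ∑ i ∈ S, ((v i / h i) ^ (1 / (((n : ℝ) + 1) / n))) ^ (((n : ℝ) + 1) / n) =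
      ∑ i ∈ S, v i / h i := by
    refine Finset.sum_congr rfl fun i hi => ?_
    have h0 : 0 ≤ v i / h i := div_nonneg (hv0 i hi).le (hh i hi).le
    have hne : ((n : ℝ) + 1) / n ≠ 0 := by positivity
    rw [← Real.rpow_mul h0, one_div, inv_mul_cancel₀ hne, Real.rpow_one]
  rw [e1, e2] at key
  have hlow : (S.card : ℝ) * (t ^ (n - 1)) ^ (1 / ((n : ℝ) + 1)) ≤
      ∑ i ∈ S, (h i ^ n / v i) ^ (1 / ((n : ℝ) + 1)) * (v i / h i) ^ (1 / (((n : ℝ) + 1) / n)) := by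
    rw [← nsmul_eq_mul]
    refine Finset.card_nsmul_le_sum _ _ _ fun i hi => ?_
    have hvi := hv0 i hi
    have hhi := hh i hi
    have h1 : (1 : ℝ) / (((n : ℝ) + 1) / n) = (n : ℝ) * (1 / ((n : ℝ) + 1)) := by
      field_simp
    rw [h1, Real.rpow_mul (div_nonneg hvi.le hhi.le), Real.rpow_natCast,
      ← Real.mul_rpow (div_nonneg (pow_nonneg hhi.le _) hvi.le)
        (pow_nonneg (div_nonneg hvi.le hhi.le) _)]
    have h2 : h i ^ n / v i * (v i / h i) ^ n = v i ^ (n - 1) := by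
      rw [div_pow]
      have h3 : v i ^ n = v i ^ (n - 1) * v i := by
        rw [← pow_succ]
        congr 1
        omega
      rw [h3]
      field_simp
    rw [h2]
    exact Real.rpow_le_rpow (by positivity) (pow_le_pow_left₀ ht.le (hv i hi) _) (by positivity)
  have hfin := hlow.trans key
  have hpow := pow_le_pow_left₀ (by positivity) hfin (n + 1)
  have e3 : ((S.card : ℝ) * (t ^ (n - 1)) ^ (1 / ((n : ℝ) + 1))) ^ (n + 1) =
      (S.card : ℝ) ^ (n + 1) * t ^ (n - 1) := by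
    rw [mul_pow, ← Real.rpow_natCast ((t ^ (n - 1)) ^ (1 / ((n : ℝ) + 1))) (n + 1),
      ← Real.rpow_mul (by positivity)]
    have : 1 / ((n : ℝ) + 1) * ((n + 1 : ℕ) : ℝ) = 1 := by
      push_cast
      field_simp
    rw [this, Real.rpow_one]
  have e4 : ((∑ i ∈ S, h i ^ n / v i) ^ (1 / ((n : ℝ) + 1)) *
      (∑ i ∈ S, v i / h i) ^ (1 / (((n : ℝ) + 1) / n))) ^ (n + 1) =
      (∑ i ∈ S, h i ^ n / v i) * (∑ i ∈ S, v i / h i) ^ n := by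
    rw [mul_pow, ← Real.rpow_natCast ((∑ i ∈ S, h i ^ n / v i) ^ (1 / ((n : ℝ) + 1))) (n + 1),
      ← Real.rpow_mul hX0, ← Real.rpow_natCast ((∑ i ∈ S, v i / h i) ^ _) (n + 1),
      ← Real.rpow_mul hY0]
    have h5 : 1 / ((n : ℝ) + 1) * ((n + 1 : ℕ) : ℝ) = 1 := by
      push_cast
      field_simp
    have h6 : 1 / (((n : ℝ) + 1) / n) * ((n + 1 : ℕ) : ℝ) = (n : ℝ) := by
      push_cast
      field_simp
    rw [h5, h6, Real.rpow_one, Real.rpow_natCast]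
  rw [e3, e4] at hpow
  exact hpow

theorem h27_core_num {ι : Type} (S : Finset ι) (v h : ι → ℝ) (n : ℕ) (hn : 2 ≤ n) (t P d s : ℝ)
    (ht : 0 < t) (hv : ∀ i ∈ S, t ≤ v i) (hh : ∀ i ∈ S, 0 < h i) (hP : 0 ≤ P) (hs0 : 0 ≤ s)
    (hX : (∑ i ∈ S, h i ^ n / v i) * P ≤ (n : ℝ) ^ (2 * n) * (8 * n + 8) ^ n * d)
    (hY : ∑ i ∈ S, v i / h i ≤ 6 * (n : ℝ) ^ 2 * s * (2 * n) ^ (n - 1) * P) :
    (S.card : ℝ) ^ (n + 1) * t ^ (n - 1) ≤
      (n : ℝ) ^ (2 * n) * (6 * (n : ℝ) ^ 2) ^ n * (8 * n + 8) ^ n * (2 * n) ^ (n * (n - 1)) *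
        (d * s ^ n) * P ^ (n - 1) := by
  have hv0 : ∀ i ∈ S, 0 < v i := fun i hi => ht.trans_le (hv i hi)
  have hX0 : 0 ≤ ∑ i ∈ S, h i ^ n / v i := Finset.sum_nonneg fun i hi =>
    div_nonneg (pow_nonneg (hh i hi).le _) (hv0 i hi).le
  have hY0 : 0 ≤ ∑ i ∈ S, v i / h i := Finset.sum_nonneg fun i hi =>
    div_nonneg (hv0 i hi).le (hh i hi).le
  refine (h27_hoelder S v h n hn t ht hv hh).trans ?_
  have h1 : (∑ i ∈ S, v i / h i) ^ n ≤ (6 * (n : ℝ) ^ 2 * s * (2 * n) ^ (n - 1) * P) ^ n :=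
    pow_le_pow_left₀ hY0 hY n
  have hPn : P ^ n = P * P ^ (n - 1) := by
    rw [← pow_succ']
    congr 1
    omega
  calc (∑ i ∈ S, h i ^ n / v i) * (∑ i ∈ S, v i / h i) ^ n
      ≤ (∑ i ∈ S, h i ^ n / v i) * (6 * (n : ℝ) ^ 2 * s * (2 * n) ^ (n - 1) * P) ^ n :=
        mul_le_mul_of_nonneg_left h1 hX0
    _ = ((∑ i ∈ S, h i ^ n / v i) * P) *
          ((6 * (n : ℝ) ^ 2) ^ n * s ^ n * (2 * n) ^ (n * (n - 1)) * P ^ (n - 1)) := by
        rw [mul_pow, mul_pow, mul_pow, hPn, ← pow_mul, Nat.mul_comm (n - 1) n]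
        ring
    _ ≤ ((n : ℝ) ^ (2 * n) * (8 * n + 8) ^ n * d) *
          ((6 * (n : ℝ) ^ 2) ^ n * s ^ n * (2 * n) ^ (n * (n - 1)) * P ^ (n - 1)) :=
        mul_le_mul_of_nonneg_right hX (by positivity)
    _ = _ := by ring

section core

variable {n : ℕ} {ι : Type} (P : Set (Fin n → ℝ)) (o : Fin n → ℝ)
  (S : Finset ι) (a : ι → Fin n → ℝ) (φ : ι → ((Fin n → ℝ) →ₗ[ℝ] ℝ)) (h : ι → ℝ)

theorem fat_core (hn : 2 ≤ n) (hc : Convex ℝ P) (hk : IsCompact P)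
    (w : Fin n → Fin n → ℝ) (hp : Pos P o w) (ho : o ∈ P)
    (ha : ∀ i ∈ S, a i ∈ P) (h1 : ∀ i ∈ S, φ i (a i - o) = 1)
    (h2 : ∀ i ∈ S, ∀ x ∈ P, φ i (x - o) ≤ 1) (hh : ∀ i ∈ S, 0 < h i ∧ h i ≤ 1 / n)
    (t : ℝ) (ht : 0 < t) (hv : ∀ i ∈ S, t ≤ volume.real (cap P o (φ i) (h i))) (d s : ℝ)
    (hd0 : 0 ≤ d) (hs0 : 0 ≤ s)
    (hd : ∀ b ∈ S, ∀ T ⊆ S, (∀ i ∈ T, a i ∈ cap P o (φ b) (h b)) → (T.card : ℝ) ≤ d)
    (hs : ∀ b ∈ S, ∀ y ∈ cap P o (φ b) (h b), ∀ T ⊆ S,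
      (∀ i ∈ T, a i ∈ opp (kap n) (cap P o (φ b) (h b)) y) → (T.card : ℝ) ≤ s) :
    (S.card : ℝ) ^ (n + 1) * t ^ (n - 1) ≤
      (n : ℝ) ^ (2 * n) * (6 * (n : ℝ) ^ 2) ^ n * (8 * n + 8) ^ n * (2 * n) ^ (n * (n - 1)) *
        (d * s ^ n) * volume.real P ^ (n - 1) :=
  h27_core_num S (fun i => volume.real (cap P o (φ i) (h i))) h n hn t (volume.real P) d s ht hv
    (fun i hi => (hh i hi).1) measureReal_nonneg hs0
    (dual_sum P o S a φ h hn hc hk w hp ho ha h1 h2 hh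
      (fun i hi => ht.trans_le (hv i hi)) d hd0 hd)
    (primal_sum P o S a φ h hn hc hk ho ha h1 h2 hh s hs0 hs)

end core

end Pool.Agent.Helper34.QH
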