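import Pool.Agent.Helper34.QH.Defs

/-! Project QH (helper34), MP_735047_co: the `(n+1)`-st root of the core inequality. -/

namespace Pool.Agent.Helper34.QH

open MeasureTheory

lemma kap_pos {n : ℕ} (hn : 2 ≤ n) : 0 < kap n := by
  have h : (2 : ℝ) ≤ n := by exact_mod_cast hn
  unfold kap
  apply div_pos (by linarith)
  apply mul_pos (by linarith) (by linarith)

lemma kap_le_one {n : ℕ} (hn : 2 ≤ n) : kap n ≤ 1 := by
  have h : (2 : ℝ) ≤ n := by exact_mod_cast hn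
  unfold kap
  rw [div_le_one (mul_pos (by linarith) (by linarith))]
  nlinarith

lemma kap_ge {n : ℕ} (hn : 2 ≤ n) : 1 / (2 * (n : ℝ)) ≤ kap n := by
  have h : (2 : ℝ) ≤ n := by exact_mod_cast hn
  unfold kap
  rw [div_le_div_iff₀ (by linarith) (mul_pos (by linarith) (by linarith))]
  nlinarith

lemma two_n_kap_pow {n : ℕ} (hn : 2 ≤ n) : (2 * (n : ℝ) * kap n) ^ n ≤ 8 := by
  have h : (2 : ℝ) ≤ n := by exact_mod_cast hn
  have hpos : (0 : ℝ) < (2 * (n : ℝ) + 1) * ((n : ℝ) - 1) :=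
    mul_pos (by linarith) (by linarith)
  have h1 : 2 * (n : ℝ) * kap n
      = 1 + (3 * n + 1) / ((2 * (n : ℝ) + 1) * ((n : ℝ) - 1)) := by
    have hn1 : (n : ℝ) - 1 ≠ 0 := by linarith
    have hn2 : 2 * (n : ℝ) + 1 ≠ 0 := by linarith
    unfold kap
    rw [mul_div_assoc', eq_comm, ← sub_eq_zero]
    field_simp
    ring
  rcases Nat.lt_or_ge n 4 with h4 | h4
  · interval_cases n
    · norm_num [kap]
    · norm_num [kap]
  · have h4' : (4 : ℝ) ≤ n := by exact_mod_cast h4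
    rw [h1]
    set x : ℝ := (3 * n + 1) / ((2 * (n : ℝ) + 1) * ((n : ℝ) - 1)) with hx
    have hx0 : 0 ≤ x := by rw [hx]; positivity
    have hnx : (n : ℝ) * x ≤ 2 := by
      rw [hx, mul_div_assoc', div_le_iff₀ hpos]
      nlinarith
    calc (1 + x) ^ n ≤ (Real.exp x) ^ n := by
          apply pow_le_pow_left₀ (by linarith)
          have := Real.add_one_le_exp x
          linarith
      _ = Real.exp (n * x) := by rw [← Real.exp_nat_mul]
      _ ≤ Real.exp 2 := Real.exp_le_exp.mpr hnx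
      _ = Real.exp 1 * Real.exp 1 := by rw [← Real.exp_add]; norm_num
      _ ≤ 8 := by
          have := Real.exp_one_lt_d9
          have h0 := Real.exp_pos 1
          nlinarith

lemma const_bound {n : ℕ} (hn : 2 ≤ n) :
    kap n ^ (n * (n - 2)) * ((n : ℝ) ^ (2 * n) * (6 * (n : ℝ) ^ 2) ^ n * (8 * n + 8) ^ n *
      (2 * n) ^ (n * (n - 1))) ≤ (1152 * (n : ℝ) ^ 6) ^ n := by
  have h : (2 : ℝ) ≤ n := by exact_mod_cast hn
  have hk := kap_pos hn
  obtain ⟨m, rfl⟩ : ∃ m, n = m + 2 := ⟨n - 2, by omega⟩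
  have e1 : m + 2 - 2 = m := by omega
  have e2 : m + 2 - 1 = m + 1 := by omega
  rw [e1, e2]
  set N : ℝ := ((m + 2 : ℕ) : ℝ) with hN
  have hN0 : 0 < N := by linarith
  have h8 : (8 * N + 8) ^ (m + 2) ≤ (12 * N) ^ (m + 2) := by
    apply pow_le_pow_left₀ (by linarith)
    linarith
  have hkk : kap (m + 2) ^ ((m + 2) * m) * (2 * N) ^ ((m + 2) * (m + 1))
      ≤ 8 ^ m * (2 * N) ^ (m + 2) := by
    have : kap (m + 2) ^ ((m + 2) * m) * (2 * N) ^ ((m + 2) * (m + 1))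
        = ((2 * N * kap (m + 2)) ^ (m + 2)) ^ m * (2 * N) ^ (m + 2) := by
      rw [show (m + 2) * (m + 1) = (m + 2) * m + (m + 2) by ring, pow_add, ← pow_mul,
        mul_pow (2 * N) (kap (m + 2)) ((m + 2) * m)]
      ring
    rw [this]
    apply mul_le_mul_of_nonneg_right _ (by positivity)
    apply pow_le_pow_left₀ (by positivity)
    exact two_n_kap_pow hn
  calc kap (m + 2) ^ ((m + 2) * m) * (N ^ (2 * (m + 2)) * (6 * N ^ 2) ^ (m + 2) *
        (8 * N + 8) ^ (m + 2) * (2 * N) ^ ((m + 2) * (m + 1)))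
      = (kap (m + 2) ^ ((m + 2) * m) * (2 * N) ^ ((m + 2) * (m + 1))) *
          (N ^ (2 * (m + 2)) * (6 * N ^ 2) ^ (m + 2)) * (8 * N + 8) ^ (m + 2) := by ring
    _ ≤ (8 ^ m * (2 * N) ^ (m + 2)) *
          (N ^ (2 * (m + 2)) * (6 * N ^ 2) ^ (m + 2)) * (12 * N) ^ (m + 2) := by
        gcongr
    _ = 8 ^ m * (144 * N ^ 6) ^ (m + 2) := by
        rw [pow_mul, ← mul_pow]
        rw [show 8 ^ m * (2 * N) ^ (m + 2) * (N ^ 2 * (6 * N ^ 2)) ^ (m + 2) * (12 * N) ^ (m + 2)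
          = 8 ^ m * (((2 * N) ^ (m + 2) * (N ^ 2 * (6 * N ^ 2)) ^ (m + 2)) *
            (12 * N) ^ (m + 2)) by ring]
        rw [← mul_pow, ← mul_pow]
        congr 2
        ring
    _ ≤ 8 ^ (m + 2) * (144 * N ^ 6) ^ (m + 2) := by
        apply mul_le_mul_of_nonneg_right _ (by positivity)
        exact pow_le_pow_right₀ (by norm_num) (by omega)
    _ = (1152 * N ^ 6) ^ (m + 2) := by
        rw [← mul_pow]
        congr 1
        ring

theorem core_root {n : ℕ} (hn : 2 ≤ n) (N t P d s M e : ℝ) (hN : 0 ≤ N) (ht : 0 < t)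
    (hP : 0 ≤ P) (hM : 0 ≤ M) (he : be n ≤ e) (hd0 : 0 ≤ d) (hs0 : 0 ≤ s)
    (hd : d ≤ M * t ^ e) (hs : s ≤ M * (kap n ^ n * t) ^ e)
    (hcore : N ^ (n + 1) * t ^ (n - 1) ≤
      (n : ℝ) ^ (2 * n) * (6 * (n : ℝ) ^ 2) ^ n * (8 * n + 8) ^ n * (2 * n) ^ (n * (n - 1)) *
        (d * s ^ n) * P ^ (n - 1)) :
    N ≤ 1152 * (n : ℝ) ^ 6 * M * t ^ (e - al n) * P ^ al n := by
  have h2 : (2 : ℝ) ≤ n := by exact_mod_cast hn
  have hk := kap_pos hn
  have hk1 := kap_le_one hn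
  have hn0 : (0 : ℝ) < n := by linarith
  have hal : al n * ((n : ℝ) + 1) = n - 1 := by
    unfold al
    field_simp
  have hbe : be n * (n : ℝ) = n - 2 := by
    unfold be
    field_simp
  have hcast : ((n - 1 : ℕ) : ℝ) = n - 1 := by
    rw [Nat.cast_sub (by omega)]; norm_num
  have hcast2 : ((n - 2 : ℕ) : ℝ) = n - 2 := by
    rw [Nat.cast_sub (by omega)]; norm_num
  have hal0 : 0 < al n := by
    unfold al
    apply div_pos <;> linarith
  -- right-hand side to the power n+1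
  have hRHS0 : 0 ≤ 1152 * (n : ℝ) ^ 6 * M * t ^ (e - al n) * P ^ al n := by positivity
  have hpow : N ^ (n + 1) ≤ (1152 * (n : ℝ) ^ 6 * M * t ^ (e - al n) * P ^ al n) ^ (n + 1) := by
    have hPp : (P ^ al n) ^ (n + 1) = P ^ (n - 1) := by
      rw [← Real.rpow_natCast (P ^ al n) (n + 1), ← Real.rpow_mul hP]
      push_cast
      rw [hal, ← hcast, Real.rpow_natCast]
    have htp : (t ^ (e - al n)) ^ (n + 1) * t ^ (n - 1) = t ^ (e * (n + 1)) := by
      rw [← Real.rpow_natCast (t ^ (e - al n)) (n + 1), ← Real.rpow_mul ht.le,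
        ← Real.rpow_natCast t (n - 1), ← Real.rpow_add ht, hcast]
      congr 1
      push_cast
      linarith [hal]
    have htn : 0 < t ^ (n - 1) := by positivity
    rw [← mul_le_mul_iff_left₀ htn]
    refine hcore.trans ?_
    have hds : d * s ^ n ≤ M ^ (n + 1) * t ^ (e * (n + 1)) * kap n ^ (n * (n - 2)) := by
      have h1 : s ^ n ≤ (M * (kap n ^ n * t) ^ e) ^ n := pow_le_pow_left₀ hs0 hs n
      have h3 : ((kap n ^ n * t) ^ e) ^ n ≤ kap n ^ (n * (n - 2)) * t ^ (e * n) := by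
        rw [← Real.rpow_natCast ((kap n ^ n * t) ^ e) n, ← Real.rpow_mul (by positivity),
          Real.mul_rpow (by positivity) ht.le]
        apply mul_le_mul_of_nonneg_right _ (by positivity)
        rw [← Real.rpow_natCast (kap n) n, ← Real.rpow_mul hk.le,
          ← Real.rpow_natCast (kap n) (n * (n - 2))]
        apply Real.rpow_le_rpow_of_exponent_ge hk hk1
        push_cast
        rw [hcast2, ← hbe]
        have : be n * n ≤ e * n := mul_le_mul_of_nonneg_right he hn0.le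
        nlinarith
      calc d * s ^ n ≤ (M * t ^ e) * (M * (kap n ^ n * t) ^ e) ^ n := by
            apply mul_le_mul hd h1 (by positivity) (by positivity)
        _ = M ^ (n + 1) * t ^ e * ((kap n ^ n * t) ^ e) ^ n := by rw [mul_pow]; ring
        _ ≤ M ^ (n + 1) * t ^ e * (kap n ^ (n * (n - 2)) * t ^ (e * n)) := by
            apply mul_le_mul_of_nonneg_left h3 (by positivity)
        _ = M ^ (n + 1) * (t ^ e * t ^ (e * n)) * kap n ^ (n * (n - 2)) := by ring
        _ = M ^ (n + 1) * t ^ (e * (n + 1)) * kap n ^ (n * (n - 2)) := by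
            rw [← Real.rpow_add ht]
            congr 3
            ring
    calc (n : ℝ) ^ (2 * n) * (6 * (n : ℝ) ^ 2) ^ n * (8 * n + 8) ^ n *
          (2 * n) ^ (n * (n - 1)) * (d * s ^ n) * P ^ (n - 1)
        ≤ (n : ℝ) ^ (2 * n) * (6 * (n : ℝ) ^ 2) ^ n * (8 * n + 8) ^ n *
          (2 * n) ^ (n * (n - 1)) * (M ^ (n + 1) * t ^ (e * (n + 1)) * kap n ^ (n * (n - 2))) *
            P ^ (n - 1) := by gcongr
      _ = (kap n ^ (n * (n - 2)) * ((n : ℝ) ^ (2 * n) * (6 * (n : ℝ) ^ 2) ^ n * (8 * n + 8) ^ n *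
          (2 * n) ^ (n * (n - 1)))) * (M ^ (n + 1) * t ^ (e * (n + 1)) * P ^ (n - 1)) := by ring
      _ ≤ (1152 * (n : ℝ) ^ 6) ^ n * (M ^ (n + 1) * t ^ (e * (n + 1)) * P ^ (n - 1)) := by
          apply mul_le_mul_of_nonneg_right (const_bound hn) (by positivity)
      _ ≤ (1152 * (n : ℝ) ^ 6) ^ (n + 1) * (M ^ (n + 1) * t ^ (e * (n + 1)) * P ^ (n - 1)) := by
          apply mul_le_mul_of_nonneg_right _ (by positivity)
          apply pow_le_pow_right₀ _ (by omega)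
          have : (1 : ℝ) ≤ (n : ℝ) ^ 6 := one_le_pow₀ (by linarith)
          linarith
      _ = (1152 * (n : ℝ) ^ 6 * M * t ^ (e - al n) * P ^ al n) ^ (n + 1) * t ^ (n - 1) := by
          rw [mul_pow (1152 * (n : ℝ) ^ 6 * M * t ^ (e - al n)) (P ^ al n),
            mul_pow (1152 * (n : ℝ) ^ 6 * M) (t ^ (e - al n)), mul_pow (1152 * (n : ℝ) ^ 6) M,
            hPp, ← htp]
          ring
  exact le_of_pow_le_pow_left₀ (by omega) hRHS0 hpow

end Pool.Agent.Helper34.QH
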