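import Pool.Agent.Helper34.QH.Defs

/-!
QH-3a: a convexly independent set in a rational hyperplane can be moved to `ℤⁿ`.
-/

set_option autoImplicit false

namespace Pool.Agent.Helper34.QH

open Module

private lemma slice_oth_empty (m : ℕ) : oth (∅ : Finset (Fin m → ℤ)) = ∅ := by
  ext x
  simp [oth, hull]

private lemma slice_toR_inj {m : ℕ} {x y : Fin m → ℤ} (h : toR x = toR y) : x = y := by
  funext i
  have := congrFun h i
  simpa [toR] using this

/-- Parametrisation of the kernel of an integer linear form. -/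
private lemma slice_param {n : ℕ} (u : Fin (n + 1) → ℤ) (hu : u ≠ 0) :
    ∃ (E : Matrix (Fin (n + 1)) (Fin n) ℤ) (R : Matrix (Fin n) (Fin (n + 1)) ℤ),
      R * E = 1 ∧ (∀ z, ∑ i, u i * (E.mulVec z) i = 0) ∧
        ∀ x : Fin (n + 1) → ℤ, ∑ i, u i * x i = 0 → E.mulVec (R.mulVec x) = x := by
  classical
  let U : (Fin (n + 1) → ℤ) →ₗ[ℤ] ℤ := ∑ i, u i • LinearMap.proj i
  have hU : ∀ x, U x = ∑ i, u i * x i := fun x => by simp [U]
  obtain ⟨i0, hi0⟩ : ∃ i, u i ≠ 0 := by
    by_contra h
    push Not at h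
    exact hu (funext h)
  obtain ⟨s, hs⟩ := Module.projective_lifting_property U.rangeRestrict
    (LinearMap.id : LinearMap.range U →ₗ[ℤ] LinearMap.range U) U.surjective_rangeRestrict
  have hs' : ∀ y, U.rangeRestrict (s y) = y := fun y => LinearMap.congr_fun hs y
  have hrr : Module.finrank ℤ (LinearMap.range U) = 1 := by
    apply le_antisymm
    · exact (Submodule.finrank_le _).trans (by simp)
    · have hne : Nontrivial (LinearMap.range U) := by
        refine ⟨⟨⟨U (Pi.single i0 1), LinearMap.mem_range_self _ _⟩, 0, fun h => ?_⟩⟩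
        have h1 := congrArg Subtype.val h
        simp only [ZeroMemClass.coe_zero] at h1
        rw [hU] at h1
        simp [Pi.single_apply] at h1
        exact hi0 h1
      exact Module.finrank_pos
  have hrk : Module.finrank ℤ (LinearMap.ker U) = n := by
    have h1 := Submodule.finrank_quotient_add_finrank (LinearMap.ker U)
    rw [LinearEquiv.finrank_eq U.quotKerEquivRange, hrr] at h1
    simp at h1
    omega
  let b := Module.finBasisOfFinrankEq ℤ (LinearMap.ker U) hrk
  let e : (Fin n → ℤ) ≃ₗ[ℤ] LinearMap.ker U := b.equivFun.symm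
  let p : (Fin (n + 1) → ℤ) →ₗ[ℤ] LinearMap.ker U :=
    LinearMap.codRestrict (LinearMap.ker U) (LinearMap.id - s ∘ₗ U.rangeRestrict) fun x => by
      rw [LinearMap.mem_ker]
      have h1 : U (s (U.rangeRestrict x)) = U x := congrArg Subtype.val (hs' (U.rangeRestrict x))
      rw [LinearMap.sub_apply, LinearMap.id_apply, LinearMap.comp_apply, map_sub, h1, sub_self]
  have hp : ∀ x : LinearMap.ker U, p x = x := fun x => by
    apply Subtype.ext
    have h0 : U.rangeRestrict (x : Fin (n + 1) → ℤ) = 0 := Subtype.ext (LinearMap.mem_ker.1 x.2)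
    simp [p, h0]
  let f : (Fin n → ℤ) →ₗ[ℤ] (Fin (n + 1) → ℤ) := (LinearMap.ker U).subtype ∘ₗ e.toLinearMap
  let r : (Fin (n + 1) → ℤ) →ₗ[ℤ] (Fin n → ℤ) := e.symm.toLinearMap ∘ₗ p
  have hrf : r ∘ₗ f = LinearMap.id := by
    apply LinearMap.ext
    intro z
    simp [r, f, hp]
  refine ⟨LinearMap.toMatrix' f, LinearMap.toMatrix' r, ?_, fun z => ?_, fun x hx => ?_⟩
  · rw [← LinearMap.toMatrix'_comp, hrf, LinearMap.toMatrix'_id]
  · rw [LinearMap.toMatrix'_mulVec, ← hU]
    exact LinearMap.mem_ker.1 (e z).2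
  · rw [LinearMap.toMatrix'_mulVec, LinearMap.toMatrix'_mulVec]
    have hx' : x ∈ LinearMap.ker U := by rw [LinearMap.mem_ker, hU]; exact hx
    have h1 : p x = ⟨x, hx'⟩ := hp ⟨x, hx'⟩
    simp [r, f, h1]

/-- A CI set in a rational hyperplane can be moved to `ℤⁿ`. -/
theorem slice_transport {n : ℕ} (V : Finset (Fin (n + 1) → ℤ)) (hV : CI V)
    (u : Fin (n + 1) → ℤ) (hu : u ≠ 0) (j : ℤ) (hj : ∀ v ∈ V, ∑ i, u i * v i = j) :
    ∃ V' : Finset (Fin n → ℤ), CI V' ∧ V'.card = V.card ∧ (oth V').ncard = (oth V).ncard := by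
  classical
  rcases V.eq_empty_or_nonempty with rfl | ⟨v0, hv0⟩
  · refine ⟨∅, fun v hv => by simp at hv, rfl, ?_⟩
    rw [slice_oth_empty, slice_oth_empty]
    simp
  obtain ⟨E, R, hRE, hE, hR⟩ := slice_param u hu
  set T : (Fin n → ℤ) → (Fin (n + 1) → ℤ) := fun z => E.mulVec z + v0 with hT
  have hTinj : Function.Injective T := by
    intro z z' h
    have h1 : E.mulVec z = E.mulVec z' := add_right_cancel h
    have h2 := congrArg R.mulVec h1
    rwa [Matrix.mulVec_mulVec, Matrix.mulVec_mulVec, hRE, Matrix.one_mulVec,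
      Matrix.one_mulVec] at h2
  have hTsurj : ∀ x, ∑ i, u i * x i = j → ∃ z, T z = x := by
    intro x hx
    refine ⟨R.mulVec (x - v0), ?_⟩
    have h1 : ∑ i, u i * (x - v0) i = 0 := by
      have h2 := hj v0 hv0
      simp only [Pi.sub_apply, mul_sub, Finset.sum_sub_distrib]
      rw [hx, h2, sub_self]
    simp only [hT]
    rw [hR _ h1, sub_add_cancel]
  -- the real extension
  let ER : Matrix (Fin (n + 1)) (Fin n) ℝ := E.map (Int.castRingHom ℝ)
  let RR : Matrix (Fin n) (Fin (n + 1)) ℝ := R.map (Int.castRingHom ℝ)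
  have hRRER : RR * ER = 1 := by
    simp only [RR, ER]
    rw [← Matrix.map_mul, hRE]
    simp
  let A : (Fin n → ℝ) →ᵃ[ℝ] (Fin (n + 1) → ℝ) :=
    (Matrix.mulVecLin ER).toAffineMap + AffineMap.const ℝ _ (toR v0)
  have hA : ∀ c, A c = ER.mulVec c + toR v0 := fun c => by simp [A]
  have hAinj : Function.Injective A := by
    intro z z' h
    rw [hA, hA] at h
    have h1 : ER.mulVec z = ER.mulVec z' := add_right_cancel h
    have h2 := congrArg RR.mulVec h1
    rwa [Matrix.mulVec_mulVec, Matrix.mulVec_mulVec, hRRER, Matrix.one_mulVec,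
      Matrix.one_mulVec] at h2
  have hAT : ∀ z, A (toR z) = toR (T z) := by
    intro z
    rw [hA]
    funext i
    have h1 := RingHom.map_mulVec (Int.castRingHom ℝ) E z i
    simp only [Int.coe_castRingHom] at h1
    simp only [Pi.add_apply, hT, toR, Int.cast_add]
    rw [h1]
    rfl
  have hhull : ∀ S : Finset (Fin n → ℤ), hull (S.image T) = A '' hull S := by
    intro S
    unfold hull
    rw [AffineMap.image_convexHull]
    congr 1
    ext x
    simp only [Finset.coe_image, Set.mem_image, Finset.mem_coe]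
    constructor
    · rintro ⟨y, ⟨z, hz, rfl⟩, rfl⟩
      exact ⟨toR z, ⟨z, hz, rfl⟩, hAT z⟩
    · rintro ⟨y, ⟨z, hz, rfl⟩, rfl⟩
      exact ⟨T z, ⟨z, hz, rfl⟩, (hAT z).symm⟩
  let V' : Finset (Fin n → ℤ) := V.preimage T hTinj.injOn
  have hV' : V'.image T = V := by
    ext x
    simp only [Finset.mem_image, V', Finset.mem_preimage]
    constructor
    · rintro ⟨z, hz, rfl⟩; exact hz
    · intro hx
      obtain ⟨z, hz⟩ := hTsurj x (hj x hx)
      exact ⟨z, by rwa [hz], hz⟩
  have hmem : ∀ z, z ∈ V' ↔ T z ∈ V := fun z => by simp [V']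
  have hlin : ∀ x ∈ hull V, ∑ i, (u i : ℝ) * x i = j := by
    intro x hx
    have hc : Convex ℝ {x : Fin (n + 1) → ℝ | ∑ i, (u i : ℝ) * x i = j} := by
      intro a ha b hb s t _ _ hst
      simp only [Set.mem_ofPred_eq] at *
      simp only [Pi.add_apply, Pi.smul_apply, smul_eq_mul]
      have : ∑ i, (u i : ℝ) * (s * a i + t * b i) =
          s * ∑ i, (u i : ℝ) * a i + t * ∑ i, (u i : ℝ) * b i := by
        rw [Finset.mul_sum, Finset.mul_sum, ← Finset.sum_add_distrib]
        exact Finset.sum_congr rfl fun i _ => by ring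
      rw [this, ha, hb, ← add_mul, hst, one_mul]
    have hsub : toR '' (V : Set (Fin (n + 1) → ℤ)) ⊆
        {x : Fin (n + 1) → ℝ | ∑ i, (u i : ℝ) * x i = j} := by
      rintro _ ⟨v, hv, rfl⟩
      have := hj v hv
      simp only [Set.mem_ofPred_eq, toR]
      exact_mod_cast this
    exact convexHull_min hsub hc hx
  refine ⟨V', fun v hv hcon => ?_, ?_, ?_⟩
  · have h1 : toR (T v) ∈ hull ((V'.erase v).image T) := by
      rw [hhull, ← hAT]
      exact Set.mem_image_of_mem _ hcon
    have h2 : (V'.erase v).image T = V.erase (T v) := by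
      rw [Finset.image_erase hTinj, hV']
    rw [h2] at h1
    exact hV (T v) ((hmem v).1 hv) h1
  · rw [← hV', Finset.card_image_of_injective _ hTinj]
  · have h1 : oth V = T '' oth V' := by
      ext x
      constructor
      · rintro ⟨hx1, hx2⟩
        have h3 := hlin _ hx1
        have h4 : ∑ i, u i * x i = j := by
          simp only [toR] at h3
          exact_mod_cast h3
        obtain ⟨z, hz⟩ := hTsurj x h4
        refine ⟨z, ⟨?_, ?_⟩, hz⟩
        · rw [← hV', hhull] at hx1
          obtain ⟨c, hc, hc'⟩ := hx1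
          rw [← hz, ← hAT] at hc'
          rwa [← hAinj hc']
        · rw [hmem, hz]; exact hx2
      · rintro ⟨z, ⟨hz1, hz2⟩, rfl⟩
        refine ⟨?_, ?_⟩
        · rw [← hV', hhull, ← hAT]
          exact Set.mem_image_of_mem _ hz1
        · rw [← hmem]; exact hz2
    rw [h1, Set.ncard_image_of_injective _ hTinj]

end Pool.Agent.Helper34.QH
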