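import Pool.Agent.Helper34.QH.Parity
import Pool.Agent.Helper34.QH.Slice

/-! Project QH (helper34), MP_735047_co, module QH-3b: slicing (helper82). -/

namespace Pool.Agent.Helper34.QH

open MeasureTheory


/-- Concavity of `x ^ a`, `0 ≤ a ≤ 1`, for finite sums. -/
theorem slicing_concave {ι : Type} (s : Finset ι) (f : ι → ℝ) (hf : ∀ i ∈ s, 0 ≤ f i) (a : ℝ)
    (ha0 : 0 ≤ a) (ha1 : a ≤ 1) (hs : s.Nonempty) :
    ∑ i ∈ s, f i ^ a ≤ (s.card : ℝ) ^ (1 - a) * (∑ i ∈ s, f i) ^ a := by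
  have hc : (0 : ℝ) < s.card := by exact_mod_cast hs.card_pos
  have h1 := (Real.concaveOn_rpow ha0 ha1).le_map_sum (t := s) (w := fun _ => 1 / (s.card : ℝ))
    (p := f) (fun _ _ => by positivity) (by
      rw [Finset.sum_const, nsmul_eq_mul]
      field_simp) (fun i hi => hf i hi)
  simp only [smul_eq_mul] at h1
  rw [← Finset.mul_sum, ← Finset.mul_sum,
    Real.mul_rpow (by positivity) (Finset.sum_nonneg hf), one_div,
    Real.inv_rpow hc.le] at h1
  have h2 : (s.card : ℝ) ^ (1 - a) = s.card * ((s.card : ℝ) ^ a)⁻¹ := by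
    rw [Real.rpow_sub hc, Real.rpow_one]
    rfl
  rw [h2, mul_assoc]
  have h3 := mul_le_mul_of_nonneg_left h1 hc.le
  rwa [← mul_assoc, mul_inv_cancel₀ hc.ne', one_mul] at h3

theorem slicing_lin {n : ℕ} (u : Fin n → ℤ) (x : Fin n → ℤ) :
    lin u (toR x) = ((∑ i, u i * x i : ℤ) : ℝ) := by
  simp [lin, toR]

theorem slicing_hull_plane {n : ℕ} (S : Finset (Fin n → ℤ)) (u : Fin n → ℤ) (j : ℤ)
    (hS : ∀ v ∈ S, ∑ i, u i * v i = j) {x : Fin n → ℝ} (hx : x ∈ hull S) : lin u x = j := by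
  have hl : IsLinearMap ℝ (fun x : Fin n → ℝ => lin u x) := by
    constructor
    · intro x y
      simp [lin, mul_add, Finset.sum_add_distrib]
    · intro c x
      simp only [lin, Pi.smul_apply, smul_eq_mul, Finset.mul_sum]
      exact Finset.sum_congr rfl fun i _ => by ring
  have hc : Convex ℝ {x : Fin n → ℝ | lin u x = (j : ℝ)} := convex_hyperplane hl _
  have hsub : hull S ⊆ {x : Fin n → ℝ | lin u x = (j : ℝ)} := by
    refine convexHull_min ?_ hc
    rintro _ ⟨v, hv, rfl⟩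
    show lin u (toR v) = (j : ℝ)
    rw [slicing_lin, hS v hv]
  exact hsub hx

theorem slicing_al_nonneg {n : ℕ} (hn : 1 ≤ n) : 0 ≤ al n := by
  have : (1 : ℝ) ≤ n := by exact_mod_cast hn
  unfold al
  apply div_nonneg <;> linarith

theorem slicing_al_le_one {n : ℕ} : al n ≤ 1 := by
  have : (0 : ℝ) ≤ n := Nat.cast_nonneg n
  unfold al
  rw [div_le_one (by linarith)]
  linarith

theorem slicing_one_sub_al {n : ℕ} : 1 - al n = 2 / ((n : ℝ) + 1) := by
  have : (0 : ℝ) ≤ n := Nat.cast_nonneg n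
  unfold al
  field_simp
  ring

theorem slicing {n : ℕ} (hn : 1 ≤ n) (V : Finset (Fin (n + 1) → ℤ)) (hV : CI V)
    (u : Fin (n + 1) → ℤ) (hu : u ≠ 0) (W : ℝ) (hW0 : 0 ≤ W)
    (hW : ∀ x ∈ V, ∀ y ∈ V, lin u (toR x) - lin u (toR y) ≤ W)
    (K Kmin A : ℝ) (hKmin : 1 ≤ Kmin) (hK : Kmin ≤ K) (hA : 0 ≤ A)
    (hB : ∀ K' : ℝ, Kmin ≤ K' → K' ≤ K → Bd n K' (A * K' ^ al n))
    (hk : ((oth V).ncard : ℝ) ≤ K) :
    (V.card : ℝ) ≤ A * (W + 1) ^ (2 / ((n : ℝ) + 1)) * (K + (W + 1) * Kmin) ^ al n := by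
  classical
  have ha0 := slicing_al_nonneg hn
  have ha1 := slicing_al_le_one (n := n)
  rcases V.eq_empty_or_nonempty with rfl | hne
  · simp only [Finset.card_empty, Nat.cast_zero]
    have h1 : 0 ≤ K + (W + 1) * Kmin := by
      have := mul_nonneg (show 0 ≤ W + 1 by linarith) (show 0 ≤ Kmin by linarith)
      linarith
    exact mul_nonneg (mul_nonneg hA (Real.rpow_nonneg (by linarith) _)) (Real.rpow_nonneg h1 _)
  let f : (Fin (n + 1) → ℤ) → ℤ := fun v => ∑ i, u i * v i
  let J := V.image f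
  have hJne : J.Nonempty := hne.image f
  let S : ℤ → Finset (Fin (n + 1) → ℤ) := fun j => V.filter fun v => f v = j
  have hSsub : ∀ j, S j ⊆ V := fun j => Finset.filter_subset _ _
  have hSf : ∀ j, ∀ v ∈ S j, ∑ i, u i * v i = j := fun j v hv => (Finset.mem_filter.1 hv).2
  -- the number of slices
  have hJcard : (J.card : ℝ) ≤ W + 1 := by
    obtain ⟨a, ha, hmin⟩ := J.exists_min_image id hJne
    obtain ⟨b, hb, hmax⟩ := J.exists_max_image id hJne
    have hsub : J ⊆ Finset.Icc a b := fun j hj => Finset.mem_Icc.2 ⟨hmin j hj, hmax j hj⟩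
    have h1 := Finset.card_le_card hsub
    rw [Int.card_Icc] at h1
    obtain ⟨x, hx, hxa⟩ := Finset.mem_image.1 ha
    obtain ⟨y, hy, hyb⟩ := Finset.mem_image.1 hb
    have h2 := hW y hy x hx
    rw [slicing_lin, slicing_lin] at h2
    have h3 : ((b : ℤ) : ℝ) - (a : ℝ) ≤ W := by
      rw [← hxa, ← hyb]
      exact h2
    have h4 : (J.card : ℤ) ≤ b + 1 - a := by
      have h5 : a ≤ b := hmin b hb
      omega
    have h5 : (J.card : ℝ) ≤ b + 1 - a := by exact_mod_cast h4
    linarith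
  -- the other points of the slices
  have hoth : ∀ j, oth (S j) ⊆ oth V := by
    intro j x hx
    refine ⟨hull_mono (hSsub j) hx.1, fun hxV => hx.2 ?_⟩
    refine Finset.mem_filter.2 ⟨hxV, ?_⟩
    have h1 := slicing_hull_plane (S j) u j (hSf j) hx.1
    rw [slicing_lin] at h1
    exact_mod_cast h1
  have hsum : ∑ j ∈ J, (oth (S j)).ncard ≤ (oth V).ncard := by
    have hfin : ∀ j, (oth (S j)).Finite := fun j => oth_finite _
    have h1 : ∑ j ∈ J, (oth (S j)).ncard = (J.biUnion fun j => (hfin j).toFinset).card := by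
      rw [Finset.card_biUnion]
      · refine Finset.sum_congr rfl fun j _ => ?_
        rw [Set.ncard_eq_toFinset_card _ (hfin j)]
      · intro i _ j _ hij
        refine Finset.disjoint_left.2 ?_
        intro x hx hx'
        rw [Set.Finite.mem_toFinset] at hx hx'
        apply hij
        have e1 := slicing_hull_plane (S i) u i (hSf i) hx.1
        have e2 := slicing_hull_plane (S j) u j (hSf j) hx'.1
        rw [e1] at e2
        exact_mod_cast e2
    rw [h1, Set.ncard_eq_toFinset_card _ (oth_finite V)]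
    refine Finset.card_le_card ?_
    intro x hx
    obtain ⟨j, _, hx⟩ := Finset.mem_biUnion.1 hx
    rw [Set.Finite.mem_toFinset] at hx ⊢
    exact hoth j hx
  -- bounds for the slices
  have hslice : ∀ j ∈ J, ((S j).card : ℝ) ≤ A * ((oth (S j)).ncard + Kmin) ^ al n := by
    intro j _
    obtain ⟨V', hV', hc, ho⟩ := slice_transport (S j) (hV.subset (hSsub j)) u hu j (hSf j)
    have hkj : ((oth (S j)).ncard : ℝ) ≤ K := by
      refine le_trans ?_ hk
      exact_mod_cast Set.ncard_le_ncard (hoth j) (oth_finite V)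
    have h1 := hB (max ((oth (S j)).ncard : ℝ) Kmin) (le_max_right _ _) (max_le hkj hK) V' hV'
      (by rw [ho]; exact le_max_left _ _)
    rw [hc] at h1
    refine h1.trans (mul_le_mul_of_nonneg_left ?_ hA)
    have h0 : (0 : ℝ) ≤ (oth (S j)).ncard := Nat.cast_nonneg _
    refine Real.rpow_le_rpow (le_trans h0 (le_max_left _ _)) ?_ ha0
    apply max_le <;> linarith
  have hcard : (V.card : ℝ) = ∑ j ∈ J, ((S j).card : ℝ) := by
    rw [← Nat.cast_sum]
    congr 1
    exact Finset.card_eq_sum_card_image f V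
  rw [hcard]
  refine (Finset.sum_le_sum hslice).trans ?_
  rw [← Finset.mul_sum, mul_assoc]
  refine mul_le_mul_of_nonneg_left ?_ hA
  refine (slicing_concave J _ (fun j _ => by positivity) (al n) ha0 ha1 hJne).trans ?_
  rw [slicing_one_sub_al]
  refine mul_le_mul (Real.rpow_le_rpow (Nat.cast_nonneg _) hJcard (by positivity)) ?_
    (Real.rpow_nonneg (Finset.sum_nonneg fun j _ => by positivity) _)
    (Real.rpow_nonneg (by linarith) _)
  refine Real.rpow_le_rpow (Finset.sum_nonneg fun j _ => by positivity) ?_ ha0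
  rw [Finset.sum_add_distrib, Finset.sum_const, nsmul_eq_mul]
  have h1 : (∑ j ∈ J, ((oth (S j)).ncard : ℝ)) ≤ K := by
    refine le_trans ?_ hk
    exact_mod_cast hsum
  have h2 : (J.card : ℝ) * Kmin ≤ (W + 1) * Kmin :=
    mul_le_mul_of_nonneg_right hJcard (by linarith)
  linarith

end Pool.Agent.Helper34.QH
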