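import Pool.Agent.Helper34.QH.Parity
import Pool.Agent.Helper34.QH.Slicing
import Pool.Agent.Helper34.QH.Count
import Pool.Agent.Helper34.QH.Core
import Pool.Agent.Helper34.QH.Root

/-! Project QH (helper34), MP_735047_co, module QH-7d: the numbers `d` and `s` of a class. -/

namespace Pool.Agent.Helper34.QH

open MeasureTheory Pointwise

/-- The data attached to a class `S ⊆ V`. -/
structure CapData {n : ℕ} (V S : Finset (Fin n → ℤ)) (o : Fin n → ℝ)
    (w : Fin n → Fin n → ℝ) (φ : (Fin n → ℤ) → ((Fin n → ℝ) →ₗ[ℝ] ℝ))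
    (h : (Fin n → ℤ) → ℝ) : Prop where
  ci : CI V
  sub : S ⊆ V
  pos : Pos (hull V) o w
  o_mem : o ∈ hull V
  one : ∀ v ∈ S, φ v (toR v - o) = 1
  le : ∀ v ∈ S, ∀ x ∈ hull V, φ v (x - o) ≤ 1
  hpos : ∀ v ∈ S, 0 < h v ∧ h v ≤ 1 / n
  wide : ∀ v ∈ S, Wide (cap (hull V) o (φ v) (h v)) (om n)

private lemma F_pos' (n : ℕ) : 0 < F n := by
  unfold F
  have : 0 < Real.sqrt (4 / 3) := Real.sqrt_pos.mpr (by norm_num)
  positivity

private lemma F_ge_one' (n : ℕ) : 1 ≤ F n := by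
  unfold F
  have h1 : 1 ≤ Real.sqrt (4 / 3) := by
    rw [show (1 : ℝ) = Real.sqrt 1 by simp]
    exact Real.sqrt_le_sqrt (by norm_num)
  have h2 : 1 ≤ Real.sqrt (4 / 3) ^ n := one_le_pow₀ h1
  have h3 : (1 : ℝ) ≤ 7 * ((n : ℝ) + 1) ^ 2 := by nlinarith [sq_nonneg (n : ℝ), Nat.cast_nonneg (α := ℝ) n]
  nlinarith

private lemma kap_pos' {n : ℕ} (hn : 2 ≤ n) : 0 < kap n := by
  unfold kap
  have : (2 : ℝ) ≤ n := by exact_mod_cast hn
  apply div_pos (by linarith)
  apply mul_pos <;> linarith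

private lemma kap_le_one' {n : ℕ} (hn : 2 ≤ n) : kap n ≤ 1 := by
  unfold kap
  have : (2 : ℝ) ≤ n := by exact_mod_cast hn
  rw [div_le_one (by apply mul_pos <;> linarith)]
  nlinarith

/-- `κ ω ≥ n F`. -/
private lemma kap_om {n : ℕ} (hn : 2 ≤ n) : (n : ℝ) * F n ≤ kap n * om n := by
  unfold kap om
  have h2 : (2 : ℝ) ≤ n := by exact_mod_cast hn
  have hF := F_pos' n
  rw [div_mul_eq_mul_div, le_div_iff₀ (by apply mul_pos <;> linarith)]
  have : (2 * (n : ℝ) + 1) * (n - 1) ≤ 2 * n * (n + 1) := by nlinarith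
  calc (n : ℝ) * F n * ((2 * (n : ℝ) + 1) * (n - 1)) ≤ (n : ℝ) * F n * (2 * n * (n + 1)) := by
        apply mul_le_mul_of_nonneg_left this (by positivity)
    _ = ((n : ℝ) + 1) * (2 * (n : ℝ) ^ 2 * F n) := by ring

private lemma om_ge {n : ℕ} (hn : 1 ≤ n) : (n : ℝ) * F n ≤ om n := by
  unfold om
  have h2 : (1 : ℝ) ≤ n := by exact_mod_cast hn
  have hF := F_pos' n
  nlinarith [mul_nonneg (mul_nonneg (by linarith : (0 : ℝ) ≤ n) (by linarith : (0 : ℝ) ≤ (n : ℝ) - 1)) hF.le]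

private lemma om_pos {n : ℕ} (hn : 1 ≤ n) : 0 < om n := by
  have h2 : (1 : ℝ) ≤ n := by exact_mod_cast hn
  have := om_ge hn
  have hF := F_pos' n
  nlinarith

private lemma wide_mono21 {n : ℕ} {K : Set (Fin n → ℝ)} {w w' : ℝ} (h : Wide K w) (hw : w' ≤ w) :
    Wide K w' := fun u hu => by
  obtain ⟨x, hx, y, hy, hxy⟩ := h u hu
  exact ⟨x, hx, y, hy, hw.trans hxy⟩

/-- `(1+1/n)^n ≤ 3`. -/
private lemma one_add_pow_le {n : ℕ} (hn : 1 ≤ n) : (1 + 1 / (n : ℝ)) ^ n ≤ 3 := by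
  have h2 : (1 : ℝ) ≤ n := by exact_mod_cast hn
  have h3 : 1 + 1 / (n : ℝ) ≤ Real.exp (1 / n) := by
    have := Real.add_one_le_exp (1 / (n : ℝ)); linarith
  calc (1 + 1 / (n : ℝ)) ^ n ≤ (Real.exp (1 / n)) ^ n := by gcongr
    _ = Real.exp 1 := by
        rw [← Real.exp_nat_mul]; congr 1; field_simp
    _ ≤ 3 := by
        have := Real.exp_one_lt_d9; linarith

private lemma cap_eq {n : ℕ} (P : Set (Fin n → ℝ)) (o : Fin n → ℝ)
    (φ : (Fin n → ℝ) →ₗ[ℝ] ℝ) (h : ℝ) : cap P o φ h = P ∩ {x | 1 - h + φ o ≤ φ x} := by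
  ext x
  simp only [cap, Set.mem_setOf_eq, Set.mem_inter_iff, map_sub]
  constructor
  · rintro ⟨a, b⟩; exact ⟨a, by linarith⟩
  · rintro ⟨a, b⟩; exact ⟨a, by linarith⟩

private lemma cap_convex {n : ℕ} {P : Set (Fin n → ℝ)} (hc : Convex ℝ P) (o : Fin n → ℝ)
    (φ : (Fin n → ℝ) →ₗ[ℝ] ℝ) (h : ℝ) : Convex ℝ (cap P o φ h) := by
  rw [cap_eq]
  exact hc.inter (convex_halfSpace_ge φ.isLinear _)

private lemma cap_compact {n : ℕ} {P : Set (Fin n → ℝ)} (hk : IsCompact P) (o : Fin n → ℝ)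
    (φ : (Fin n → ℝ) →ₗ[ℝ] ℝ) (h : ℝ) : IsCompact (cap P o φ h) := by
  rw [cap_eq]
  exact hk.inter_right (isClosed_le continuous_const (LinearMap.continuous_of_finiteDimensional φ))

private lemma opp_eq {n : ℕ} (κ : ℝ) (D : Set (Fin n → ℝ)) (y : Fin n → ℝ) :
    opp κ D y = (fun x => ((1 + κ) • y) + x) '' ((-κ) • D) := by
  ext z
  simp only [opp, Set.mem_setOf_eq, Set.mem_image, Set.mem_smul_set]
  constructor
  · rintro ⟨x, hx, rfl⟩
    refine ⟨(-κ) • x, ⟨x, hx, rfl⟩, ?_⟩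
    module
  · rintro ⟨_, ⟨x, hx, rfl⟩, rfl⟩
    refine ⟨x, hx, ?_⟩
    module

private lemma opp_convex {n : ℕ} (κ : ℝ) {D : Set (Fin n → ℝ)} (hc : Convex ℝ D)
    (y : Fin n → ℝ) : Convex ℝ (opp κ D y) := by
  rw [opp_eq]
  exact (hc.smul _).translate _

private lemma opp_compact {n : ℕ} (κ : ℝ) {D : Set (Fin n → ℝ)} (hk : IsCompact D)
    (y : Fin n → ℝ) : IsCompact (opp κ D y) := by
  rw [opp_eq]
  exact (hk.smul (-κ)).image (continuous_const.add continuous_id)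

private lemma opp_vol {n : ℕ} {κ : ℝ} (hκ : 0 ≤ κ) (D : Set (Fin n → ℝ)) (y : Fin n → ℝ) :
    volume.real (opp κ D y) = κ ^ n * volume.real D := by
  rw [opp_eq]
  unfold Measure.real
  rw [Set.image_add_left, measure_preimage_add, Measure.addHaar_smul, ENNReal.toReal_mul]
  congr 1
  rw [ENNReal.toReal_ofReal (abs_nonneg _)]
  simp [abs_pow, abs_of_nonneg hκ]

private lemma lin_sub21 {n : ℕ} (u : Fin n → ℤ) (x y : Fin n → ℝ) :
    lin u x - lin u y = ∑ i, (u i : ℝ) * (x i - y i) := by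
  unfold lin
  rw [← Finset.sum_sub_distrib]
  apply Finset.sum_congr rfl
  intro i _; ring

private lemma lin_opp {n : ℕ} (u : Fin n → ℤ) (κ : ℝ) (x x' y : Fin n → ℝ) :
    lin u (y - κ • (x - y)) - lin u (y - κ • (x' - y)) = κ * (lin u x' - lin u x) := by
  rw [lin_sub21, lin_sub21, Finset.mul_sum]
  apply Finset.sum_congr rfl
  intro i _
  simp only [Pi.sub_apply, Pi.smul_apply, smul_eq_mul]
  ring

private lemma opp_wide {n : ℕ} {κ w : ℝ} (hκ : 0 ≤ κ) {D : Set (Fin n → ℝ)} (hW : Wide D w)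
    (y : Fin n → ℝ) : Wide (opp κ D y) (κ * w) := fun u hu => by
  obtain ⟨x, hx, x', hx', h⟩ := hW u hu
  refine ⟨_, ⟨x', hx', rfl⟩, _, ⟨x, hx, rfl⟩, ?_⟩
  rw [lin_opp]
  exact mul_le_mul_of_nonneg_left h hκ

/-- Other points of a set of vertices contained in a wide compact convex set. -/
private lemma oth_le {n : ℕ} (hn : 1 ≤ n) (T : Finset (Fin n → ℤ))
    (K : Set (Fin n → ℝ)) (hc : Convex ℝ K) (hk : IsCompact K) (hW : Wide K (n * F n))
    (hT : ∀ v ∈ T, toR v ∈ K) : ((oth T).ncard : ℝ) ≤ 3 * volume.real K := by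
  have h1 : ((oth T).ncard : ℝ) ≤ ((pts K).ncard : ℝ) := by
    exact_mod_cast oth_le_pts T K hc hk.isBounded hT
  have h2 := count_le hn K hc hk hW
  have h3 : (1 + 1 / (n : ℝ)) ^ n * volume.real K ≤ 3 * volume.real K :=
    mul_le_mul_of_nonneg_right (one_add_pow_le hn) measureReal_nonneg
  linarith

private lemma al_nonneg' {n : ℕ} (hn : 1 ≤ n) : 0 ≤ al n := by
  unfold al
  have h2 : (1 : ℝ) ≤ n := by exact_mod_cast hn
  apply div_nonneg <;> linarith

private lemma al_le_one' (n : ℕ) : al n ≤ 1 := by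
  unfold al
  rw [div_le_one (by positivity)]
  linarith

private lemma be_le_al {n : ℕ} (hn : 1 ≤ n) : be n ≤ al n := by
  unfold be al
  have h2 : (1 : ℝ) ≤ n := by exact_mod_cast hn
  rw [div_le_div_iff₀ (by linarith) (by linarith)]
  nlinarith

private lemma be_succ (n : ℕ) : be (n + 1) = al n := by
  unfold be al
  push_cast
  congr 1
  ring

private lemma be_sub_al {n : ℕ} (hn : 1 ≤ n) : be n - al n = -ga n := by
  unfold be al ga
  have h2 : (1 : ℝ) ≤ n := by exact_mod_cast hn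
  have : (n : ℝ) ≠ 0 := by positivity
  have : (n : ℝ) + 1 ≠ 0 := by positivity
  field_simp
  ring

/-- `(c x)^e ≤ c x^e` for `c ≥ 1`, `0 ≤ e ≤ 1`. -/
private lemma mul_rpow_le {c x e : ℝ} (hc : 1 ≤ c) (hx : 0 ≤ x) (he1 : e ≤ 1) :
    (c * x) ^ e ≤ c * x ^ e := by
  rw [Real.mul_rpow (by linarith) hx]
  apply mul_le_mul_of_nonneg_right _ (Real.rpow_nonneg hx _)
  calc c ^ e ≤ c ^ (1 : ℝ) := Real.rpow_le_rpow_of_exponent_le hc he1
    _ = c := Real.rpow_one c

theorem class_zero {n : ℕ} (hn : 2 ≤ n) (V S : Finset (Fin n → ℤ)) (o : Fin n → ℝ)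
    (w : Fin n → Fin n → ℝ) (φ : (Fin n → ℤ) → ((Fin n → ℝ) →ₗ[ℝ] ℝ))
    (h : (Fin n → ℤ) → ℝ) (hD : CapData V S o w φ h) (t a : ℝ) (ht : 0 < t) (ha : 0 ≤ a)
    (hv : ∀ v ∈ S, t ≤ volume.real (cap (hull V) o (φ v) (h v)) ∧
      volume.real (cap (hull V) o (φ v) (h v)) ≤ 3 * t)
    (hB : Bd n (9 * t) (a * (9 * t) ^ al n))
    (hB' : Bd n (9 * (kap n ^ n * t)) (a * (9 * (kap n ^ n * t)) ^ al n)) :
    (S.card : ℝ) ≤ 10 ^ 5 * (n : ℝ) ^ 6 * a * volume.real (hull V) ^ al n := by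
  have hn1 : 1 ≤ n := by omega
  have hk := hull_compact V
  have hc : Convex ℝ (hull V) := convex_convexHull ℝ _
  have hkp := kap_pos' hn
  have hal0 := al_nonneg' hn1
  have hal1 := al_le_one' n
  have hkt : 0 < kap n ^ n * t := by positivity
  have hcore := fat_core (hull V) o S toR φ h hn hc hk w hD.pos hD.o_mem
    (fun i hi => subset_convexHull ℝ _ ⟨i, hD.sub hi, rfl⟩) hD.one hD.le hD.hpos t ht
    (fun i hi => (hv i hi).1) (a * (9 * t) ^ al n) (a * (9 * (kap n ^ n * t)) ^ al n)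
    (by positivity) (by positivity) ?_ ?_
  · have hroot := core_root hn (S.card : ℝ) t (volume.real (hull V)) (a * (9 * t) ^ al n)
      (a * (9 * (kap n ^ n * t)) ^ al n) (9 * a) (al n) (by positivity) ht measureReal_nonneg
      (by positivity) (be_le_al hn1) (by positivity) (by positivity) ?_ ?_ hcore
    · rw [sub_self, Real.rpow_zero] at hroot
      have hvol : 0 ≤ volume.real (hull V) ^ al n := Real.rpow_nonneg measureReal_nonneg _
      have h6 : 0 ≤ (n : ℝ) ^ 6 * a * volume.real (hull V) ^ al n := by positivity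
      nlinarith
    · have := mul_rpow_le (c := 9) (x := t) (e := al n) (by norm_num) ht.le hal1
      nlinarith [mul_le_mul_of_nonneg_left this ha]
    · have := mul_rpow_le (c := 9) (x := kap n ^ n * t) (e := al n) (by norm_num) hkt.le hal1
      nlinarith [mul_le_mul_of_nonneg_left this ha]
  · intro b hb T hT hTc
    apply hB T (hD.ci.subset (hT.trans hD.sub))
    have := oth_le hn1 T _ (cap_convex hc o (φ b) (h b)) (cap_compact hk o (φ b) (h b))
      (wide_mono21 (hD.wide b hb) (om_ge hn1)) hTc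
    linarith [(hv b hb).2]
  · intro b hb y hy T hT hTc
    apply hB' T (hD.ci.subset (hT.trans hD.sub))
    have := oth_le hn1 T _ (opp_convex (kap n) (cap_convex hc o (φ b) (h b)) y)
      (opp_compact (kap n) (cap_compact hk o (φ b) (h b)) y)
      (wide_mono21 (opp_wide hkp.le (hD.wide b hb) y) (kap_om hn)) hTc
    rw [opp_vol hkp.le] at this
    have h3 := mul_le_mul_of_nonneg_left (hv b hb).2 (pow_nonneg hkp.le n)
    nlinarith

theorem class_thin {n : ℕ} (hn : 1 ≤ n) (V S : Finset (Fin (n + 1) → ℤ)) (o : Fin (n + 1) → ℝ)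
    (w : Fin (n + 1) → Fin (n + 1) → ℝ) (φ : (Fin (n + 1) → ℤ) → ((Fin (n + 1) → ℝ) →ₗ[ℝ] ℝ))
    (h : (Fin (n + 1) → ℤ) → ℝ) (hD : CapData V S o w φ h) (t A : ℝ) (ht : 0 < t)
    (hA : 0 ≤ A) (hl : ell (n + 1) ≤ kap (n + 1) ^ (n + 1) * t)
    (hv : ∀ v ∈ S, t ≤ volume.real (cap (hull V) o (φ v) (h v)) ∧
      volume.real (cap (hull V) o (φ v) (h v)) ≤ 2 * t)
    (hthin : ∀ v ∈ S, ∃ u : Fin (n + 1) → ℤ, u ≠ 0 ∧
        ∀ x ∈ cap (hull V) o (φ v) (h v), ∀ y ∈ cap (hull V) o (φ v) (h v),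
          lin u x - lin u y ≤ 2 * om (n + 1))
    (hB : ∀ K' : ℝ, 1 ≤ K' → Bd n K' (A * K' ^ al n)) :
    (S.card : ℝ) ≤ 10 ^ 4 * ((n : ℝ) + 1) ^ 6 * (A * ell (n + 1) ^ (2 / ((n : ℝ) + 1))) *
      t ^ (-ga (n + 1)) * volume.real (hull V) ^ al (n + 1) := by
  have hn2 : 2 ≤ n + 1 := by omega
  have hn1 : 1 ≤ n + 1 := by omega
  have hk := hull_compact V
  have hc : Convex ℝ (hull V) := convex_convexHull ℝ _
  have hkp := kap_pos' hn2
  have hk1 := kap_le_one' hn2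
  have hal0 := al_nonneg' hn
  have hal1 := al_le_one' n
  have hom := om_pos hn1
  have hell : ell (n + 1) = 2 * om (n + 1) + 1 := rfl
  have hell1 : 1 ≤ ell (n + 1) := by rw [hell]; linarith
  have hkt : 0 < kap (n + 1) ^ (n + 1) * t := by positivity
  have hkt' : kap (n + 1) ^ (n + 1) * t ≤ t := by
    have : kap (n + 1) ^ (n + 1) ≤ 1 := pow_le_one₀ hkp.le hk1
    nlinarith
  have hE0 : 0 ≤ ell (n + 1) ^ (2 / ((n : ℝ) + 1)) := Real.rpow_nonneg (by linarith) _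
  have hAE : 0 ≤ A * ell (n + 1) ^ (2 / ((n : ℝ) + 1)) := mul_nonneg hA hE0
  have hcore := fat_core (hull V) o S toR φ h hn2 hc hk w hD.pos hD.o_mem
    (fun i hi => subset_convexHull ℝ _ ⟨i, hD.sub hi, rfl⟩) hD.one hD.le hD.hpos t ht
    (fun i hi => (hv i hi).1)
    (A * ell (n + 1) ^ (2 / ((n : ℝ) + 1)) * (7 * t) ^ al n)
    (A * ell (n + 1) ^ (2 / ((n : ℝ) + 1)) * (7 * (kap (n + 1) ^ (n + 1) * t)) ^ al n)
    (by positivity) (by positivity) ?_ ?_
  · have hroot := core_root hn2 (S.card : ℝ) t (volume.real (hull V))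
      (A * ell (n + 1) ^ (2 / ((n : ℝ) + 1)) * (7 * t) ^ al n)
      (A * ell (n + 1) ^ (2 / ((n : ℝ) + 1)) * (7 * (kap (n + 1) ^ (n + 1) * t)) ^ al n)
      (7 * (A * ell (n + 1) ^ (2 / ((n : ℝ) + 1)))) (be (n + 1)) (by positivity) ht
      measureReal_nonneg (by positivity) le_rfl (by positivity) (by positivity) ?_ ?_ hcore
    · rw [be_sub_al hn1] at hroot
      push_cast at hroot
      have hvol : 0 ≤ volume.real (hull V) ^ al (n + 1) := Real.rpow_nonneg measureReal_nonneg _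
      have htg : 0 ≤ t ^ (-ga (n + 1)) := Real.rpow_nonneg ht.le _
      have h6 : 0 ≤ ((n : ℝ) + 1) ^ 6 * (A * ell (n + 1) ^ (2 / ((n : ℝ) + 1))) *
          t ^ (-ga (n + 1)) * volume.real (hull V) ^ al (n + 1) := by positivity
      nlinarith
    · rw [be_succ]
      have := mul_rpow_le (c := 7) (x := t) (e := al n) (by norm_num) ht.le hal1
      nlinarith [mul_le_mul_of_nonneg_left this hAE]
    · rw [be_succ]
      have := mul_rpow_le (c := 7) (x := kap (n + 1) ^ (n + 1) * t) (e := al n) (by norm_num)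
        hkt.le hal1
      nlinarith [mul_le_mul_of_nonneg_left this hAE]
  · intro b hb T hT hTc
    have h1 := oth_le hn1 T _ (cap_convex hc o (φ b) (h b)) (cap_compact hk o (φ b) (h b))
      (wide_mono21 (hD.wide b hb) (om_ge hn1)) hTc
    obtain ⟨u, hu, hthu⟩ := hthin b hb
    have h2 := slicing hn T (hD.ci.subset (hT.trans hD.sub)) u hu (2 * om (n + 1))
      (by positivity) (fun x hx y hy => hthu _ (hTc x hx) _ (hTc y hy)) (6 * t) 1 A le_rfl
      (by linarith) hA (fun K' hK' _ => hB K' hK') (by linarith [(hv b hb).2])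
    refine h2.trans ?_
    rw [← hell]
    apply mul_le_mul_of_nonneg_left _ hAE
    apply Real.rpow_le_rpow (by positivity) (by linarith) hal0
  · intro b hb y hy T hT hTc
    have h1 := oth_le hn1 T _ (opp_convex (kap (n + 1)) (cap_convex hc o (φ b) (h b)) y)
      (opp_compact (kap (n + 1)) (cap_compact hk o (φ b) (h b)) y)
      (wide_mono21 (opp_wide hkp.le (hD.wide b hb) y) (kap_om hn2)) hTc
    rw [opp_vol hkp.le] at h1
    have h3 := mul_le_mul_of_nonneg_left (hv b hb).2 (pow_nonneg hkp.le (n + 1))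
    obtain ⟨u, hu, hthu⟩ := hthin b hb
    have h2 := slicing hn T (hD.ci.subset (hT.trans hD.sub)) u hu (2 * om (n + 1))
      (by positivity) (fun x hx x' hx' => by
        obtain ⟨z, hz, hxz⟩ := hTc x hx
        obtain ⟨z', hz', hxz'⟩ := hTc x' hx'
        rw [hxz, hxz', lin_opp]
        have h4 := hthu z' hz' z hz
        calc kap (n + 1) * (lin u z' - lin u z) ≤ kap (n + 1) * (2 * om (n + 1)) :=
              mul_le_mul_of_nonneg_left h4 hkp.le
          _ ≤ 1 * (2 * om (n + 1)) := mul_le_mul_of_nonneg_right hk1 (by positivity)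
          _ = 2 * om (n + 1) := one_mul _)
      (6 * (kap (n + 1) ^ (n + 1) * t)) 1 A le_rfl
      (by linarith) hA (fun K' hK' _ => hB K' hK') (by nlinarith)
    refine h2.trans ?_
    rw [← hell]
    apply mul_le_mul_of_nonneg_left _ hAE
    apply Real.rpow_le_rpow (by positivity) (by linarith) hal0

end Pool.Agent.Helper34.QH
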