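import Pool.Agent.Helper34.QH.Defs

/-! Project QH (helper34), MP_735047_co, module QH-7b: the choice of the cap height (helper82). -/

namespace Pool.Agent.Helper34.QH

open MeasureTheory

theorem height_cap_measurable {n : ℕ} (P : Set (Fin n → ℝ)) (hk : IsCompact P)
    (o : Fin n → ℝ) (φ : (Fin n → ℝ) →ₗ[ℝ] ℝ) (h : ℝ) : MeasurableSet (cap P o φ h) := by
  have hφ : Continuous φ := LinearMap.continuous_of_finiteDimensional φ
  have h1 : IsClosed {x : Fin n → ℝ | 1 - h ≤ φ (x - o)} :=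
    isClosed_le continuous_const (hφ.comp (continuous_id.sub continuous_const))
  exact hk.measurableSet.inter h1.measurableSet

theorem height_cap_ne_top {n : ℕ} (P : Set (Fin n → ℝ)) (hk : IsCompact P)
    (o : Fin n → ℝ) (φ : (Fin n → ℝ) →ₗ[ℝ] ℝ) (h : ℝ) : volume (cap P o φ h) ≠ ⊤ :=
  ne_top_of_le_ne_top hk.measure_ne_top (measure_mono fun _ hx => hx.1)

/-- Scaling of volumes: if `D'` contains the image of `D` under the homothety with centre `a` and
ratio `θ`, then `θ ^ n vol D ≤ vol D'`. -/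
theorem height_scale {n : ℕ} (D D' : Set (Fin n → ℝ)) (a : Fin n → ℝ) (θ : ℝ) (hθ : 0 ≤ θ)
    (hD' : volume D' ≠ ⊤) (h : ∀ x ∈ D, a + θ • (x - a) ∈ D') :
    θ ^ n * volume.real D ≤ volume.real D' := by
  have h1 : (AffineMap.homothety a θ : (Fin n → ℝ) →ᵃ[ℝ] (Fin n → ℝ)) '' D ⊆ D' := by
    rintro _ ⟨x, hx, rfl⟩
    rw [AffineMap.homothety_apply, vsub_eq_sub, vadd_eq_add, add_comm]
    exact h x hx
  have h2 : volume.real ((AffineMap.homothety a θ : (Fin n → ℝ) →ᵃ[ℝ] (Fin n → ℝ)) '' D) =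
      θ ^ n * volume.real D := by
    rw [Measure.real, Measure.addHaar_image_homothety, ENNReal.toReal_mul,
      ENNReal.toReal_ofReal (abs_nonneg _), Module.finrank_fin_fun, abs_of_nonneg (by positivity)]
    rfl
  rw [← h2]
  exact measureReal_mono h1 hD'

/-- Volumes of the caps tend to zero. -/
theorem height_tendsto {n : ℕ} (P : Set (Fin n → ℝ)) (hk : IsCompact P)
    (o : Fin n → ℝ) (a : Fin n → ℝ) (φ : (Fin n → ℝ) →ₗ[ℝ] ℝ) (h1 : φ (a - o) = 1)
    (hle : ∀ x ∈ P, φ (x - o) ≤ 1)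
    (h : ℕ → ℝ) (hanti : Antitone h) (hlim : Filter.Tendsto h Filter.atTop (nhds 0)) :
    Filter.Tendsto (fun i => volume.real (cap P o φ (h i))) Filter.atTop (nhds 0) := by
  have hanti' : Antitone fun i => cap P o φ (h i) := by
    intro i j hij x hx
    exact ⟨hx.1, (sub_le_sub_left (hanti hij) 1).trans hx.2⟩
  have h2 := tendsto_measure_iInter_atTop (μ := (volume : Measure (Fin n → ℝ)))
    (s := fun i => cap P o φ (h i))
    (fun i => (height_cap_measurable P hk o φ (h i)).nullMeasurableSet) hanti'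
    ⟨0, height_cap_ne_top P hk o φ (h 0)⟩
  have h3 : volume (⋂ i, cap P o φ (h i)) = 0 := by
    have hsub : (⋂ i, cap P o φ (h i)) ⊆
        ((AffineSubspace.mk' a (LinearMap.ker φ) : AffineSubspace ℝ (Fin n → ℝ)) :
          Set (Fin n → ℝ)) := by
      intro x hx
      have h4 : ∀ i, 1 - h i ≤ φ (x - o) := fun i => (Set.mem_iInter.1 hx i).2
      have h5 : Filter.Tendsto (fun i => 1 - h i) Filter.atTop (nhds (1 - 0)) :=
        tendsto_const_nhds.sub hlim
      rw [sub_zero] at h5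
      have h6 : 1 ≤ φ (x - o) := le_of_tendsto h5 (Filter.Eventually.of_forall h4)
      have h7 : φ (x - o) ≤ 1 := hle x (Set.mem_iInter.1 hx 0).1
      rw [SetLike.mem_coe, AffineSubspace.mem_mk', LinearMap.mem_ker, vsub_eq_sub]
      have h8 : x - a = (x - o) - (a - o) := by abel
      rw [h8, map_sub, h1]
      linarith
    refine measure_mono_null hsub (Measure.addHaar_affineSubspace _ _ ?_)
    intro htop
    have h4 := congrArg AffineSubspace.direction htop
    rw [AffineSubspace.direction_mk', AffineSubspace.direction_top] at h4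
    have h5 : a - o ∈ LinearMap.ker φ := by rw [h4]; trivial
    rw [LinearMap.mem_ker, h1] at h5
    exact one_ne_zero h5
  rw [h3] at h2
  have h4 := (ENNReal.tendsto_toReal ENNReal.zero_ne_top).comp h2
  rw [ENNReal.toReal_zero] at h4
  exact h4

theorem height_lin_homothety {n : ℕ} (u : Fin n → ℤ) (a x y : Fin n → ℝ) (θ : ℝ) :
    lin u (a + θ • (x - a)) - lin u (a + θ • (y - a)) = θ * (lin u x - lin u y) := by
  simp only [lin, Pi.add_apply, Pi.smul_apply, Pi.sub_apply, smul_eq_mul]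
  rw [← Finset.sum_sub_distrib, ← Finset.sum_sub_distrib, Finset.mul_sum]
  exact Finset.sum_congr rfl fun i _ => by ring

theorem height_phi_homothety {n : ℕ} (φ : (Fin n → ℝ) →ₗ[ℝ] ℝ) (a o x : Fin n → ℝ) (θ : ℝ)
    (h1 : φ (a - o) = 1) : φ (a + θ • (x - a) - o) = 1 + θ * (φ (x - o) - 1) := by
  have h2 : a + θ • (x - a) - o = (a - o) + θ • ((x - o) - (a - o)) := by
    rw [sub_sub_sub_cancel_right]; abel
  rw [h2, map_add, map_smul, map_sub φ (x - o) (a - o), h1, smul_eq_mul]

theorem exists_height {n : ℕ} (hn : 2 ≤ n) (P : Set (Fin n → ℝ)) (hc : Convex ℝ P)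
    (hk : IsCompact P) (o : Fin n → ℝ) (w : Fin n → Fin n → ℝ) (hp : Pos P o w) (ho : o ∈ P)
    (a : Fin n → ℝ) (ha : a ∈ P) (φ : (Fin n → ℝ) →ₗ[ℝ] ℝ) (h1 : φ (a - o) = 1)
    (h2 : ∀ x ∈ P, φ (x - o) ≤ 1) (t ω : ℝ) (ht : 0 < t) (hω : 0 < ω)
    (hW : Wide P (n * (n + 1) * ω)) (hv : ((n : ℝ) * (n + 1)) ^ n * t ≤ volume.real P) :
    ∃ h : ℝ, 0 < h ∧ h ≤ 1 / n ∧ t ≤ volume.real (cap P o φ h) ∧ Wide (cap P o φ h) ω ∧
      (volume.real (cap P o φ h) ≤ 3 * t ∨ ∃ u : Fin n → ℤ, u ≠ 0 ∧
        ∀ x ∈ cap P o φ h, ∀ y ∈ cap P o φ h, lin u x - lin u y ≤ 2 * ω) := by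
  classical
  have hn0 : (0 : ℝ) < n := by
    have : 0 < n := by omega
    exact_mod_cast this
  have hn2 : (2 : ℝ) ≤ n := by exact_mod_cast hn
  set θ : ℝ := n / (n + 1) with hθ
  have hθ0 : 0 < θ := by positivity
  have hθ1 : θ < 1 := by rw [hθ, div_lt_one (by positivity)]; linarith
  set hh : ℕ → ℝ := fun i => 1 / n * θ ^ i with hhh
  have hpos : ∀ i, 0 < hh i := fun i => by positivity
  have hle : ∀ i, hh i ≤ 1 / n := fun i =>
    mul_le_of_le_one_right (by positivity) (pow_le_one₀ hθ0.le hθ1.le)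
  have hanti : Antitone hh := by
    intro i j hij
    exact mul_le_mul_of_nonneg_left (pow_le_pow_of_le_one hθ0.le hθ1.le hij) (by positivity)
  have hlim : Filter.Tendsto hh Filter.atTop (nhds 0) := by
    have := (tendsto_pow_atTop_nhds_zero_of_lt_one hθ0.le hθ1).const_mul (1 / (n : ℝ))
    rwa [mul_zero] at this
  -- homothety into a cap
  have hmem : ∀ (r : ℝ), 0 ≤ r → r ≤ 1 → ∀ x ∈ P, ∀ c : ℝ, r * (1 - φ (x - o)) ≤ c →
      a + r • (x - a) ∈ cap P o φ c := by
    intro r hr0 hr1 x hx c hcc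
    refine ⟨?_, ?_⟩
    · have h3 := hc ha hx (a := 1 - r) (b := r) (by linarith) hr0 (by ring)
      have h4 : (1 - r) • a + r • x = a + r • (x - a) := by
        rw [sub_smul, one_smul, smul_sub]; abel
      rwa [h4] at h3
    · rw [height_phi_homothety φ a o x r h1]
      linarith
  -- the good property
  let G : ℕ → Prop := fun i => t ≤ volume.real (cap P o φ (hh i)) ∧ Wide (cap P o φ (hh i)) ω
  have hG0 : G 0 := by
    set lam : ℝ := 1 / (n * (n + 1)) with hlam
    have hlam0 : 0 ≤ lam := by positivity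
    have hlam1 : lam ≤ 1 := by
      rw [hlam, div_le_one (by positivity)]
      nlinarith
    have hin : ∀ x ∈ P, a + lam • (x - a) ∈ cap P o φ (hh 0) := by
      intro x hx
      refine hmem lam hlam0 hlam1 x hx _ ?_
      have h3 := hp.low φ h2 x hx
      have h4 : lam * (1 - φ (x - o)) ≤ lam * (n + 1) :=
        mul_le_mul_of_nonneg_left (by linarith) hlam0
      refine h4.trans (le_of_eq ?_)
      rw [hlam, hhh]
      field_simp
    refine ⟨?_, ?_⟩
    · have h3 := height_scale P _ a lam hlam0 (height_cap_ne_top P hk o φ (hh 0)) hin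
      refine le_trans ?_ h3
      have h4 : lam ^ n * ((((n : ℝ) * (n + 1)) ^ n) * t) ≤ lam ^ n * volume.real P :=
        mul_le_mul_of_nonneg_left hv (by positivity)
      refine le_trans (le_of_eq ?_) h4
      rw [← mul_assoc, ← mul_pow, hlam, one_div, inv_mul_cancel₀ (by positivity), one_pow, one_mul]
    · intro u hu
      obtain ⟨x, hx, y, hy, hxy⟩ := hW u hu
      refine ⟨_, hin x hx, _, hin y hy, ?_⟩
      rw [height_lin_homothety]
      have h4 := mul_le_mul_of_nonneg_left hxy hlam0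
      refine le_trans (le_of_eq ?_) h4
      rw [hlam]
      field_simp
  have hGlarge : ∃ i, ¬ G i := by
    have h3 := height_tendsto P hk o a φ h1 h2 hh hanti hlim
    obtain ⟨i, hi⟩ := (h3.eventually (gt_mem_nhds ht)).exists
    exact ⟨i, fun hg => absurd hg.1 (not_le.2 hi)⟩
  -- the last good index before the first bad one
  obtain ⟨i, hGi, hGi'⟩ : ∃ i, G i ∧ ¬ G (i + 1) := by
    by_contra hcon
    push Not at hcon
    obtain ⟨i, hi⟩ := hGlarge
    apply hi
    clear hi
    induction i with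
    | zero => exact hG0
    | succ i ih => exact hcon i ih
  have hstep : ∀ x ∈ cap P o φ (hh i), a + θ • (x - a) ∈ cap P o φ (hh (i + 1)) := by
    intro x hx
    refine hmem θ hθ0.le hθ1.le x hx.1 _ ?_
    have h3 : 1 - φ (x - o) ≤ hh i := by linarith [hx.2]
    refine (mul_le_mul_of_nonneg_left h3 hθ0.le).trans (le_of_eq ?_)
    simp only [hhh]
    ring
  refine ⟨hh i, hpos i, hle i, hGi.1, hGi.2, ?_⟩
  by_cases hvol : t ≤ volume.real (cap P o φ (hh (i + 1)))
  · -- not wide
    right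
    have hnw : ¬ Wide (cap P o φ (hh (i + 1))) ω := fun h => hGi' ⟨hvol, h⟩
    unfold Wide at hnw
    push Not at hnw
    obtain ⟨u, hu, hlt⟩ := hnw
    refine ⟨u, hu, fun x hx y hy => ?_⟩
    have h3 := hlt _ (hstep x hx) _ (hstep y hy)
    rw [height_lin_homothety] at h3
    have h4 : lin u x - lin u y < ω / θ := by
      rw [lt_div_iff₀ hθ0]
      linarith
    refine h4.le.trans ?_
    rw [div_le_iff₀ hθ0]
    have h5 : 1 ≤ 2 * θ := by
      rw [hθ]
      rw [← mul_div_assoc, le_div_iff₀ (by positivity)]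
      linarith
    nlinarith
  · left
    have hvol' := not_le.1 hvol
    have h3 := height_scale _ _ a θ hθ0.le (height_cap_ne_top P hk o φ (hh (i + 1))) hstep
    have h4 : θ ^ n * volume.real (cap P o φ (hh i)) < t := lt_of_le_of_lt h3 hvol'
    have h5 : 1 ≤ 3 * θ ^ n := by
      have h6 : (1 + 1 / (n : ℝ)) ^ n ≤ 3 := by
        have h7 : (1 + 1 / (n : ℝ)) ^ n ≤ Real.exp 1 := by
          have h8 : 1 + 1 / (n : ℝ) ≤ Real.exp (1 / n) := by
            have := Real.add_one_le_exp (1 / (n : ℝ))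
            linarith
          calc (1 + 1 / (n : ℝ)) ^ n ≤ Real.exp (1 / n) ^ n :=
                pow_le_pow_left₀ (by positivity) h8 n
            _ = Real.exp 1 := by
                rw [← Real.exp_nat_mul]
                congr 1
                field_simp
        have := Real.exp_one_lt_d9
        linarith
      have h9 : (1 + 1 / (n : ℝ)) * θ = 1 := by
        rw [hθ]
        field_simp
      have h10 : (1 + 1 / (n : ℝ)) ^ n * θ ^ n = 1 := by
        rw [← mul_pow, h9, one_pow]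
      have h11 : 0 < θ ^ n := by positivity
      nlinarith
    have h6 : 0 ≤ volume.real (cap P o φ (hh i)) := measureReal_nonneg
    nlinarith

end Pool.Agent.Helper34.QH
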