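import Pool.Agent.Helper34.QH.Defs

/-! Project QH (helper34), MP_735047_co, module QH-4a: position frames and volumes of boxes. -/

namespace Pool.Agent.Helper34.QH

open MeasureTheory

namespace Position

/-- the linear map `c ↦ ∑ c i • e i` -/
noncomputable def comb {n : ℕ} (e : Fin n → Fin n → ℝ) : (Fin n → ℝ) →ₗ[ℝ] (Fin n → ℝ) :=
  Matrix.toLin' (Matrix.of e).transpose

theorem comb_apply {n : ℕ} (e : Fin n → Fin n → ℝ) (c : Fin n → ℝ) :
    comb e c = ∑ i, c i • e i := by
  rw [comb, Matrix.toLin'_apply]
  ext j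
  simp only [Matrix.mulVec, dotProduct, Matrix.transpose_apply, Matrix.of_apply,
    Finset.sum_apply, Pi.smul_apply, smul_eq_mul]
  exact Finset.sum_congr rfl fun i _ => mul_comm _ _

theorem det_comb {n : ℕ} (e : Fin n → Fin n → ℝ) :
    LinearMap.det (comb e) = (Matrix.of e).det := by
  rw [comb, LinearMap.det_toLin', Matrix.det_transpose]

theorem box_eq {n : ℕ} (e : Fin n → Fin n → ℝ) (p l r : Fin n → ℝ) :
    {x : Fin n → ℝ | ∃ c : Fin n → ℝ, x = p + ∑ i, c i • e i ∧
      ∀ i, l i ≤ c i ∧ c i ≤ r i} = (fun x => p + x) '' (comb e '' Set.Icc l r) := by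
  ext x
  constructor
  · rintro ⟨c, hx, hc⟩
    refine ⟨comb e c, ⟨c, ⟨fun i => (hc i).1, fun i => (hc i).2⟩, rfl⟩, ?_⟩
    rw [comb_apply]
    exact hx.symm
  · rintro ⟨_, ⟨c, hc, rfl⟩, rfl⟩
    refine ⟨c, ?_, fun i => ⟨hc.1 i, hc.2 i⟩⟩
    rw [comb_apply]

theorem vol_box' {n : ℕ} (e : Fin n → Fin n → ℝ) (p l r : Fin n → ℝ) :
    volume {x : Fin n → ℝ | ∃ c : Fin n → ℝ, x = p + ∑ i, c i • e i ∧
      ∀ i, l i ≤ c i ∧ c i ≤ r i} =
      ENNReal.ofReal |(Matrix.of e).det| * ∏ i, ENNReal.ofReal (r i - l i) := by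
  rw [box_eq, Set.image_add_left, measure_preimage_add,
    Measure.addHaar_image_linearMap, det_comb, Real.volume_Icc_pi]

end Position

open Position

/-- Volume of the parallelepiped `{p + ∑ c i • e i : l i ≤ c i ≤ r i}`. -/
theorem vol_box {n : ℕ} (e : Fin n → Fin n → ℝ) (p l r : Fin n → ℝ) (hlr : ∀ i, l i ≤ r i) :
    volume.real {x : Fin n → ℝ | ∃ c : Fin n → ℝ, x = p + ∑ i, c i • e i ∧
      ∀ i, l i ≤ c i ∧ c i ≤ r i} = (∏ i, (r i - l i)) * |(Matrix.of e).det| := by
  rw [Measure.real, vol_box', ENNReal.toReal_mul, ENNReal.toReal_ofReal (abs_nonneg _),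
    ENNReal.toReal_prod, mul_comm]
  congr 1
  refine Finset.prod_congr rfl fun i _ => ?_
  rw [ENNReal.toReal_ofReal (sub_nonneg.2 (hlr i))]

theorem Pos.box {n : ℕ} {P : Set (Fin n → ℝ)} {o : Fin n → ℝ} {w : Fin n → Fin n → ℝ}
    (hp : Pos P o w) (hc : Convex ℝ P) (c : Fin n → ℝ)
    (hcc : ∀ i, |c i| ≤ 1 / (2 * ((n : ℝ) + 1))) : o + ∑ i, c i • w i ∈ P := by
  set s : ℝ := ∑ i, c i with hs
  have hn : (0 : ℝ) < (n : ℝ) + 1 := by positivity
  set l0 : ℝ := (1 - s) / ((n : ℝ) + 1) with hl0
  have hsle : s ≤ n * (1 / (2 * ((n : ℝ) + 1))) := by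
    rw [hs]
    calc ∑ i, c i ≤ ∑ _i : Fin n, 1 / (2 * ((n : ℝ) + 1)) :=
          Finset.sum_le_sum fun i _ => (le_abs_self _).trans (hcc i)
      _ = n * (1 / (2 * ((n : ℝ) + 1))) := by
          rw [Finset.sum_const, Finset.card_univ, Fintype.card_fin, nsmul_eq_mul]
  have hl0' : 1 / (2 * ((n : ℝ) + 1)) ≤ l0 := by
    rw [hl0, le_div_iff₀ hn]
    have h1 : 1 / (2 * ((n : ℝ) + 1)) * ((n : ℝ) + 1) = 1 / 2 := by field_simp
    have h2 : n * (1 / (2 * ((n : ℝ) + 1))) ≤ 1 / 2 := by
      rw [mul_one_div, div_le_div_iff₀ (by positivity) (by norm_num)]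
      linarith
    rw [h1]; linarith
  have hl0n : 0 ≤ l0 := le_trans (by positivity) hl0'
  let lam : Option (Fin n) → ℝ := fun i => i.elim l0 (fun i => l0 + c i)
  let pt : Option (Fin n) → Fin n → ℝ := fun i => i.elim (o - ∑ i, w i) (fun i => o + w i)
  have hmem := hc.sum_mem (t := Finset.univ) (w := lam) (z := pt) (by
      rintro (_ | i) _
      · exact hl0n
      · have h1 := (abs_le.1 (hcc i)).1
        change 0 ≤ l0 + c i
        linarith) (by
      rw [Fintype.sum_option]
      change l0 + ∑ i, (l0 + c i) = 1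
      rw [Finset.sum_add_distrib, Finset.sum_const, Finset.card_univ, Fintype.card_fin,
        nsmul_eq_mul, ← hs, hl0]
      field_simp
      ring) (by
      rintro (_ | i) _
      · exact hp.mem'
      · exact hp.mem i)
  convert hmem using 1
  rw [Fintype.sum_option]
  change _ = l0 • (o - ∑ i, w i) + ∑ i, (l0 + c i) • (o + w i)
  have h3 : ∑ i, (l0 + c i) • (o + w i) =
      ((n : ℝ) * l0 + s) • o + l0 • ∑ i, w i + ∑ i, c i • w i := by
    simp only [smul_add, add_smul, Finset.sum_add_distrib, Finset.smul_sum, ← Finset.sum_smul]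
    rw [Finset.sum_const, Finset.card_univ, Fintype.card_fin, ← hs]
    rw [nsmul_eq_mul]
    abel
  rw [h3]
  have h4 : l0 + ((n : ℝ) * l0 + s) = 1 := by
    rw [hl0]; field_simp; ring
  calc o + ∑ i, c i • w i = (1 : ℝ) • o + ∑ i, c i • w i := by rw [one_smul]
    _ = (l0 + ((n : ℝ) * l0 + s)) • o + ∑ i, c i • w i := by rw [h4]
    _ = _ := by rw [add_smul, smul_sub]; abel

theorem Pos.vol {n : ℕ} {P : Set (Fin n → ℝ)} {o : Fin n → ℝ} {w : Fin n → Fin n → ℝ}
    (hp : Pos P o w) : volume.real P ≤ 4 ^ n * |(Matrix.of w).det| := by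
  have h1 := vol_box w o (fun _ => -2) (fun _ => 2) (fun _ => by norm_num)
  have h2 : ∏ _i : Fin n, ((2 : ℝ) - -2) = 4 ^ n := by
    rw [Finset.prod_const, Finset.card_univ, Fintype.card_fin]
    norm_num
  rw [h2] at h1
  rw [← h1]
  apply measureReal_mono
  · intro x hx
    obtain ⟨c, hc, hc2⟩ := hp.bdd x hx
    exact ⟨c, hc, fun i => abs_le.1 (hc2 i)⟩
  · rw [vol_box']
    apply ENNReal.mul_ne_top ENNReal.ofReal_ne_top
    exact ENNReal.prod_ne_top fun i _ => ENNReal.ofReal_ne_top

/-- A compact set of positive volume has a maximal simplex with one vertex `a`. -/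
theorem exists_max_det {n : ℕ} (D : Set (Fin n → ℝ)) (hk : IsCompact D) (a : Fin n → ℝ)
    (ha : a ∈ D) (hv : 0 < volume.real D) :
    ∃ b : Fin n → Fin n → ℝ, (∀ i, b i ∈ D) ∧
      (Matrix.of (fun i => a - b i)).det ≠ 0 ∧
      ∀ x ∈ D, ∃ c : Fin n → ℝ, a - x = ∑ i, c i • (a - b i) ∧ ∀ i, |c i| ≤ 1 := by
  classical
  have hcomp : IsCompact (Set.pi Set.univ fun _ : Fin n => D) := isCompact_univ_pi fun _ => hk
  have hcont : Continuous fun b : Fin n → Fin n → ℝ =>
      |(Matrix.of (fun i => a - b i)).det| := by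
    apply Continuous.abs
    apply Continuous.matrix_det
    apply continuous_matrix
    intro i j
    change Continuous fun b : Fin n → Fin n → ℝ => a j - b i j
    fun_prop
  obtain ⟨b, hb, hmax⟩ := hcomp.exists_isMaxOn ⟨fun _ => a, fun _ _ => ha⟩ hcont.continuousOn
  have hbD : ∀ i, b i ∈ D := fun i => hb i (Set.mem_univ i)
  have hne : (Matrix.of (fun i => a - b i)).det ≠ 0 := by
    intro h0
    have hall : ∀ b' : Fin n → Fin n → ℝ, (∀ i, b' i ∈ D) →
        (Matrix.of (fun i => a - b' i)).det = 0 := by
      intro b' hb'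
      have h1 := hmax (show b' ∈ Set.pi Set.univ fun _ : Fin n => D from fun i _ => hb' i)
      change |(Matrix.of (fun i => a - b' i)).det| ≤ |(Matrix.of (fun i => a - b i)).det| at h1
      rw [h0, abs_zero] at h1
      exact abs_eq_zero.1 (le_antisymm h1 (abs_nonneg _))
    let S : Submodule ℝ (Fin n → ℝ) := Submodule.span ℝ ((fun x => a - x) '' D)
    have hS : S ≠ ⊤ := by
      intro htop
      let b0 := Module.Basis.ofSpan (K := ℝ) (s := (fun x => a - x) '' D) htop.ge
      have hfin : Finite ((linearIndepOn_empty ℝ id).extend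
          (Set.empty_subset ((fun x => a - x) '' D))) := Module.Finite.finite_basis b0
      have := Fintype.ofFinite ((linearIndepOn_empty ℝ id).extend
          (Set.empty_subset ((fun x => a - x) '' D)))
      have hcard : Fintype.card ((linearIndepOn_empty ℝ id).extend
          (Set.empty_subset ((fun x => a - x) '' D))) = Fintype.card (Fin n) := by
        rw [← Module.finrank_eq_card_basis b0, Module.finrank_fintype_fun_eq_card]
      let b1 := b0.reindex (Fintype.equivOfCardEq hcard)
      have hb1 : ∀ i, ∃ x ∈ D, a - x = b1 i := by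
        intro i
        have h1 : b1 i ∈ (fun x => a - x) '' D := by
          apply Module.Basis.ofSpan_subset htop.ge
          rw [Module.Basis.reindex_apply]
          exact Set.mem_range_self _
        exact h1
      choose b' hb'D hb' using hb1
      have h2 := hall b' hb'D
      have h3 : (Matrix.of (fun i => a - b' i)) = Matrix.of (fun i => b1 i) := by
        ext i j
        rw [Matrix.of_apply, Matrix.of_apply, hb']
      rw [h3] at h2
      have h4 : LinearIndependent ℝ (Matrix.of (fun i => b1 i)).row := b1.linearIndependent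
      rw [Matrix.linearIndependent_rows_iff_isUnit, Matrix.isUnit_iff_isUnit_det,
        isUnit_iff_ne_zero] at h4
      exact h4 h2
    have hzero : volume D = 0 := by
      have hA : AffineSubspace.mk' a S ≠ ⊤ := by
        intro h
        apply hS
        rw [← AffineSubspace.direction_mk' a S, h, AffineSubspace.direction_top]
      refine measure_mono_null ?_ (Measure.addHaar_affineSubspace volume _ hA)
      intro x hx
      rw [SetLike.mem_coe, AffineSubspace.mem_mk', vsub_eq_sub]
      have h1 : a - x ∈ S := Submodule.subset_span ⟨x, hx, rfl⟩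
      have h2 := S.neg_mem h1
      rwa [neg_sub] at h2
    rw [Measure.real, hzero] at hv
    simp at hv
  refine ⟨b, hbD, hne, fun x hx => ?_⟩
  set M : Matrix (Fin n) (Fin n) ℝ := Matrix.of (fun i => a - b i) with hM
  refine ⟨fun i => (M.updateRow i (a - x)).det / M.det, ?_, fun i => ?_⟩
  · have h1 := Matrix.mulVec_cramer M.transpose (a - x)
    have h2 : M.transpose.mulVec (M.transpose.cramer (a - x)) =
        ∑ i, (M.updateRow i (a - x)).det • (a - b i) := by
      ext j
      simp only [Matrix.mulVec, dotProduct, Matrix.transpose_apply, Finset.sum_apply,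
        Pi.smul_apply, smul_eq_mul, Matrix.cramer_transpose_apply]
      refine Finset.sum_congr rfl fun i _ => ?_
      rw [mul_comm]
      rfl
    rw [h2, Matrix.det_transpose] at h1
    have h3 : a - x = (M.det)⁻¹ • (M.det • (a - x)) := by
      rw [smul_smul, inv_mul_cancel₀ hne, one_smul]
    calc a - x = (M.det)⁻¹ • (M.det • (a - x)) := h3
      _ = (M.det)⁻¹ • ∑ i, (M.updateRow i (a - x)).det • (a - b i) := by rw [h1]
      _ = ∑ i, ((M.updateRow i (a - x)).det / M.det) • (a - b i) := by
        rw [Finset.smul_sum]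
        refine Finset.sum_congr rfl fun i _ => ?_
        rw [smul_smul]
        congr 1
        field_simp
  · have h1 : M.updateRow i (a - x) = Matrix.of (fun k => a - Function.update b i x k) := by
      ext k j
      rw [Matrix.updateRow_apply, Matrix.of_apply]
      by_cases hki : k = i
      · rw [if_pos hki, hki, Function.update_self]
      · rw [if_neg hki, Function.update_of_ne hki]
        rfl
    have h2 := hmax (show Function.update b i x ∈ Set.pi Set.univ fun _ : Fin n => D from by
      intro k _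
      by_cases hki : k = i
      · rw [hki, Function.update_self]; exact hx
      · rw [Function.update_of_ne hki]; exact hbD k)
    change |(Matrix.of (fun k => a - Function.update b i x k)).det| ≤ |M.det| at h2
    rw [← h1] at h2
    rw [abs_div]
    exact (div_le_one (abs_pos.2 hne)).2 h2

namespace Position

/-- the matrix with rows `(1, v i)` -/
def hom {n : ℕ} (v : Fin (n + 1) → Fin n → ℝ) : Matrix (Fin (n + 1)) (Fin (n + 1)) ℝ :=
  Matrix.of fun i => Fin.cons 1 (v i)

theorem hom_mulVec {n : ℕ} (v : Fin (n + 1) → Fin n → ℝ) (y : Fin (n + 1) → ℝ)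
    (i : Fin (n + 1)) : (hom v).mulVec y i = y 0 + ∑ j, v i j * y j.succ := by
  rw [Matrix.mulVec, dotProduct, Fin.sum_univ_succ]
  simp [hom]

theorem hom_continuous {n : ℕ} :
    Continuous fun v : Fin (n + 1) → Fin n → ℝ => |(hom v).det| := by
  apply Continuous.abs
  apply Continuous.matrix_det
  apply continuous_matrix
  intro i j
  refine Fin.cases ?_ (fun j => ?_) j
  · simp only [hom, Matrix.of_apply, Fin.cons_zero]
    exact continuous_const
  · simp only [hom, Matrix.of_apply, Fin.cons_succ]
    fun_prop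

theorem exists_hom_ne {n : ℕ} (P : Set (Fin n → ℝ)) (hi : (interior P).Nonempty) :
    ∃ v : Fin (n + 1) → Fin n → ℝ, (∀ i, v i ∈ P) ∧ (hom v).det ≠ 0 := by
  obtain ⟨c, hc⟩ := hi
  obtain ⟨ε, hε, hball⟩ := Metric.isOpen_iff.1 isOpen_interior c hc
  let v : Fin (n + 1) → Fin n → ℝ :=
    Fin.cons c (fun i => c + Pi.single i (ε / 2))
  refine ⟨v, fun i => ?_, fun h => ?_⟩
  · apply interior_subset
    apply hball
    refine Fin.cases ?_ (fun i => ?_) i
    · simp only [v, Fin.cons_zero]
      exact Metric.mem_ball_self hε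
    · simp only [v, Fin.cons_succ]
      rw [Metric.mem_ball, dist_eq_norm, add_sub_cancel_left, Pi.norm_single,
        Real.norm_of_nonneg (by positivity)]
      linarith
  · obtain ⟨y, hy, hy0⟩ := Matrix.exists_mulVec_eq_zero_iff.2 h
    apply hy
    have h0 := congrFun hy0 0
    rw [hom_mulVec] at h0
    simp only [v, Fin.cons_zero, Pi.zero_apply] at h0
    have hs : ∀ i : Fin n, y i.succ = 0 := by
      intro i
      have h1 := congrFun hy0 i.succ
      rw [hom_mulVec] at h1
      simp only [v, Fin.cons_succ, Pi.zero_apply, Pi.add_apply, add_mul,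
        Finset.sum_add_distrib] at h1
      rw [Finset.sum_eq_single (s := Finset.univ)
        (f := fun j => (Pi.single i (ε / 2) : Fin n → ℝ) j * y j.succ) i
        (fun j _ hj => by rw [Pi.single_eq_of_ne hj, zero_mul])
        (fun h => absurd (Finset.mem_univ _) h), Pi.single_eq_same] at h1
      have h2 : ε / 2 * y i.succ = 0 := by linarith
      rcases mul_eq_zero.1 h2 with h3 | h3
      · linarith
      · exact h3
    ext i
    refine Fin.cases ?_ (fun i => ?_) i
    · have h2 : ∑ x, c x * y x.succ = 0 := Finset.sum_eq_zero fun i _ => by rw [hs, mul_zero]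
      rw [h2] at h0
      simpa using h0
    · exact hs i

end Position

theorem exists_pos {n : ℕ} (hn : 1 ≤ n) (P : Set (Fin n → ℝ)) (hc : Convex ℝ P)
    (hk : IsCompact P) (hi : (interior P).Nonempty) :
    ∃ o : Fin n → ℝ, ∃ w : Fin n → Fin n → ℝ, Pos P o w ∧ o ∈ interior P := by
  classical
  obtain ⟨v0, hv0, hdet0⟩ := exists_hom_ne P hi
  have hcomp : IsCompact (Set.pi Set.univ fun _ : Fin (n + 1) => P) :=
    isCompact_univ_pi fun _ => hk
  obtain ⟨v, hv, hmax⟩ := hcomp.exists_isMaxOn ⟨v0, fun i _ => hv0 i⟩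
    hom_continuous.continuousOn
  have hvP : ∀ i, v i ∈ P := fun i => hv i (Set.mem_univ i)
  set M := hom v with hM
  have hne : M.det ≠ 0 := by
    intro h0
    have h1 := hmax (show v0 ∈ Set.pi Set.univ fun _ : Fin (n + 1) => P from fun i _ => hv0 i)
    change |(hom v0).det| ≤ |M.det| at h1
    rw [h0, abs_zero] at h1
    exact hdet0 (abs_eq_zero.1 (le_antisymm h1 (abs_nonneg _)))
  -- barycentric coordinates
  have hbar : ∀ x ∈ P, ∃ l : Fin (n + 1) → ℝ, ∑ i, l i = 1 ∧ x = ∑ i, l i • v i ∧
      ∀ i, |l i| ≤ 1 := by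
    intro x hx
    set X : Fin (n + 1) → ℝ := Fin.cons 1 x with hX
    have h1 := Matrix.mulVec_cramer M.transpose X
    have h3 : ∀ j, ∑ i, (M.updateRow i X).det / M.det * M i j = X j := by
      intro j
      have h4 := congrFun h1 j
      simp only [Matrix.mulVec, dotProduct, Matrix.transpose_apply, Matrix.cramer_transpose_apply,
        Matrix.det_transpose, Pi.smul_apply, smul_eq_mul] at h4
      have h5 : ∑ i, (M.updateRow i X).det / M.det * M i j =
          (∑ i, M i j * (M.updateRow i X).det) / M.det := by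
        rw [Finset.sum_div]
        refine Finset.sum_congr rfl fun i _ => ?_
        ring
      rw [h5, h4]
      field_simp
    have hM0 : ∀ i, M i 0 = 1 := fun i => rfl
    have hMs : ∀ i (j : Fin n), M i j.succ = v i j := fun i j => rfl
    have hX0 : X 0 = 1 := rfl
    have hXs : ∀ j : Fin n, X j.succ = x j := fun j => rfl
    refine ⟨fun i => (M.updateRow i X).det / M.det, ?_, ?_, fun i => ?_⟩
    · have h4 := h3 0
      rw [hX0] at h4
      rw [← h4]
      refine Finset.sum_congr rfl fun i _ => ?_
      rw [hM0, mul_one]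
    · ext j
      have h4 := h3 j.succ
      rw [hXs] at h4
      rw [← h4, Finset.sum_apply]
      refine Finset.sum_congr rfl fun i _ => ?_
      rw [hMs]
      rfl
    · have h4 : M.updateRow i X = hom (Function.update v i x) := by
        ext k j
        rw [Matrix.updateRow_apply]
        by_cases hki : k = i
        · rw [if_pos hki, hom, Matrix.of_apply, hki, Function.update_self]
        · rw [if_neg hki, hom, Matrix.of_apply, Function.update_of_ne hki]
          rfl
      have h2 := hmax (show Function.update v i x ∈ Set.pi Set.univ fun _ : Fin (n + 1) => P from by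
        intro k _
        by_cases hki : k = i
        · rw [hki, Function.update_self]; exact hx
        · rw [Function.update_of_ne hki]; exact hvP k)
      change |(hom (Function.update v i x)).det| ≤ |M.det| at h2
      rw [← h4] at h2
      rw [abs_div]
      exact (div_le_one (abs_pos.2 hne)).2 h2
  have hn1 : (0 : ℝ) < (n : ℝ) + 1 := by positivity
  set o : Fin n → ℝ := (1 / ((n : ℝ) + 1)) • ∑ i, v i with ho
  set w : Fin n → Fin n → ℝ := fun i => v i.succ - o with hw
  have hsum : ∑ i, (v i - o) = 0 := by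
    rw [Finset.sum_sub_distrib, Finset.sum_const, Finset.card_univ, Fintype.card_fin,
      ← Nat.cast_smul_eq_nsmul ℝ, ho, smul_smul]
    have : ((n + 1 : ℕ) : ℝ) * (1 / ((n : ℝ) + 1)) = 1 := by push_cast; field_simp
    rw [this, one_smul, sub_self]
  have hw0 : v 0 - o = - ∑ i, w i := by
    rw [Fin.sum_univ_succ] at hsum
    exact eq_neg_of_add_eq_zero_left hsum
  have hxo : ∀ x : Fin n → ℝ, ∀ l : Fin (n + 1) → ℝ, ∑ i, l i = 1 → x = ∑ i, l i • v i →
      x - o = ∑ i, l i • (v i - o) := by
    intro x l hl hx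
    simp only [smul_sub, Finset.sum_sub_distrib, ← Finset.sum_smul]
    rw [hl, one_smul, ← hx]
  have hpos : Pos P o w := by
    refine ⟨?_, ?_, ?_, ?_, ?_⟩
    · intro h0
      obtain ⟨y, hy, hy0⟩ := Matrix.exists_mulVec_eq_zero_iff.2 h0
      have h1 : ∀ i : Fin n, ∑ j, (v i.succ - o) j * y j = 0 := fun i => congrFun hy0 i
      have h2 : ∑ j, (v 0 - o) j * y j = 0 := by
        rw [hw0]
        simp only [Pi.neg_apply, Finset.sum_apply, neg_mul, Finset.sum_neg_distrib,
          Finset.sum_mul]
        rw [Finset.sum_comm, neg_eq_zero]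
        exact Finset.sum_eq_zero fun i _ => h1 i
      have h3 : ∀ i : Fin (n + 1), ∑ j, v i j * y j = ∑ j, o j * y j := by
        intro i
        have h4 : ∑ j, (v i - o) j * y j = 0 := by
          refine Fin.cases h2 h1 i
        simp only [Pi.sub_apply, sub_mul, Finset.sum_sub_distrib] at h4
        linarith
      apply hne
      rw [hM]
      apply Matrix.exists_mulVec_eq_zero_iff.1
      refine ⟨Fin.cons (-∑ j, o j * y j) y, ?_, ?_⟩
      · intro h5
        apply hy
        ext j
        have := congrFun h5 j.succ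
        simpa using this
      · ext i
        rw [hom_mulVec]
        simp only [Fin.cons_zero, Fin.cons_succ, Pi.zero_apply]
        rw [h3]
        ring
    · intro i
      simp only [hw, add_sub_cancel]
      exact hvP _
    · have : o - ∑ i, w i = v 0 := by
        rw [sub_eq_add_neg, ← hw0]; abel
      rw [this]; exact hvP 0
    · intro x hx
      obtain ⟨l, hl, hxl, hl1⟩ := hbar x hx
      refine ⟨fun i => l i.succ - l 0, ?_, fun i => ?_⟩
      · have h1 := hxo x l hl hxl
        rw [Fin.sum_univ_succ, hw0] at h1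
        have h2 : x = o + (x - o) := by abel
        rw [h2, h1]
        simp only [sub_smul, Finset.sum_sub_distrib, ← Finset.smul_sum, smul_neg]
        abel
      · have h1 := hl1 i.succ
        have h2 := hl1 0
        have h3 := abs_sub (l i.succ) (l 0)
        linarith
    · intro φ hφ x hx
      obtain ⟨l, hl, hxl, hl1⟩ := hbar x hx
      have h1 := hxo x l hl hxl
      have h2 : -(x - o) = ∑ i, (1 - l i) • (v i - o) := by
        simp only [sub_smul, one_smul, Finset.sum_sub_distrib]
        rw [← h1]
        have : ∑ i, v i - ∑ _i : Fin (n + 1), o = 0 := by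
          rw [← Finset.sum_sub_distrib]; exact hsum
        rw [this, zero_sub]
      have h3 : φ (-(x - o)) ≤ n := by
        rw [h2, map_sum]
        calc ∑ i, φ ((1 - l i) • (v i - o)) ≤ ∑ i, (1 - l i) := by
              apply Finset.sum_le_sum
              intro i _
              rw [map_smul, smul_eq_mul]
              have h4 : 0 ≤ 1 - l i := by
                have := (abs_le.1 (hl1 i)).2; linarith
              calc (1 - l i) * φ (v i - o) ≤ (1 - l i) * 1 :=
                    mul_le_mul_of_nonneg_left (hφ _ (hvP i)) h4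
                _ = 1 - l i := mul_one _
          _ = n := by
              rw [Finset.sum_sub_distrib, hl, Finset.sum_const, Finset.card_univ,
                Fintype.card_fin]
              simp
      rw [map_neg] at h3
      linarith
  refine ⟨o, w, hpos, ?_⟩
  have hdet : LinearMap.det (comb w) ≠ 0 := by
    rw [det_comb]; exact hpos.det_ne
  let e := (LinearMap.equivOfDetNeZero (comb w) hdet).toContinuousLinearEquiv
  have he : ∀ c, e c = ∑ i, c i • w i := fun c => comb_apply w c
  rw [mem_interior]
  refine ⟨{x | ∀ i, |e.symm (x - o) i| < 1 / (2 * ((n : ℝ) + 1))}, ?_, ?_, ?_⟩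
  · intro x hx
    have h1 : x = o + ∑ i, e.symm (x - o) i • w i := by
      rw [← he, e.apply_symm_apply]; abel
    rw [h1]
    exact hpos.box hc _ fun i => (hx i).le
  · simp only [Set.ofPred_forall]
    apply isOpen_iInter_of_finite
    intro i
    apply isOpen_lt _ continuous_const
    have h1 : Continuous fun x : Fin n → ℝ => e.symm (x - o) :=
      e.symm.continuous.comp (continuous_id.sub continuous_const)
    exact ((continuous_apply i).comp h1).abs
  · intro i
    rw [sub_self, map_zero, Pi.zero_apply, abs_zero]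
    positivity

end Pool.Agent.Helper34.QH
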