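import Pool.Agent.Helper34.QH.Defs

/-! Project QH (helper34), MP_735047_co, module QH-7a: supporting functionals (helper82). -/

namespace Pool.Agent.Helper34.QH

open MeasureTheory

/-- A vertex of the hull of a convexly independent set is not an interior point. -/
theorem support_not_mem_interior {n : ℕ} (hn : 1 ≤ n) (V : Finset (Fin n → ℤ)) (hV : CI V)
    (v : Fin n → ℤ) (hv : v ∈ V) : toR v ∉ interior (hull V) := by
  classical
  intro hint
  set e : Fin n → ℝ := fun _ => 1 with he
  have he0 : e ≠ 0 := by
    intro h
    have := congrFun h ⟨0, hn⟩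
    simp [he] at this
  -- small displacements stay in the hull
  have hcont : ∀ s : ℝ, ∃ ε : ℝ, 0 < ε ∧ toR v + (s * ε) • e ∈ hull V := by
    intro s
    have hopen : IsOpen (interior (hull V)) := isOpen_interior
    have hc : Continuous fun ε : ℝ => toR v + (s * ε) • e := by fun_prop
    have h0 : (fun ε : ℝ => toR v + (s * ε) • e) 0 ∈ interior (hull V) := by simpa using hint
    have h1 := (hopen.preimage hc).mem_nhds h0
    obtain ⟨ε, hε, hball⟩ := Metric.mem_nhds_iff.1 h1
    refine ⟨ε / 2, by positivity, interior_subset (hball ?_)⟩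
    rw [Metric.mem_ball, Real.dist_eq, sub_zero, abs_of_pos (by positivity)]
    linarith
  have hins : hull V = convexHull ℝ (insert (toR v) (toR '' ((V.erase v : Finset _) : Set _))) := by
    rw [hull, ← Set.image_insert_eq, ← Finset.coe_insert, Finset.insert_erase hv]
  rcases (V.erase v).eq_empty_or_nonempty with hemp | hne
  · obtain ⟨ε, hε, hm⟩ := hcont 1
    rw [hins, hemp] at hm
    simp only [Finset.coe_empty, Set.image_empty, insert_empty_eq, convexHull_singleton,
      Set.mem_singleton_iff, one_mul, add_eq_left] at hm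
    rcases smul_eq_zero.1 hm with h | h
    · exact hε.ne' h
    · exact he0 h
  · have hne' : (toR '' ((V.erase v : Finset _) : Set (Fin n → ℤ))).Nonempty :=
      (Finset.coe_nonempty.2 hne).image _
    have key : ∀ s : ℝ, s ≠ 0 → ∃ r : ℝ, 0 < r ∧ toR v + (s * r) • e ∈ hull (V.erase v) := by
      intro s hs
      obtain ⟨ε, hε, hm⟩ := hcont s
      rw [hins, convexHull_insert hne', mem_convexJoin] at hm
      obtain ⟨x, hx, y, hy, hxy⟩ := hm
      rw [Set.mem_singleton_iff] at hx
      subst hx
      obtain ⟨p, q, hp, hq, hpq, hz⟩ := hxy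
      have hp' : p = 1 - q := by linarith
      subst hp'
      have hq0 : q ≠ 0 := by
        intro hq0
        subst hq0
        simp only [sub_zero, one_smul, zero_smul, add_zero, left_eq_add] at hz
        rcases smul_eq_zero.1 hz with h | h
        · rcases mul_eq_zero.1 h with h | h
          · exact hs h
          · exact hε.ne' h
        · exact he0 h
      have hqpos : 0 < q := lt_of_le_of_ne hq (Ne.symm hq0)
      refine ⟨ε / q, by positivity, ?_⟩
      have hy' : toR v + (s * (ε / q)) • e = y := by
        have h1 : (q : ℝ) • (toR v + (s * (ε / q)) • e) = q • y := by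
          have h2 : q • y = toR v + (s * ε) • e - (1 - q) • toR v := by
            rw [← hz]; abel
          rw [h2, smul_add, smul_smul, show q * (s * (ε / q)) = s * ε by field_simp, sub_smul,
            one_smul]
          abel
        exact smul_right_injective _ hq0 h1
      rw [hy']
      exact hy
    obtain ⟨r, hr, h1⟩ := key 1 one_ne_zero
    obtain ⟨r', hr', h2⟩ := key (-1) (by norm_num)
    apply hV v hv
    have hcx : Convex ℝ (hull (V.erase v)) := convex_convexHull ℝ _
    have h3 := hcx h1 h2 (a := r' / (r + r')) (b := r / (r + r')) (by positivity) (by positivity)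
      (by field_simp; ring)
    have h4 : (r' / (r + r')) • (toR v + (1 * r) • e) + (r / (r + r')) • (toR v + (-1 * r') • e)
        = toR v := by
      have h5 : r' / (r + r') + r / (r + r') = 1 := by field_simp; ring
      calc (r' / (r + r')) • (toR v + (1 * r) • e) + (r / (r + r')) • (toR v + (-1 * r') • e)
          = (r' / (r + r') + r / (r + r')) • toR v +
            (r' / (r + r') * r - r / (r + r') * r') • e := by module
        _ = toR v := by
          rw [h5, one_smul, show r' / (r + r') * r - r / (r + r') * r' = 0 by ring, zero_smul,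
            add_zero]
    rwa [h4] at h3

theorem exists_support {n : ℕ} (hn : 1 ≤ n) (V : Finset (Fin n → ℤ)) (hV : CI V)
    (o : Fin n → ℝ) (ho : o ∈ interior (hull V)) (v : Fin n → ℤ) (hv : v ∈ V) :
    ∃ φ : (Fin n → ℝ) →ₗ[ℝ] ℝ, φ (toR v - o) = 1 ∧ ∀ x ∈ hull V, φ (x - o) ≤ 1 := by
  have hcx : Convex ℝ (hull V) := convex_convexHull ℝ _
  obtain ⟨f, hf⟩ := geometric_hahn_banach_open_point hcx.interior isOpen_interior
    (support_not_mem_interior hn V hV v hv)
  have ho' := hf o ho
  have hle : ∀ x ∈ hull V, f x ≤ f (toR v) := by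
    intro x hx
    have h1 : x ∈ closure (interior (hull V)) := by
      rw [hcx.closure_interior_eq_closure_of_nonempty_interior ⟨o, ho⟩]
      exact subset_closure hx
    have h2 : closure (interior (hull V)) ⊆ {x | f x ≤ f (toR v)} :=
      closure_minimal (fun y hy => (hf y hy).le) (isClosed_le f.continuous continuous_const)
    exact h2 h1
  have hpos : 0 < f (toR v) - f o := sub_pos.2 ho'
  refine ⟨(f (toR v) - f o)⁻¹ • (f : (Fin n → ℝ) →ₗ[ℝ] ℝ), ?_, ?_⟩
  · simp only [LinearMap.smul_apply, ContinuousLinearMap.coe_coe, map_sub, smul_eq_mul]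
    rw [← mul_sub]
    exact inv_mul_cancel₀ hpos.ne'
  · intro x hx
    simp only [LinearMap.smul_apply, ContinuousLinearMap.coe_coe, map_sub, smul_eq_mul]
    rw [← mul_sub, inv_mul_le_iff₀ hpos, mul_one]
    linarith [hle x hx]

end Pool.Agent.Helper34.QH
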