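import Mathlib
import Pool.Agent.Helper34.QH.Parity
import Pool.Agent.Helper34.QH.Position
import Pool.Agent.Helper34.QH.Interior
import Pool.Agent.Helper34.QH.Support
import Pool.Agent.Helper34.QH.Height
import Pool.Agent.Helper34.QH.ClassBounds

/-! Project QH (helper34), module QH-7e (written by helper27). -/

namespace Pool.Agent.Helper34.QH

open MeasureTheory

theorem h27_geom (g : ℝ) (hg0 : 0 < g) (hg1 : g ≤ 1) (J : ℕ) :
    ∑ j ∈ Finset.range J, ((2 : ℝ) ^ j) ^ (-g) ≤ 2 / g := by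
  have h2 : (2 : ℝ) ^ (-g) ≤ 1 - g / 2 := by
    have hconv := (convexOn_rpow_left (b := (1 / 2 : ℝ)) (by norm_num)).2
      (Set.mem_univ (0 : ℝ)) (Set.mem_univ (1 : ℝ)) (show (0 : ℝ) ≤ 1 - g by linarith) hg0.le
      (by ring)
    simp only [smul_eq_mul, mul_zero, mul_one, zero_add, Real.rpow_zero, Real.rpow_one] at hconv
    have e : ((1 : ℝ) / 2) ^ g = 2 ^ (-g) := by
      rw [one_div, Real.inv_rpow (by norm_num), Real.rpow_neg (by norm_num)]
    rw [e] at hconv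
    linarith
  have h0 : (0 : ℝ) < (2 : ℝ) ^ (-g) := Real.rpow_pos_of_pos (by norm_num) _
  have e1 : ∀ j : ℕ, ((2 : ℝ) ^ j) ^ (-g) = ((2 : ℝ) ^ (-g)) ^ j := by
    intro j
    rw [← Real.rpow_natCast, ← Real.rpow_natCast, ← Real.rpow_mul (by norm_num),
      ← Real.rpow_mul (by norm_num), mul_comm]
  simp only [e1]
  set r := (2 : ℝ) ^ (-g) with hr
  have hr1 : r < 1 := by linarith
  have h3 : ∑ j ∈ Finset.range J, r ^ j = (1 - r ^ J) / (1 - r) := by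
    rw [geom_sum_eq hr1.ne]
    rw [← neg_div_neg_eq]
    ring
  rw [h3, div_le_div_iff₀ (by linarith) hg0]
  have hrJ : 0 ≤ r ^ J := pow_nonneg h0.le J
  nlinarith

theorem fat_bound {n : ℕ} (hn : 1 ≤ n) (V : Finset (Fin (n + 1) → ℤ)) (hV : CI V)
    (t a A : ℝ) (ht : 0 < t) (ha : 0 ≤ a) (hA : 0 ≤ A)
    (hl : ell (n + 1) ≤ kap (n + 1) ^ (n + 1) * t)
    (hW : Wide (hull V) (((n : ℝ) + 1) * (n + 2) * om (n + 1)))
    (hvol : (((n : ℝ) + 1) * (n + 2)) ^ (n + 1) * t ≤ volume.real (hull V))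
    (hB : Bd (n + 1) (9 * t) (a * (9 * t) ^ al (n + 1)))
    (hB' : Bd (n + 1) (9 * (kap (n + 1) ^ (n + 1) * t))
      (a * (9 * (kap (n + 1) ^ (n + 1) * t)) ^ al (n + 1)))
    (hB1 : ∀ K' : ℝ, 1 ≤ K' → Bd n K' (A * K' ^ al n)) :
    (V.card : ℝ) ≤ 10 ^ 5 * ((n : ℝ) + 1) ^ 6 *
      (a + A * ell (n + 1) ^ (2 / ((n : ℝ) + 1)) * ((n + 1) * (n + 2)) * t ^ (-ga (n + 1))) *
        volume.real (hull V) ^ al (n + 1) := by
  classical
  have hc : Convex ℝ (hull V) := convex_convexHull ℝ _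
  have hk : IsCompact (hull V) := hull_compact V
  have hF : 0 < F (n + 1) := by
    unfold F
    positivity
  have hom : 0 < om (n + 1) := by
    unfold om
    positivity
  have hN : ((n + 1 : ℕ) : ℝ) = (n : ℝ) + 1 := by push_cast; ring
  have hi : (interior (hull V)).Nonempty :=
    interior_of_wide (by omega) (hull V) hc hk _ (by positivity) hW
  obtain ⟨o, w, hp, hoi⟩ := exists_pos (by omega) (hull V) hc hk hi
  have ho : o ∈ hull V := interior_subset hoi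
  have hmem : ∀ v ∈ V, toR v ∈ hull V := fun v hv =>
    subset_convexHull ℝ _ ⟨v, hv, rfl⟩
  have hex : ∀ v : Fin (n + 1) → ℤ, ∃ φ : (Fin (n + 1) → ℝ) →ₗ[ℝ] ℝ, ∃ h : ℝ, v ∈ V →
      φ (toR v - o) = 1 ∧ (∀ x ∈ hull V, φ (x - o) ≤ 1) ∧ 0 < h ∧ h ≤ 1 / ((n + 1 : ℕ) : ℝ) ∧
      t ≤ volume.real (cap (hull V) o φ h) ∧ Wide (cap (hull V) o φ h) (om (n + 1)) ∧
      (volume.real (cap (hull V) o φ h) ≤ 3 * t ∨ ∃ u : Fin (n + 1) → ℤ, u ≠ 0 ∧
        ∀ x ∈ cap (hull V) o φ h, ∀ y ∈ cap (hull V) o φ h, lin u x - lin u y ≤ 2 * om (n + 1)) := by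
    intro v
    by_cases hv : v ∈ V
    · obtain ⟨φ, h1, h2⟩ := exists_support (by omega) V hV o hoi v hv
      obtain ⟨h, h3, h4, h5, h6, h7⟩ := exists_height (n := n + 1) (by omega) (hull V) hc hk o w hp
        ho (toR v) (hmem v hv) φ h1 h2 t (om (n + 1)) ht hom (by
          have e : ((n + 1 : ℕ) : ℝ) * (((n + 1 : ℕ) : ℝ) + 1) * om (n + 1) =
            ((n : ℝ) + 1) * (n + 2) * om (n + 1) := by rw [hN]; ring
          rw [e]
          exact hW) (by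
          have e : (((n + 1 : ℕ) : ℝ) * (((n + 1 : ℕ) : ℝ) + 1)) ^ (n + 1) * t =
            (((n : ℝ) + 1) * (n + 2)) ^ (n + 1) * t := by rw [hN]; ring
          rw [e]
          exact hvol)
      exact ⟨φ, h, fun _ => ⟨h1, h2, h3, h4, h5, h6, h7⟩⟩
    · exact ⟨0, 0, fun h => absurd h hv⟩
  choose φ h hφ using hex
  let vv : (Fin (n + 1) → ℤ) → ℝ := fun v => volume.real (cap (hull V) o (φ v) (h v))
  have hdata : ∀ S ⊆ V, CapData V S o w φ h := fun S hS =>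
    { ci := hV
      sub := hS
      pos := hp
      o_mem := ho
      one := fun v hv => (hφ v (hS hv)).1
      le := fun v hv => (hφ v (hS hv)).2.1
      hpos := fun v hv => ⟨(hφ v (hS hv)).2.2.1, (hφ v (hS hv)).2.2.2.1⟩
      wide := fun v hv => (hφ v (hS hv)).2.2.2.2.2.1 }
  set Pa := volume.real (hull V) ^ al (n + 1) with hPa
  have hPa0 : 0 ≤ Pa := Real.rpow_nonneg measureReal_nonneg _
  -- class 0
  let S0 := V.filter (fun v => vv v ≤ 3 * t)
  have hS0 : (S0.card : ℝ) ≤ 10 ^ 5 * (((n + 1 : ℕ) : ℝ)) ^ 6 * a * Pa :=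
    class_zero (by omega) V S0 o w φ h (hdata S0 (Finset.filter_subset _ _)) t a ht ha
      (fun v hv => ⟨(hφ v (Finset.mem_filter.1 hv).1).2.2.2.2.1, (Finset.mem_filter.1 hv).2⟩) hB hB'
  -- thin classes
  let S : ℕ → Finset (Fin (n + 1) → ℤ) := fun j =>
    V.filter (fun v => ¬ vv v ≤ 3 * t ∧ 2 ^ j * t ≤ vv v ∧ vv v ≤ 2 * (2 ^ j * t))
  have hSj : ∀ j, ((S j).card : ℝ) ≤ 10 ^ 4 * ((n : ℝ) + 1) ^ 6 *
      (A * ell (n + 1) ^ (2 / ((n : ℝ) + 1))) * (2 ^ j * t) ^ (-ga (n + 1)) * Pa := by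
    intro j
    have h2j : (1 : ℝ) ≤ 2 ^ j := one_le_pow₀ (by norm_num)
    refine class_thin hn V (S j) o w φ h (hdata (S j) (Finset.filter_subset _ _)) (2 ^ j * t) A
      (by positivity) hA ?_ ?_ ?_ hB1
    · refine hl.trans ?_
      have hkap : 0 ≤ kap (n + 1) := by
        unfold kap
        have : (0 : ℝ) ≤ ((n + 1 : ℕ) : ℝ) - 1 := by rw [hN]; simp
        positivity
      have : t ≤ 2 ^ j * t := le_mul_of_one_le_left ht.le h2j
      exact mul_le_mul_of_nonneg_left this (pow_nonneg hkap _)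
    · intro v hv
      have := (Finset.mem_filter.1 hv).2
      exact ⟨this.2.1, this.2.2⟩
    · intro v hv
      obtain ⟨hv1, hv2, -, -⟩ := Finset.mem_filter.1 hv
      rcases (hφ v hv1).2.2.2.2.2.2 with h8 | h8
      · exact absurd h8 hv2
      · exact h8
  -- the index of a thin point
  have hidx : ∀ v : Fin (n + 1) → ℤ, ∃ j : ℕ, v ∈ V → ¬ vv v ≤ 3 * t → v ∈ S j := by
    intro v
    by_cases hv : v ∈ V ∧ ¬ vv v ≤ 3 * t
    · have h9 : 1 ≤ vv v / t := by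
        rw [one_le_div ht]
        exact (hφ v hv.1).2.2.2.2.1
      obtain ⟨j, hj1, hj2⟩ := exists_nat_pow_near h9 (show (1 : ℝ) < 2 by norm_num)
      refine ⟨j, fun _ _ => Finset.mem_filter.2 ⟨hv.1, hv.2, ?_, ?_⟩⟩
      · rwa [le_div_iff₀ ht] at hj1
      · rw [div_lt_iff₀ ht, pow_succ] at hj2
        linarith
    · exact ⟨0, fun h1 h2 => absurd ⟨h1, h2⟩ hv⟩
  choose idx hidx using hidx
  let J := V.sup idx + 1
  have hcover : V ⊆ S0 ∪ (Finset.range J).biUnion S := by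
    intro v hv
    by_cases h3 : vv v ≤ 3 * t
    · exact Finset.mem_union_left _ (Finset.mem_filter.2 ⟨hv, h3⟩)
    · refine Finset.mem_union_right _ (Finset.mem_biUnion.2 ⟨idx v, ?_, hidx v hv h3⟩)
      have : idx v ≤ V.sup idx := Finset.le_sup hv
      exact Finset.mem_range.2 (by omega)
  have hcard : (V.card : ℝ) ≤ (S0.card : ℝ) + ∑ j ∈ Finset.range J, ((S j).card : ℝ) := by
    have h1 := (Finset.card_le_card hcover).trans (Finset.card_union_le _ _)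
    have h2 : ((Finset.range J).biUnion S).card ≤ ∑ j ∈ Finset.range J, (S j).card :=
      Finset.card_biUnion_le
    have h3 : V.card ≤ S0.card + ∑ j ∈ Finset.range J, (S j).card := by omega
    exact_mod_cast h3
  have hga0 : 0 < ga (n + 1) := by
    unfold ga
    positivity
  have hga1 : ga (n + 1) ≤ 1 := by
    unfold ga
    rw [hN]
    have hn1 : (1 : ℝ) ≤ n := by exact_mod_cast hn
    rw [div_le_one (by positivity)]
    nlinarith
  have hsum : ∑ j ∈ Finset.range J, ((S j).card : ℝ) ≤ 10 ^ 4 * ((n : ℝ) + 1) ^ 6 *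
      (A * ell (n + 1) ^ (2 / ((n : ℝ) + 1))) * (2 / ga (n + 1)) * t ^ (-ga (n + 1)) * Pa := by
    refine (Finset.sum_le_sum fun j _ => hSj j).trans ?_
    have hell : 0 ≤ ell (n + 1) := by
      unfold ell
      linarith
    have hc0 : 0 ≤ 10 ^ 4 * ((n : ℝ) + 1) ^ 6 * (A * ell (n + 1) ^ (2 / ((n : ℝ) + 1))) := by
      have := Real.rpow_nonneg hell (2 / ((n : ℝ) + 1))
      positivity
    have e : ∀ j ∈ Finset.range J, 10 ^ 4 * ((n : ℝ) + 1) ^ 6 *
        (A * ell (n + 1) ^ (2 / ((n : ℝ) + 1))) * (2 ^ j * t) ^ (-ga (n + 1)) * Pa =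
        (10 ^ 4 * ((n : ℝ) + 1) ^ 6 * (A * ell (n + 1) ^ (2 / ((n : ℝ) + 1))) *
          (t ^ (-ga (n + 1)) * Pa)) * ((2 : ℝ) ^ j) ^ (-ga (n + 1)) := by
      intro j _
      rw [Real.mul_rpow (by positivity) ht.le]
      ring
    rw [Finset.sum_congr rfl e, ← Finset.mul_sum]
    have hg := h27_geom (ga (n + 1)) hga0 hga1 J
    have ht0 : 0 ≤ t ^ (-ga (n + 1)) := Real.rpow_nonneg ht.le _
    calc _ ≤ (10 ^ 4 * ((n : ℝ) + 1) ^ 6 * (A * ell (n + 1) ^ (2 / ((n : ℝ) + 1))) *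
          (t ^ (-ga (n + 1)) * Pa)) * (2 / ga (n + 1)) :=
          mul_le_mul_of_nonneg_left hg (mul_nonneg hc0 (mul_nonneg ht0 hPa0))
      _ = _ := by ring
  have hgae : 2 / ga (n + 1) = (n + 1) * (n + 2) := by
    unfold ga
    rw [hN]
    field_simp
    ring
  rw [hgae] at hsum
  rw [hN] at hS0
  have hell : 0 ≤ ell (n + 1) := by
    unfold ell
    linarith
  have hT : 0 ≤ ((n : ℝ) + 1) ^ 6 * (A * ell (n + 1) ^ (2 / ((n : ℝ) + 1))) *
      ((n + 1) * (n + 2)) * t ^ (-ga (n + 1)) * Pa := by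
    have h1 := Real.rpow_nonneg hell (2 / ((n : ℝ) + 1))
    have h2 : 0 ≤ t ^ (-ga (n + 1)) := Real.rpow_nonneg ht.le _
    positivity
  calc (V.card : ℝ) ≤ _ := hcard
    _ ≤ 10 ^ 5 * ((n : ℝ) + 1) ^ 6 * a * Pa + 10 ^ 4 * ((n : ℝ) + 1) ^ 6 *
      (A * ell (n + 1) ^ (2 / ((n : ℝ) + 1))) * ((n + 1) * (n + 2)) * t ^ (-ga (n + 1)) * Pa :=
        add_le_add hS0 hsum
    _ ≤ _ := by nlinarith

end Pool.Agent.Helper34.QH
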