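import Pool.Agent.Helper34.QH.Parity
import Pool.Agent.Helper34.QH.Slicing
import Pool.Agent.Helper34.QH.Count
import Pool.Agent.Helper34.QH.Root
import Pool.Agent.Helper34.QH.FatBound

/-! Project QH (helper34), MP_735047_co: bounds with a constant depending on the dimension. -/

namespace Pool.Agent.Helper34.QH

open MeasureTheory

lemma bs_one_le_F (n : ℕ) : 1 ≤ F n := by
  unfold F
  have h1 : (1 : ℝ) ≤ Real.sqrt (4 / 3) := by
    rw [Real.one_le_sqrt]
    norm_num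
  have h2 : (1 : ℝ) ≤ (Real.sqrt (4 / 3)) ^ n := one_le_pow₀ h1
  have h3 : (1 : ℝ) ≤ ((n : ℝ) + 1) ^ 2 := by
    apply one_le_pow₀
    linarith [(Nat.cast_nonneg n : (0 : ℝ) ≤ n)]
  nlinarith

lemma bs_om_nonneg (n : ℕ) : 0 ≤ om n := by
  unfold om
  have := F_pos n
  positivity

lemma bs_one_le_ell (n : ℕ) : 1 ≤ ell n := by
  unfold ell
  have := bs_om_nonneg n
  linarith

lemma bs_al_nonneg {n : ℕ} (hn : 1 ≤ n) : 0 ≤ al n := by
  have : (1 : ℝ) ≤ n := by exact_mod_cast hn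
  unfold al
  apply div_nonneg <;> linarith

lemma bs_al_le_one (n : ℕ) : al n ≤ 1 := by
  unfold al
  rw [div_le_one (by positivity)]
  linarith

lemma bs_al_mono (n : ℕ) : al n ≤ al (n + 1) := by
  unfold al
  push_cast
  rw [div_le_div_iff₀ (by positivity) (by positivity)]
  nlinarith [(Nat.cast_nonneg n : (0 : ℝ) ≤ n)]

lemma bs_bd_mono {n : ℕ} {K M K' M' : ℝ} (h : Bd n K M) (hK : K' ≤ K) (hM : M ≤ M') :
    Bd n K' M' := fun V hV hk => (h V hV (hk.trans hK)).trans hM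

lemma bs_parity_bd (n : ℕ) (K : ℝ) : Bd n K (2 ^ n * (K + 1)) := by
  intro V hV hk
  have h := parity V hV
  have h' : (V.card : ℝ) ≤ 2 ^ n * (((oth V).ncard : ℝ) + 1) := by exact_mod_cast h
  refine h'.trans ?_
  gcongr

lemma bs_wide_mono {n : ℕ} {K : Set (Fin n → ℝ)} {w w' : ℝ} (h : Wide K w) (hw : w' ≤ w) :
    Wide K w' := by
  intro u hu
  obtain ⟨x, hx, y, hy, hxy⟩ := h u hu
  exact ⟨x, hx, y, hy, hw.trans hxy⟩

theorem base_step (n : ℕ) (hn : 1 ≤ n) (A : ℝ) (hA : 0 < A)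
    (hB : ∀ K : ℝ, 1 ≤ K → Bd n K (A * K ^ al n)) :
    ∃ A' : ℝ, 0 < A' ∧ ∀ K : ℝ, 1 ≤ K → Bd (n + 1) K (A' * K ^ al (n + 1)) := by
  have hN2 : 2 ≤ n + 1 := by omega
  have hnR : (1 : ℝ) ≤ n := by exact_mod_cast hn
  have hk := kap_pos hN2
  have hk1 := kap_le_one hN2
  have hkN : 0 < kap (n + 1) ^ (n + 1) := by positivity
  have hkN1 : kap (n + 1) ^ (n + 1) ≤ 1 := pow_le_one₀ hk.le hk1
  set t : ℝ := ell (n + 1) / kap (n + 1) ^ (n + 1) with ht
  have hl1 := bs_one_le_ell (n + 1)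
  have ht1 : 1 ≤ t := by
    rw [ht, le_div_iff₀ hkN]
    linarith
  have ht0 : 0 < t := by linarith
  have hkt : kap (n + 1) ^ (n + 1) * t = ell (n + 1) := by
    rw [ht]
    field_simp
  set a : ℝ := 2 ^ (n + 1) * (9 * t + 1) with ha
  have ha0 : 0 ≤ a := by positivity
  have hal0 := bs_al_nonneg (n := n + 1) (by omega)
  have hal1 := bs_al_le_one (n + 1)
  have haln := bs_al_nonneg hn
  -- local bounds
  have hBa : Bd (n + 1) (9 * t) (a * (9 * t) ^ al (n + 1)) := by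
    refine bs_bd_mono (bs_parity_bd (n + 1) (9 * t)) le_rfl ?_
    have : (1 : ℝ) ≤ (9 * t) ^ al (n + 1) := Real.one_le_rpow (by linarith) hal0
    calc (2 : ℝ) ^ (n + 1) * (9 * t + 1) = a * 1 := by rw [ha]; ring
      _ ≤ a * (9 * t) ^ al (n + 1) := mul_le_mul_of_nonneg_left this ha0
  have hBa' : Bd (n + 1) (9 * (kap (n + 1) ^ (n + 1) * t))
      (a * (9 * (kap (n + 1) ^ (n + 1) * t)) ^ al (n + 1)) := by
    rw [hkt]
    refine bs_bd_mono (bs_parity_bd (n + 1) (9 * ell (n + 1))) le_rfl ?_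
    have : (1 : ℝ) ≤ (9 * ell (n + 1)) ^ al (n + 1) := Real.one_le_rpow (by linarith) hal0
    have hlt : ell (n + 1) ≤ t := by
      rw [← hkt]
      nlinarith
    calc (2 : ℝ) ^ (n + 1) * (9 * ell (n + 1) + 1) ≤ 2 ^ (n + 1) * (9 * t + 1) := by gcongr
      _ = a * 1 := by rw [ha]; ring
      _ ≤ a * (9 * ell (n + 1)) ^ al (n + 1) := mul_le_mul_of_nonneg_left this ha0
  -- the width threshold
  set q : ℝ := (((n : ℝ) + 1) * (n + 2)) with hq
  have hq1 : 1 ≤ q := by nlinarith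
  obtain ⟨m, hm⟩ : ∃ m : ℕ, 3 * q * t + (n + 1) ≤ m := exists_nat_ge _
  have hmN : n + 1 ≤ m := by
    have : ((n : ℝ) + 1) ≤ m := by
      have : 0 ≤ 3 * q * t := by positivity
      linarith
    exact_mod_cast this
  have hmpow : 3 * (q ^ (n + 1) * t) ≤ (m : ℝ) ^ (n + 1) := by
    have h1 : (3 * q * t) ^ (n + 1) ≤ (m : ℝ) ^ (n + 1) := by
      apply pow_le_pow_left₀ (by positivity)
      have : (0 : ℝ) ≤ (n : ℝ) + 1 := by positivity
      linarith
    refine le_trans ?_ h1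
    have h3 : (3 * t) ≤ (3 * t) ^ (n + 1) := le_self_pow₀ (by linarith) (by omega)
    calc 3 * (q ^ (n + 1) * t) = (3 * t) * q ^ (n + 1) := by ring
      _ ≤ (3 * t) ^ (n + 1) * q ^ (n + 1) := by gcongr
      _ = (3 * q * t) ^ (n + 1) := by rw [← mul_pow]; congr 1; ring
  set w1 : ℝ := q * om (n + 1) + 2 * ((n + 1 : ℕ) : ℝ) * F (n + 1) + m * F (n + 1) with hw1
  have hFp := F_pos (n + 1)
  have homp := bs_om_nonneg (n + 1)
  have hw10 : 0 ≤ w1 := by positivity
  -- constants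
  set B1 : ℝ := A * (w1 + 1) ^ (2 / ((n : ℝ) + 1)) * (w1 + 2) ^ al n with hB1
  set B2 : ℝ := 10 ^ 5 * ((n : ℝ) + 1) ^ 6 *
      (a + A * ell (n + 1) ^ (2 / ((n : ℝ) + 1)) * ((n + 1) * (n + 2)) * t ^ (-ga (n + 1))) *
        16 ^ al (n + 1) with hB2
  have hB10 : 0 ≤ B1 := by positivity
  have hB20 : 0 ≤ B2 := by
    have : 0 ≤ ell (n + 1) := by linarith
    positivity
  refine ⟨B1 + B2 + 1, by positivity, ?_⟩
  intro K hK V hV hkV
  have hK0 : 0 < K := by linarith
  have hKal : 0 ≤ K ^ al (n + 1) := by positivity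
  by_cases hW : Wide (hull V) w1
  · -- fat case
    have hWa : Wide (hull V) (((n : ℝ) + 1) * (n + 2) * om (n + 1)) := by
      apply bs_wide_mono hW
      rw [hw1]
      have : 0 ≤ 2 * ((n + 1 : ℕ) : ℝ) * F (n + 1) + m * F (n + 1) := by positivity
      linarith
    have hWb : Wide (hull V) (2 * ((n + 1 : ℕ) : ℝ) * F (n + 1)) := by
      apply bs_wide_mono hW
      rw [hw1]
      have : 0 ≤ q * om (n + 1) + m * F (n + 1) := by positivity
      linarith
    have hWc : Wide (hull V) ((m : ℝ) * F (n + 1)) := by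
      apply bs_wide_mono hW
      rw [hw1]
      have : 0 ≤ q * om (n + 1) + 2 * ((n + 1 : ℕ) : ℝ) * F (n + 1) := by positivity
      linarith
    have hvol := vol_ge (n := n + 1) (by omega) hmN (hull V) (convex_convexHull ℝ _)
      (hull_compact V) hWc
    have hvol' : q ^ (n + 1) * t ≤ volume.real (hull V) := by linarith
    have hfb := fat_bound hn V hV t a A ht0 ha0 hA.le (by rw [hkt]) hWa hvol' hBa hBa' hB
    have hvo := vol_le_oth hN2 V hV hWb
    have hv16 : volume.real (hull V) ≤ 16 * K := hvo.trans (by linarith)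
    have hvr : volume.real (hull V) ^ al (n + 1) ≤ 16 ^ al (n + 1) * K ^ al (n + 1) := by
      rw [← Real.mul_rpow (by norm_num) hK0.le]
      exact Real.rpow_le_rpow measureReal_nonneg hv16 hal0
    calc (V.card : ℝ) ≤ _ := hfb
      _ ≤ 10 ^ 5 * ((n : ℝ) + 1) ^ 6 *
          (a + A * ell (n + 1) ^ (2 / ((n : ℝ) + 1)) * ((n + 1) * (n + 2)) *
            t ^ (-ga (n + 1))) * (16 ^ al (n + 1) * K ^ al (n + 1)) := by
          apply mul_le_mul_of_nonneg_left hvr
          have : 0 ≤ ell (n + 1) := by linarith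
          positivity
      _ = B2 * K ^ al (n + 1) := by rw [hB2]; ring
      _ ≤ (B1 + B2 + 1) * K ^ al (n + 1) := by
          apply mul_le_mul_of_nonneg_right _ hKal
          linarith
  · obtain ⟨u, hu, hthin⟩ := thin_of_not_wide V w1 hW
    have hsl := slicing hn V hV u hu w1 hw10 hthin K 1 A le_rfl hK hA.le
      (fun K' h1 _ => hB K' h1) hkV
    have h1 : (K + (w1 + 1) * 1) ≤ (w1 + 2) * K := by nlinarith
    have h2 : (K + (w1 + 1) * 1) ^ al n ≤ (w1 + 2) ^ al n * K ^ al (n + 1) := by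
      calc (K + (w1 + 1) * 1) ^ al n ≤ ((w1 + 2) * K) ^ al n :=
            Real.rpow_le_rpow (by positivity) h1 haln
        _ = (w1 + 2) ^ al n * K ^ al n := Real.mul_rpow (by positivity) hK0.le
        _ ≤ (w1 + 2) ^ al n * K ^ al (n + 1) := by
            apply mul_le_mul_of_nonneg_left _ (by positivity)
            exact Real.rpow_le_rpow_of_exponent_le hK (bs_al_mono n)
    calc (V.card : ℝ) ≤ _ := hsl
      _ ≤ A * (w1 + 1) ^ (2 / ((n : ℝ) + 1)) * ((w1 + 2) ^ al n * K ^ al (n + 1)) := by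
          apply mul_le_mul_of_nonneg_left h2 (by positivity)
      _ = B1 * K ^ al (n + 1) := by rw [hB1]; ring
      _ ≤ (B1 + B2 + 1) * K ^ al (n + 1) := by
          apply mul_le_mul_of_nonneg_right _ hKal
          linarith

theorem base (n : ℕ) (hn : 1 ≤ n) : ∃ A : ℝ, 0 < A ∧ ∀ K : ℝ, 1 ≤ K → Bd n K (A * K ^ al n) := by
  induction n, hn using Nat.le_induction with
  | base =>
    refine ⟨2, by norm_num, ?_⟩
    intro K hK V hV _
    have h := dim_one V hV
    have hal : al 1 = 0 := by simp [al]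
    rw [hal, Real.rpow_zero]
    have : (V.card : ℝ) ≤ 2 := by exact_mod_cast h
    linarith
  | succ n hn ih =>
    obtain ⟨A, hA, hB⟩ := ih
    exact base_step n hn A hA hB

end Pool.Agent.Helper34.QH
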