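import Pool.Agent.Helper34.QH.Defs

/-! QH-5a: the average number of lattice points of the translates of a compact set is its volume
(MP_735047_co) -/

set_option autoImplicit false

namespace Pool.Agent.Helper34.QH

open MeasureTheory
open scoped ENNReal

private theorem ca_fin {n : ℕ} {K : Set (Fin n → ℝ)} (hK : Bornology.IsBounded K) :
    (pts K).Finite := by
  obtain ⟨R, hR⟩ := hK.exists_norm_le
  refine (Set.finite_Icc (fun _ : Fin n => -⌈R⌉) (fun _ => ⌈R⌉)).subset ?_
  intro z hz
  have h1 : ∀ i, |(z i : ℝ)| ≤ R := fun i => (norm_le_pi_norm (toR z) i).trans (hR _ hz)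
  rw [Set.mem_Icc, Pi.le_def, Pi.le_def]
  constructor
  · intro i
    have h2 := (abs_le.1 (h1 i)).1
    have h3 : R ≤ (⌈R⌉ : ℝ) := Int.le_ceil R
    have h4 : (-⌈R⌉ : ℝ) ≤ (z i : ℝ) := by linarith
    exact_mod_cast h4
  · intro i
    have h2 := (abs_le.1 (h1 i)).2
    have h3 : R ≤ (⌈R⌉ : ℝ) := Int.le_ceil R
    have h4 : (z i : ℝ) ≤ (⌈R⌉ : ℝ) := by linarith
    exact_mod_cast h4

/-- the unit cube -/
private def cube (n : ℕ) : Set (Fin n → ℝ) := Set.pi Set.univ (fun _ => Set.Ico 0 1)

private lemma cube_meas (n : ℕ) : MeasurableSet (cube n) :=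
  MeasurableSet.univ_pi (fun _ => measurableSet_Ico)

private lemma cube_vol (n : ℕ) : volume (cube n) = 1 := by
  unfold cube
  rw [Real.volume_pi_Ico]
  simp

/-- the integer part -/
private noncomputable def fl {n : ℕ} (x : Fin n → ℝ) : Fin n → ℤ := fun i => ⌊x i⌋

private lemma fl_meas {n : ℕ} : Measurable (fl : (Fin n → ℝ) → (Fin n → ℤ)) := by
  apply measurable_pi_lambda
  intro i
  exact Int.measurable_floor.comp (measurable_pi_apply i)

private lemma fl_iff {n : ℕ} (z : Fin n → ℤ) (t : Fin n → ℝ) : fl (toR z + t) = z ↔ t ∈ cube n := by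
  unfold cube
  rw [Set.mem_univ_pi, funext_iff]
  apply forall_congr'
  intro i
  show ⌊(z i : ℝ) + t i⌋ = z i ↔ _
  rw [Int.floor_intCast_add, Set.mem_Ico]
  constructor
  · intro h
    have : ⌊t i⌋ = 0 := by omega
    exact Int.floor_eq_zero_iff.1 this
  · intro h
    have : ⌊t i⌋ = 0 := Int.floor_eq_zero_iff.2 h
    omega

private lemma vol_eq {n : ℕ} (K : Set (Fin n → ℝ)) (hk : IsCompact K) :
    volume K = ∫⁻ t in cube n, ((pts ((fun x => x + -t) '' K)).encard : ℝ≥0∞) := by
  have hm : MeasurableSet K := hk.measurableSet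
  have h1 := tsum_measure_preimage_singleton (μ := volume.restrict K) (s := Set.univ)
    (f := (fl : (Fin n → ℝ) → (Fin n → ℤ))) Set.countable_univ
    (fun y _ => fl_meas (measurableSet_singleton y))
  rw [Set.preimage_univ, Measure.restrict_apply_univ,
    tsum_univ (f := fun z : Fin n → ℤ => (volume.restrict K) (fl ⁻¹' {z}))] at h1
  rw [← h1]
  have h2 : ∀ z : Fin n → ℤ, (volume.restrict K) (fl ⁻¹' {z}) =
      ∫⁻ t in cube n, ({t | toR z + t ∈ K} : Set (Fin n → ℝ)).indicator 1 t := by
    intro z
    rw [Measure.restrict_apply (fl_meas (measurableSet_singleton z))]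
    have hmz : MeasurableSet {t : Fin n → ℝ | toR z + t ∈ K} :=
      (measurable_const_add (toR z)) hm
    rw [lintegral_indicator_one hmz, Measure.restrict_apply hmz,
      ← measure_preimage_add volume (toR z)]
    congr 1
    ext t
    simp only [Set.mem_preimage, Set.mem_inter_iff, Set.mem_singleton_iff, Set.mem_ofPred_eq]
    rw [fl_iff, and_comm]
  simp only [h2]
  rw [← lintegral_tsum]
  · apply lintegral_congr
    intro t
    rw [← ENNReal.tsum_set_one,
      tsum_subtype (pts ((fun x => x + -t) '' K)) (fun _ => (1 : ℝ≥0∞))]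
    apply tsum_congr
    intro z
    have h3 : (toR z + t ∈ K) ↔ z ∈ pts ((fun x => x + -t) '' K) := by
      unfold pts
      simp only [Set.mem_image, Set.mem_ofPred_eq]
      constructor
      · intro h
        exact ⟨_, h, by simp⟩
      · rintro ⟨x, hx, hxe⟩
        rw [← hxe]
        simpa using hx
    by_cases h : toR z + t ∈ K
    · rw [Set.indicator_of_mem (show t ∈ {t | toR z + t ∈ K} from h),
        Set.indicator_of_mem (h3.1 h)]
      rfl
    · rw [Set.indicator_of_notMem (show t ∉ {t | toR z + t ∈ K} from h),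
        Set.indicator_of_notMem (fun h' => h (h3.2 h'))]
  · intro z
    have hmz : MeasurableSet {t : Fin n → ℝ | toR z + t ∈ K} :=
      (measurable_const_add (toR z)) hm
    exact (measurable_one.indicator hmz).aemeasurable

private lemma encard_eq {n : ℕ} (K : Set (Fin n → ℝ)) (hk : IsCompact K) (t : Fin n → ℝ) :
    ((pts ((fun x => x + -t) '' K)).encard : ℝ≥0∞) =
      ENNReal.ofReal ((pts ((fun x => x + -t) '' K)).ncard : ℝ) := by
  have hb : Bornology.IsBounded ((fun x => x + -t) '' K) :=
    (hk.image (by fun_prop : Continuous (fun x : Fin n → ℝ => x + -t))).isBounded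
  rw [ENNReal.ofReal_natCast, ← (ca_fin hb).cast_ncard_eq]
  simp

/-- If every translate of `K'` has at least `a` lattice points then `a ≤ vol K'`. -/
theorem le_vol_of_translates {n : ℕ} (K : Set (Fin n → ℝ)) (hk : IsCompact K) (a : ℝ)
    (h : ∀ t : Fin n → ℝ, a ≤ ((pts ((fun x => x + t) '' K)).ncard : ℝ)) :
    a ≤ volume.real K := by
  have h1 : ENNReal.ofReal a ≤ volume K := by
    rw [vol_eq K hk]
    calc ENNReal.ofReal a = ∫⁻ t in cube n, ENNReal.ofReal a := by
          rw [setLIntegral_const, cube_vol, mul_one]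
      _ ≤ _ := by
          apply lintegral_mono
          intro t
          beta_reduce
          rw [encard_eq K hk t]
          exact ENNReal.ofReal_le_ofReal (h (-t))
  exact (ENNReal.ofReal_le_iff_le_toReal hk.measure_lt_top.ne).1 h1

/-- If every translate of `K'` has at most `a` lattice points then `vol K' ≤ a`. -/
theorem vol_le_of_translates {n : ℕ} (K : Set (Fin n → ℝ)) (hk : IsCompact K) (a : ℝ)
    (h : ∀ t : Fin n → ℝ, ((pts ((fun x => x + t) '' K)).ncard : ℝ) ≤ a) :
    volume.real K ≤ a := by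
  have ha : 0 ≤ a := le_trans (Nat.cast_nonneg _) (h 0)
  have h1 : volume K ≤ ENNReal.ofReal a := by
    rw [vol_eq K hk]
    calc ∫⁻ t in cube n, ((pts ((fun x => x + -t) '' K)).encard : ℝ≥0∞) ≤
          ∫⁻ t in cube n, ENNReal.ofReal a := by
          apply lintegral_mono
          intro t
          beta_reduce
          rw [encard_eq K hk t]
          exact ENNReal.ofReal_le_ofReal (h (-t))
      _ = ENNReal.ofReal a := by
          rw [setLIntegral_const, cube_vol, mul_one]
  exact ENNReal.toReal_le_of_le_ofReal ha h1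

end Pool.Agent.Helper34.QH
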