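import Mathlib

/-! Project QH (helper34), MP_735047_co: definitions. -/

namespace Pool.Agent.Helper34.QH

open MeasureTheory

/-- The real point with the coordinates of an integer point. -/
def toR {n : ℕ} (x : Fin n → ℤ) : Fin n → ℝ := fun i => (x i : ℝ)

/-- Convex hull of a finite set of integer points. -/
def hull {n : ℕ} (V : Finset (Fin n → ℤ)) : Set (Fin n → ℝ) :=
  convexHull ℝ (toR '' (V : Set (Fin n → ℤ)))

/-- Convex independence (strictly convex position). -/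
def CI {n : ℕ} (V : Finset (Fin n → ℤ)) : Prop := ∀ v ∈ V, toR v ∉ hull (V.erase v)

/-- The other lattice points of the hull. -/
def oth {n : ℕ} (V : Finset (Fin n → ℤ)) : Set (Fin n → ℤ) := {x | toR x ∈ hull V ∧ x ∉ V}

/-- Every convexly independent set with at most `K` other lattice points in its hull has at most
`M` elements. -/
def Bd (n : ℕ) (K M : ℝ) : Prop :=
  ∀ V : Finset (Fin n → ℤ), CI V → ((oth V).ncard : ℝ) ≤ K → (V.card : ℝ) ≤ M

/-- The integer linear form with coefficient vector `u`. -/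
def lin {n : ℕ} (u : Fin n → ℤ) (x : Fin n → ℝ) : ℝ := ∑ i, (u i : ℝ) * x i

/-- Every lattice width of `K` is at least `w` (with attained values). -/
def Wide {n : ℕ} (K : Set (Fin n → ℝ)) (w : ℝ) : Prop :=
  ∀ u : Fin n → ℤ, u ≠ 0 → ∃ x ∈ K, ∃ y ∈ K, w ≤ lin u x - lin u y

/-- The lattice points of `K`. -/
def pts {n : ℕ} (K : Set (Fin n → ℝ)) : Set (Fin n → ℤ) := {z | toR z ∈ K}

/-- The flatness constant. -/
noncomputable def F (n : ℕ) : ℝ := 7 * ((n : ℝ) + 1) ^ 2 * (Real.sqrt (4 / 3)) ^ n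

/-- The cap of `P` of height `h` (relative to the centre `o`) cut by the linear form `φ`. -/
def cap {n : ℕ} (P : Set (Fin n → ℝ)) (o : Fin n → ℝ) (φ : (Fin n → ℝ) →ₗ[ℝ] ℝ) (h : ℝ) :
    Set (Fin n → ℝ) := {x | x ∈ P ∧ 1 - h ≤ φ (x - o)}

/-- The reflected and scaled copy `y - κ (D - y)` of `D`. -/
def opp {n : ℕ} (κ : ℝ) (D : Set (Fin n → ℝ)) (y : Fin n → ℝ) : Set (Fin n → ℝ) :=
  {z | ∃ x ∈ D, z = y - κ • (x - y)}

/-- The scaling constant `κ`. -/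
noncomputable def kap (n : ℕ) : ℝ := ((n : ℝ) + 1) / ((2 * (n : ℝ) + 1) * ((n : ℝ) - 1))

/-- The constant `ω`. -/
noncomputable def om (n : ℕ) : ℝ := 2 * (n : ℝ) ^ 2 * F n

/-- The constant `ℓ`. -/
noncomputable def ell (n : ℕ) : ℝ := 2 * om n + 1

/-- The exponents. -/
noncomputable def al (n : ℕ) : ℝ := ((n : ℝ) - 1) / ((n : ℝ) + 1)

noncomputable def be (n : ℕ) : ℝ := ((n : ℝ) - 2) / (n : ℝ)

noncomputable def ga (n : ℕ) : ℝ := 2 / ((n : ℝ) * ((n : ℝ) + 1))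

/-- `(o, w)` is a position frame of `P`: coming from a simplex of maximal volume with vertices
`o - ∑ w`, `o + w i` and centroid `o`. -/
structure Pos {n : ℕ} (P : Set (Fin n → ℝ)) (o : Fin n → ℝ) (w : Fin n → Fin n → ℝ) : Prop where
  det_ne : (Matrix.of w).det ≠ 0
  mem : ∀ i, o + w i ∈ P
  mem' : o - ∑ i, w i ∈ P
  bdd : ∀ x ∈ P, ∃ c : Fin n → ℝ, x = o + ∑ i, c i • w i ∧ ∀ i, |c i| ≤ 2
  low : ∀ φ : (Fin n → ℝ) →ₗ[ℝ] ℝ, (∀ x ∈ P, φ (x - o) ≤ 1) → ∀ x ∈ P, -(n : ℝ) ≤ φ (x - o)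

/-- `c(ℤⁿ, k) ≤ t`. -/
def HellyLe (n k t : ℕ) : Prop :=
  ∀ (m : ℕ), 1 ≤ m → ∀ C : Fin m → Set (Fin n → ℝ), (∀ i, Convex ℝ (C i)) →
    {z : Fin n → ℤ | ∀ i, toR z ∈ C i}.encard = k →
    ∃ I : Finset (Fin m), I.card ≤ t ∧ {z : Fin n → ℤ | ∀ i ∈ I, toR z ∈ C i}.encard = k

end Pool.Agent.Helper34.QH
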