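import Pool.Agent.Helper34.QH.Defs

/-! QH-1: the Helly number from bounds for the number of vertices. -/

set_option autoImplicit false

namespace Pool.Agent.Helper34.QH

theorem he_pts_finite {n : ℕ} {K : Set (Fin n → ℝ)} (hK : Bornology.IsBounded K) :
    {z : Fin n → ℤ | toR z ∈ K}.Finite := by
  obtain ⟨R, hR⟩ := hK.subset_closedBall (0 : Fin n → ℝ)
  have h1 : (Set.pi Set.univ (fun _ : Fin n => Set.Icc (-⌈R⌉) ⌈R⌉)).Finite :=
    Set.Finite.pi fun _ => Set.finite_Icc _ _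
  refine h1.subset ?_
  intro z hz i _
  have h2 := hR hz
  rw [mem_closedBall_zero_iff] at h2
  have h3 : |(z i : ℝ)| ≤ R := (norm_le_pi_norm (toR z) i).trans h2
  have h4 := abs_le.1 (h3.trans (Int.le_ceil R))
  constructor
  · exact_mod_cast h4.1
  · exact_mod_cast h4.2

theorem he_toR_inj {n : ℕ} : Function.Injective (toR : (Fin n → ℤ) → (Fin n → ℝ)) := by
  intro x y h
  funext i
  have h1 := congrFun h i
  unfold toR at h1
  exact_mod_cast h1

theorem he_convex_lt {n : ℕ} (f : (Fin n → ℝ) →L[ℝ] ℝ) (g : ℝ) :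
    Convex ℝ {x | f x < g} := convex_halfSpace_lt f.toLinearMap.isLinear g

/-- a family of half-spaces -/
def HeFam {n m : ℕ} (C : Fin m → Set (Fin n → ℝ)) (I : Finset (Fin m)) (Z K0 : Set (Fin n → ℤ))
    (M : ℕ) (f : Fin M → ((Fin n → ℝ) →L[ℝ] ℝ)) (i : Fin M → Fin m) (g : Fin M → ℝ) : Prop :=
  (∀ r, i r ∈ I) ∧ (∀ r, ∀ z ∈ Z, toR z ∈ C (i r) → f r (toR z) < g r) ∧
    ∀ z ∈ Z, (∀ r, f r (toR z) < g r) → z ∈ K0

theorem he_exists_fam {n m : ℕ} (C : Fin m → Set (Fin n → ℝ)) (hC : ∀ i, Convex ℝ (C i))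
    (I : Finset (Fin m)) (Z K0 : Set (Fin n → ℤ)) (hZ : Z.Finite)
    (hI : {z : Fin n → ℤ | ∀ i ∈ I, toR z ∈ C i} = K0) :
    ∃ M f i g, HeFam C I Z K0 M f i g := by
  classical
  have h1 : ∀ z : {z // z ∈ Z \ K0}, ∃ (i : Fin m) (f : (Fin n → ℝ) →L[ℝ] ℝ) (u : ℝ), i ∈ I ∧
      (∀ y ∈ Z, toR y ∈ C i → f (toR y) < u) ∧ u < f (toR z.1) := by
    rintro ⟨z, hzZ, hzK⟩
    rw [← hI] at hzK
    simp only [Set.mem_ofPred_eq, not_forall] at hzK
    obtain ⟨i, hi, hzi⟩ := hzK
    let S : Set (Fin n → ℝ) := toR '' {y | y ∈ Z ∧ toR y ∈ C i}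
    have hSf : S.Finite := (hZ.subset (fun y hy => hy.1)).image _
    have hS : convexHull ℝ S ⊆ C i := by
      apply convexHull_min _ (hC i)
      rintro _ ⟨y, hy, rfl⟩
      exact hy.2
    obtain ⟨f, u, hf1, hf2⟩ := geometric_hahn_banach_closed_point (convex_convexHull ℝ S)
      (hSf.isClosed_convexHull ℝ) (fun h => hzi (hS h))
    exact ⟨i, f, u, hi, fun y hy hyi => hf1 _ (subset_convexHull ℝ S ⟨y, ⟨hy, hyi⟩, rfl⟩), hf2⟩
  choose i f u hi hf hfu using h1
  have : Finite {z // z ∈ Z \ K0} := (hZ.subset Set.sdiff_subset).to_subtype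
  have := Fintype.ofFinite {z // z ∈ Z \ K0}
  let e : Fin (Fintype.card {z // z ∈ Z \ K0}) ≃ {z // z ∈ Z \ K0} := (Fintype.equivFin _).symm
  refine ⟨_, fun r => f (e r), fun r => i (e r), fun r => u (e r), fun r => hi _,
    fun r => hf _, ?_⟩
  intro z hz hr
  by_contra hcon
  have h2 : f (e (e.symm ⟨z, hz, hcon⟩)) (toR z) < u (e (e.symm ⟨z, hz, hcon⟩)) :=
    hr (e.symm ⟨z, hz, hcon⟩)
  rw [Equiv.apply_symm_apply] at h2
  exact absurd h2 (not_lt.2 (hfu _).le)

theorem he_V {n M : ℕ} (f : Fin M → ((Fin n → ℝ) →L[ℝ] ℝ)) (g : Fin M → ℝ)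
    (z : Fin M → (Fin n → ℤ)) (h1 : ∀ r, f r (toR (z r)) = g r)
    (h2 : ∀ r s, s ≠ r → f s (toR (z r)) < g s) :
    ∃ V : Finset (Fin n → ℤ), CI V ∧ V.card = M ∧ (∀ v ∈ V, ∃ r, v = z r) ∧
      ∀ y ∈ oth V, ∀ r, f r (toR y) < g r := by
  classical
  have hinj : Function.Injective z := by
    intro r s hrs
    by_contra hne
    have h3 := h2 s r hne
    rw [← hrs, h1] at h3
    exact lt_irrefl _ h3
  have hlt : ∀ r, hull ((Finset.univ.image z).erase (z r)) ⊆ {x | f r x < g r} := by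
    intro r
    apply convexHull_min _ (he_convex_lt _ _)
    rintro _ ⟨v, hv, rfl⟩
    obtain ⟨hv1, hv2⟩ := Finset.mem_erase.1 (Finset.mem_coe.1 hv)
    obtain ⟨s, -, rfl⟩ := Finset.mem_image.1 hv2
    exact h2 s r (fun h => hv1 (by rw [h]))
  refine ⟨Finset.univ.image z, ?_, ?_, ?_, ?_⟩
  · intro v hv hcon
    obtain ⟨r, -, rfl⟩ := Finset.mem_image.1 hv
    have h3 := hlt r hcon
    rw [Set.mem_ofPred_eq, h1] at h3
    exact lt_irrefl _ h3
  · rw [Finset.card_image_of_injective _ hinj, Finset.card_univ, Fintype.card_fin]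
  · intro v hv
    obtain ⟨r, -, rfl⟩ := Finset.mem_image.1 hv
    exact ⟨r, rfl⟩
  · rintro y ⟨hy, hyV⟩ r
    have hzr : z r ∈ Finset.univ.image z := Finset.mem_image_of_mem _ (Finset.mem_univ r)
    have h3 : toR '' ((Finset.univ.image z : Finset (Fin n → ℤ)) : Set (Fin n → ℤ)) =
        insert (toR (z r)) (toR '' (((Finset.univ.image z).erase (z r) : Finset (Fin n → ℤ)) :
          Set (Fin n → ℤ))) := by
      rw [← Set.image_insert_eq, ← Finset.coe_insert, Finset.insert_erase hzr]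
    unfold hull at hy
    rw [h3] at hy
    by_cases hne : (toR '' (((Finset.univ.image z).erase (z r) : Finset (Fin n → ℤ)) :
          Set (Fin n → ℤ))).Nonempty
    · rw [convexHull_insert hne] at hy
      obtain ⟨x, hx, w, hw, hyw⟩ := mem_convexJoin.1 hy
      rw [Set.mem_singleton_iff] at hx
      subst hx
      obtain ⟨a, b, ha, hb, hab, rfl'⟩ := hyw
      have hw' : f r w < g r := hlt r hw
      rw [← rfl', map_add, map_smul, map_smul, h1, smul_eq_mul, smul_eq_mul]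
      rcases hb.eq_or_lt with hb0 | hb0
      · exfalso
        apply hyV
        rw [← hb0, zero_smul, add_zero] at rfl'
        have ha1 : a = 1 := by linarith
        rw [ha1, one_smul] at rfl'
        rw [← he_toR_inj rfl']
        exact hzr
      · have h4 : b * f r w < b * g r := mul_lt_mul_of_pos_left hw' hb0
        have h5 : a * g r + b * g r = g r := by rw [← add_mul, hab, one_mul]
        linarith
    · exfalso
      rw [Set.not_nonempty_iff_eq_empty.1 hne, insert_empty_eq, convexHull_singleton,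
        Set.mem_singleton_iff] at hy
      apply hyV
      rw [he_toR_inj hy]
      exact hzr

theorem helly_of_bd {n k t : ℕ}
    (h : ∀ V : Finset (Fin n → ℤ), CI V → (oth V).ncard ≤ k → V.card ≤ t) :
    HellyLe n k t := by
  classical
  intro m _ C hC hk
  set K0 : Set (Fin n → ℤ) := {z | ∀ i, toR z ∈ C i} with hK0
  have hK0f : K0.Finite := Set.encard_lt_top_iff.1 (by rw [hk]; exact ENat.natCast_lt_top k)
  have hK0n : K0.ncard = k := by
    rw [Set.ncard, hk]; rfl
  -- a minimal subfamily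
  obtain ⟨I, hI, hmin⟩ : ∃ I : Finset (Fin m), {z : Fin n → ℤ | ∀ i ∈ I, toR z ∈ C i} = K0 ∧
      ∀ J : Finset (Fin m), {z : Fin n → ℤ | ∀ i ∈ J, toR z ∈ C i} = K0 → I.card ≤ J.card := by
    obtain ⟨I, hI, hm⟩ := (measure (Finset.card : Finset (Fin m) → ℕ)).wf.has_min
      {I | {z : Fin n → ℤ | ∀ i ∈ I, toR z ∈ C i} = K0} ⟨Finset.univ, by simp [hK0]⟩
    exact ⟨I, hI, fun J hJ => not_lt.1 (hm J hJ)⟩
  refine ⟨I, ?_, by rw [hI]; exact hk⟩
  have hx : ∀ i : I, ∃ x : Fin n → ℤ, (∀ j ∈ I, j ≠ i.1 → toR x ∈ C j) ∧ x ∉ K0 := by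
    rintro ⟨i, hi⟩
    by_contra hcon
    push Not at hcon
    have h1 := hmin (I.erase i) (by
      apply Set.Subset.antisymm
      · intro x hx
        exact hcon x (fun j hj hji => hx j (Finset.mem_erase.2 ⟨hji, hj⟩))
      · intro x hx j _
        exact hx j)
    have h2 := Finset.card_erase_lt_of_mem hi
    omega
  choose x hx1 hx2 using hx
  let Y : Set (Fin n → ℝ) := toR '' (K0 ∪ Set.range x)
  have hYf : Y.Finite := (hK0f.union (Set.finite_range x)).image _
  let Z : Set (Fin n → ℤ) := {z | toR z ∈ convexHull ℝ Y}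
  have hZf : Z.Finite := he_pts_finite (hYf.isCompact_convexHull ℝ).isBounded
  have hK0Z : K0 ⊆ Z := fun z hz => subset_convexHull ℝ Y ⟨z, Or.inl hz, rfl⟩
  have hxZ : ∀ i, x i ∈ Z := fun i => subset_convexHull ℝ Y ⟨x i, Or.inr ⟨i, rfl⟩, rfl⟩
  -- the minimal number of half-spaces
  have hex := he_exists_fam C hC I Z K0 hZf hI
  obtain ⟨f, i, g₀, hfam⟩ := Nat.find_spec hex
  have hminM : ∀ M' < Nat.find hex, ¬ ∃ f i g, HeFam C I Z K0 M' f i g :=
    fun M' hM' => Nat.find_min hex hM'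
  generalize Nat.find hex = M at f i g₀ hfam hminM
  -- witnesses for the minimality
  have hwit : ∀ g : Fin M → ℝ, HeFam C I Z K0 M f i g → ∀ r : Fin M,
      ∃ z ∈ Z, z ∉ K0 ∧ ∀ s, s ≠ r → f s (toR z) < g s := by
    intro g hg r
    by_contra hcon
    push Not at hcon
    obtain ⟨M', rfl⟩ : ∃ M', M = M' + 1 := ⟨M - 1, by have := r.2; omega⟩
    apply hminM M' (by omega)
    refine ⟨fun s => f (r.succAbove s), fun s => i (r.succAbove s), fun s => g (r.succAbove s),
      fun s => hg.1 _, fun s => hg.2.1 _, ?_⟩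
    intro z hz hs
    by_contra hzK
    obtain ⟨s, hsr, hs'⟩ := hcon z hz hzK
    obtain ⟨s', rfl⟩ := Fin.exists_succAbove_eq hsr
    exact absurd (hs s') (not_lt.2 hs')
  -- the thresholds
  let S : Set (Fin M → ℝ) := {g | (∀ r, ∃ z ∈ Z, g r = f r (toR z)) ∧ HeFam C I Z K0 M f i g}
  have hSf : S.Finite := by
    have h1 : (Set.pi Set.univ (fun r : Fin M => (fun z => f r (toR z)) '' Z)).Finite :=
      Set.Finite.pi fun r => hZf.image _
    refine h1.subset ?_
    rintro g ⟨hg, -⟩ r _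
    obtain ⟨z, hz, hgz⟩ := hg r
    exact ⟨z, hz, hgz.symm⟩
  have hSne : S.Nonempty := by
    have h1 : ∀ r : Fin M, ∃ z ∈ Z, g₀ r ≤ f r (toR z) ∧
        ∀ y ∈ Z, g₀ r ≤ f r (toR y) → f r (toR z) ≤ f r (toR y) := by
      intro r
      have hne : {z | z ∈ Z ∧ g₀ r ≤ f r (toR z)}.Nonempty := by
        obtain ⟨z, hz, hzK, hs⟩ := hwit g₀ hfam r
        refine ⟨z, hz, ?_⟩
        by_contra hlt
        apply hzK
        apply hfam.2.2 z hz
        intro s
        rcases eq_or_ne s r with rfl | hne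
        · exact not_le.1 hlt
        · exact hs s hne
      obtain ⟨z, hz, hzmin⟩ := Set.exists_min_image {z | z ∈ Z ∧ g₀ r ≤ f r (toR z)}
        (fun z => f r (toR z)) (hZf.subset fun z hz => hz.1) hne
      exact ⟨z, hz.1, hz.2, fun y hy hgy => hzmin y ⟨hy, hgy⟩⟩
    choose z hz hgz hzmin using h1
    refine ⟨fun r => f r (toR (z r)), fun r => ⟨z r, hz r, rfl⟩, hfam.1, ?_, ?_⟩
    · intro r y hy hyC
      exact (hfam.2.1 r y hy hyC).trans_le (hgz r)
    · intro y hy hlt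
      apply hfam.2.2 y hy
      intro r
      by_contra hcon
      exact absurd (hlt r) (not_lt.2 (hzmin r y hy (not_lt.1 hcon)))
  obtain ⟨g, ⟨hg1, hg2⟩, hgmax⟩ := hSf.exists_maximal hSne
  have hz : ∀ r : Fin M, ∃ z ∈ Z, f r (toR z) = g r ∧ ∀ s, s ≠ r → f s (toR z) < g s := by
    intro r
    let W : Set (Fin n → ℤ) := {z | z ∈ Z ∧ z ∉ K0 ∧ ∀ s, s ≠ r → f s (toR z) < g s}
    have hWf : W.Finite := hZf.subset fun z hz => hz.1
    have hWne : W.Nonempty := by
      obtain ⟨z, hz, hzK, hs⟩ := hwit g hg2 r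
      exact ⟨z, hz, hzK, hs⟩
    obtain ⟨z, ⟨hzZ, hzK, hzs⟩, hzmin⟩ := Set.exists_min_image W (fun z => f r (toR z)) hWf hWne
    have hge : g r ≤ f r (toR z) := by
      by_contra hlt
      apply hzK
      apply hg2.2.2 z hzZ
      intro s
      rcases eq_or_ne s r with rfl | hne
      · exact not_le.1 hlt
      · exact hzs s hne
    let g' : Fin M → ℝ := Function.update g r (f r (toR z))
    have hg'r : g' r = f r (toR z) := Function.update_self _ _ _
    have hg's : ∀ s, s ≠ r → g' s = g s := fun s hs => Function.update_of_ne hs _ _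
    have hgg' : g ≤ g' := by
      intro s
      rcases eq_or_ne s r with rfl | hne
      · rw [hg'r]; exact hge
      · rw [hg's s hne]
    have hmem : g' ∈ S := by
      refine ⟨?_, hg2.1, ?_, ?_⟩
      · intro s
        rcases eq_or_ne s r with rfl | hne
        · exact ⟨z, hzZ, hg'r⟩
        · rw [hg's s hne]; exact hg1 s
      · intro s y hy hyC
        exact (hg2.2.1 s y hy hyC).trans_le (hgg' s)
      · intro y hy hlt
        by_contra hyK
        have hyW : y ∈ W := by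
          refine ⟨hy, hyK, fun s hs => ?_⟩
          rw [← hg's s hs]
          exact hlt s
        have h1 := hlt r
        rw [hg'r] at h1
        exact absurd h1 (not_lt.2 (hzmin y hyW))
    have h2 := hgmax hmem hgg' r
    rw [hg'r] at h2
    exact ⟨z, hzZ, le_antisymm h2 hge, hzs⟩
  choose z hzZ hz1 hz2 using hz
  obtain ⟨V, hVCI, hVcard, hVz, hVoth⟩ := he_V f g z hz1 hz2
  have hVsub : hull V ⊆ convexHull ℝ Y := by
    apply convexHull_min _ (convex_convexHull ℝ Y)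
    rintro _ ⟨v, hv, rfl⟩
    obtain ⟨r, rfl⟩ := hVz v hv
    exact hzZ r
  have hoth : oth V ⊆ K0 := by
    intro y hy
    exact hg2.2.2 y (hVsub hy.1) (hVoth y hy)
  have hMt : M ≤ t := by
    rw [← hVcard]
    apply h V hVCI
    rw [← hK0n]
    exact Set.ncard_le_ncard hoth hK0f
  refine le_trans ?_ hMt
  -- `#I ≤ M`
  have hsur : I ⊆ Finset.univ.image i := by
    intro j hj
    have h1 : ∃ r, ¬ f r (toR (x ⟨j, hj⟩)) < g r := by
      by_contra hcon
      push Not at hcon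
      exact hx2 ⟨j, hj⟩ (hg2.2.2 _ (hxZ _) hcon)
    obtain ⟨r, hr⟩ := h1
    rw [Finset.mem_image]
    refine ⟨r, Finset.mem_univ r, ?_⟩
    by_contra hne
    exact hr (hg2.2.1 r _ (hxZ _) (hx1 ⟨j, hj⟩ (i r) (hg2.1 r) hne))
  calc I.card ≤ (Finset.univ.image i).card := Finset.card_le_card hsur
    _ ≤ (Finset.univ : Finset (Fin M)).card := Finset.card_image_le
    _ = M := by simp

end Pool.Agent.Helper34.QH
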