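import Pool.Agent.Helper34.QH.MainB
import Pool.Agent.Helper34.QH.Helly

/-! Project QH (helper34), MP_735047_co: the main induction. -/

namespace Pool.Agent.Helper34.QH

open MeasureTheory Real Filter

lemma log_four_thirds : Real.log (4 / 3) ≤ 0.29 := by
  rw [Real.log_le_iff_le_exp (by norm_num)]
  have h := Real.sum_le_exp_of_nonneg (x := 0.29) (by norm_num) 4
  refine le_trans ?_ h
  norm_num [Finset.sum_range_succ, Nat.factorial]

lemma eventually_large : ∀ᶠ N : ℕ in atTop, Large N := by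
  have h1 : ∀ᶠ x : ℝ in atTop, ‖Real.log x‖ ≤ 0.001 * ‖x‖ :=
    Real.isLittleO_log_id_atTop.bound (by norm_num)
  have h2 : Tendsto (fun N : ℕ => (N : ℝ) + 1) atTop atTop :=
    tendsto_atTop_add_const_right _ _ tendsto_natCast_atTop_atTop
  have h3 := h2.eventually h1
  filter_upwards [h3, eventually_ge_atTop 20000] with N hN hN2
  have hNR : (20000 : ℝ) ≤ N := by exact_mod_cast hN2
  refine ⟨by omega, ?_⟩
  have hs : Real.log (Real.sqrt (4 / 3)) = Real.log (4 / 3) / 2 := by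
    rw [Real.log_sqrt (by norm_num)]
  have hsq : (0 : ℝ) < Real.sqrt (4 / 3) := Real.sqrt_pos.mpr (by norm_num)
  have e : Real.log (6 * F N) = Real.log 42 + 2 * Real.log ((N : ℝ) + 1)
      + N * (Real.log (4 / 3) / 2) := by
    unfold F
    rw [show 6 * (7 * ((N : ℝ) + 1) ^ 2 * Real.sqrt (4 / 3) ^ N)
      = 42 * ((N : ℝ) + 1) ^ 2 * Real.sqrt (4 / 3) ^ N by ring]
    rw [Real.log_mul (by positivity) (by positivity), Real.log_mul (by norm_num) (by positivity),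
      Real.log_pow, Real.log_pow, hs]
    norm_num
  rw [e]
  have h4 : Real.log 42 ≤ 41 := by
    have := Real.log_le_sub_one_of_pos (x := 42) (by norm_num)
    linarith
  have h5 : Real.log ((N : ℝ) + 1) ≤ 0.001 * ((N : ℝ) + 1) := by
    have h6 := (le_abs_self _).trans hN
    rwa [Real.norm_eq_abs, abs_of_nonneg (by positivity)] at h6
  have h7 := log_four_thirds
  nlinarith

lemma eventually_fin : ∀ᶠ N : ℕ in atTop, Fin1 (N : ℝ) := by
  set c2 : ℝ := 1 / (3200000 * exp 5) with hc2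
  have hc20 : 0 < c2 := by positivity
  have h1 : ∀ᶠ x : ℝ in atTop, ‖x ^ 6‖ ≤ (1 / 3200000) * ‖exp (0.056 * x)‖ :=
    (isLittleO_pow_exp_pos_mul_atTop (k := 6) (b := 0.056) (by norm_num)).bound (by norm_num)
  have h2 : ∀ᶠ x : ℝ in atTop, ‖x ^ 8‖ ≤ c2 * ‖exp (0.01 * x)‖ :=
    (isLittleO_pow_exp_pos_mul_atTop (k := 8) (b := 0.01) (by norm_num)).bound hc20
  have h0 : Tendsto (fun N : ℕ => (N : ℝ)) atTop atTop := tendsto_natCast_atTop_atTop
  filter_upwards [h0.eventually h1, h0.eventually h2, eventually_ge_atTop 1] with N hN1 hN2 hN3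
  have hNR : (1 : ℝ) ≤ N := by exact_mod_cast hN3
  unfold Fin1
  generalize (N : ℝ) = x at *
  have hx0 : 0 < x := by linarith
  rw [Real.norm_eq_abs, Real.norm_eq_abs, abs_of_pos (by positivity), abs_of_pos (exp_pos _)]
    at hN1 hN2
  have h3 : exp (-(x ^ 2 / (50 * (x + 1)))) ≤ exp (-(0.01 * x)) := by
    apply exp_le_exp.mpr
    apply neg_le_neg
    rw [le_div_iff₀ (by positivity)]
    nlinarith
  have h4 : x ^ 6 * exp (-0.056 * x) ≤ 1 / 3200000 := by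
    rw [show -0.056 * x = -(0.056 * x) by ring, Real.exp_neg, ← div_eq_mul_inv,
      div_le_iff₀ (exp_pos _)]
    exact hN1
  have h5 : x ^ 8 * exp (-(0.01 * x)) ≤ c2 := by
    rw [Real.exp_neg, ← div_eq_mul_inv, div_le_iff₀ (exp_pos _)]
    exact hN2
  have h6 : x ^ 6 * (1 / 2 * exp 5 * (x * (x + 1)) * exp (-(x ^ 2 / (50 * (x + 1))))) ≤
      exp 5 * (x ^ 8 * exp (-(0.01 * x))) := by
    have h7 : 1 / 2 * (x * (x + 1)) ≤ x ^ 2 := by nlinarith
    calc x ^ 6 * (1 / 2 * exp 5 * (x * (x + 1)) * exp (-(x ^ 2 / (50 * (x + 1)))))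
        = x ^ 6 * exp 5 * (1 / 2 * (x * (x + 1))) * exp (-(x ^ 2 / (50 * (x + 1)))) := by ring
      _ ≤ x ^ 6 * exp 5 * x ^ 2 * exp (-(0.01 * x)) := by gcongr
      _ = exp 5 * (x ^ 8 * exp (-(0.01 * x))) := by ring
  have h8 : exp 5 * (x ^ 8 * exp (-(0.01 * x))) ≤ 1 / 3200000 := by
    calc exp 5 * (x ^ 8 * exp (-(0.01 * x))) ≤ exp 5 * c2 := by gcongr
      _ = 1 / 3200000 := by
          rw [hc2]
          field_simp
  calc 1600000 * x ^ 6 * (exp (-0.056 * x) + 1 / 2 * exp 5 * (x * (x + 1)) *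
        exp (-(x ^ 2 / (50 * (x + 1)))))
      = 1600000 * (x ^ 6 * exp (-0.056 * x)
        + x ^ 6 * (1 / 2 * exp 5 * (x * (x + 1)) * exp (-(x ^ 2 / (50 * (x + 1)))))) := by ring
    _ ≤ 1600000 * (1 / 3200000 + 1 / 3200000) := by
        gcongr
        exact h6.trans h8
    _ = 1 := by norm_num

lemma PI_mono {C C' : ℝ} {n : ℕ} (h : PI C n) (hC : C ≤ C') : PI C' n := by
  intro x hx
  refine bs_bd_mono (h x hx) le_rfl ?_
  gcongr

lemma PII_mono {C C' : ℝ} {n : ℕ} (h : PII C n) (hC : C ≤ C') : PII C' n := by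
  intro x hx
  refine bs_bd_mono (h x hx) le_rfl ?_
  gcongr

lemma base_P (n : ℕ) (hn : 1 ≤ n) : ∃ C : ℝ, 0 < C ∧ PI C n ∧ PII C n := by
  obtain ⟨A, hA, hB⟩ := base n hn
  have hn0 : (0 : ℝ) < n := by exact_mod_cast hn
  have h2 : (1 : ℝ) ≤ 2 ^ n := one_le_pow₀ (by norm_num)
  have h3 : 1 ≤ exp ((n : ℝ) / 13) := Real.one_le_exp (by positivity)
  refine ⟨A * exp ((n : ℝ) / 13), by positivity, ?_, ?_⟩
  · intro x hx
    refine bs_bd_mono (hB (exp x) (Real.one_le_exp hx)) le_rfl ?_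
    rw [← Real.exp_mul, mul_comm x]
    have h4 := exp_pos (al n * x)
    calc A * exp (al n * x) = A * 1 * 1 * exp (al n * x) := by ring
      _ ≤ A * exp ((n : ℝ) / 13) * 2 ^ n * exp (al n * x) := by gcongr
  · intro x hx
    have hx0 : 0 ≤ x := le_trans (by positivity) hx
    refine bs_bd_mono (hB (exp x) (Real.one_le_exp hx0)) le_rfl ?_
    rw [← Real.exp_mul, mul_comm x]
    have h4 := exp_pos (al n * x)
    have h5 : exp (al n * x) ≤ exp ((n : ℝ) / 13) *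
        exp (2 * x / (n : ℝ) ^ 2 - n / 13 + al n * x) := by
      rw [← Real.exp_add]
      apply exp_le_exp.mpr
      have : 0 ≤ 2 * x / (n : ℝ) ^ 2 := by positivity
      linarith
    calc A * exp (al n * x) ≤ A * (exp ((n : ℝ) / 13) *
          exp (2 * x / (n : ℝ) ^ 2 - n / 13 + al n * x)) := by gcongr
      _ = A * exp ((n : ℝ) / 13) * 1 * exp (2 * x / (n : ℝ) ^ 2 - n / 13 + al n * x) := by ring
      _ ≤ A * exp ((n : ℝ) / 13) * 2 ^ n *
          exp (2 * x / (n : ℝ) ^ 2 - n / 13 + al n * x) := by gcongr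

lemma base_all (m : ℕ) : ∃ C : ℝ, 16 ≤ C ∧ ∀ n : ℕ, 1 ≤ n → n ≤ m → PI C n ∧ PII C n := by
  induction m with
  | zero => exact ⟨16, le_rfl, fun n h1 h2 => by omega⟩
  | succ m ih =>
    obtain ⟨C, hC, h⟩ := ih
    obtain ⟨C', hC', h1, h2⟩ := base_P (m + 1) (by omega)
    refine ⟨C + C', by linarith, ?_⟩
    intro n hn1 hn2
    rcases Nat.lt_or_ge n (m + 1) with h3 | h3
    · obtain ⟨h4, h5⟩ := h n hn1 (by omega)
      exact ⟨PI_mono h4 (by linarith), PII_mono h5 (by linarith)⟩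
    · have : n = m + 1 := by omega
      subst this
      exact ⟨PI_mono h1 (by linarith), PII_mono h2 (by linarith)⟩

lemma step {C : ℝ} {n : ℕ} (hC : 16 ≤ C) (hL : Large (n + 1))
    (hf : Fin1 ((n + 1 : ℕ) : ℝ)) (h : PI C n ∧ PII C n) : PI C (n + 1) ∧ PII C (n + 1) := by
  have hC0 : 0 < C := by linarith
  obtain ⟨h1, h2⟩ := h
  have hI : PI C (n + 1) := by
    intro x hx
    rcases le_total x ((n + 1 : ℕ) : ℝ) with h3 | h3
    · exact stepC hC (by omega) x hx h3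
    · rcases le_total x (0.15 * ((n + 1 : ℕ) : ℝ) ^ 3) with h4 | h4
      · exact stepB hC0 hL h1 x h3 h4
      · exact stepD hC0 hL hf h1 h2 x h4
  refine ⟨hI, ?_⟩
  intro x hx
  rcases le_total x (((n + 1 : ℕ) : ℝ) ^ 3 / 26) with h3 | h3
  · exact stepA hC0 hL h2 x hx h3
  · have hx0 : 0 ≤ x := le_trans (by positivity) hx
    refine bs_bd_mono (hI x hx0) le_rfl ?_
    apply mul_le_mul_of_nonneg_left _ (by positivity)
    apply exp_le_exp.mpr
    have hN0 : (0 : ℝ) < ((n + 1 : ℕ) : ℝ) := by positivity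
    have h4 : ((n + 1 : ℕ) : ℝ) / 13 ≤ 2 * x / ((n + 1 : ℕ) : ℝ) ^ 2 := by
      rw [le_div_iff₀ (by positivity)]
      have : ((n + 1 : ℕ) : ℝ) / 13 * ((n + 1 : ℕ) : ℝ) ^ 2
        = 2 * (((n + 1 : ℕ) : ℝ) ^ 3 / 26) := by ring
      linarith
    linarith

theorem main_bd : ∃ C : ℝ, 0 < C ∧ ∀ n : ℕ, 1 ≤ n → ∀ K : ℝ, 1 ≤ K →
    Bd n K (C * 2 ^ n * K ^ al n) := by
  obtain ⟨m, hm⟩ := eventually_atTop.mp (eventually_large.and eventually_fin)
  obtain ⟨C, hC, hbase⟩ := base_all (m + 1)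
  have hall : ∀ n : ℕ, 1 ≤ n → PI C n ∧ PII C n := by
    intro n hn
    rcases Nat.lt_or_ge n (m + 1) with h | h
    · exact hbase n hn (by omega)
    · induction n, h using Nat.le_induction with
      | base => exact hbase (m + 1) (by omega) le_rfl
      | succ k hk ih =>
        obtain ⟨h1, h2⟩ := hm (k + 1) (by omega)
        exact step hC h1 h2 (ih (by omega))
  refine ⟨C, by linarith, ?_⟩
  intro n hn K hK
  have hK0 : 0 < K := by linarith
  have h := (hall n hn).1 (Real.log K) (Real.log_nonneg hK)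
  rw [Real.exp_log hK0] at h
  rw [Real.rpow_def_of_pos hK0, mul_comm (Real.log K)]
  exact h

theorem final : ∃ C : ℝ, 0 < C ∧ ∀ n k : ℕ, 1 ≤ n → 1 ≤ k →
    ∃ t : ℕ, IsLeast {t | HellyLe n k t} t ∧
      (t : ℝ) ≤ C * 2 ^ n * (k : ℝ) ^ (((n : ℝ) - 1) / ((n : ℝ) + 1)) := by
  obtain ⟨C, hC, h⟩ := main_bd
  refine ⟨C, hC, ?_⟩
  intro n k hn hk
  have hkR : (1 : ℝ) ≤ k := by exact_mod_cast hk
  set B : ℝ := C * 2 ^ n * (k : ℝ) ^ al n with hB
  have hB0 : 0 ≤ B := by positivity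
  have hH : HellyLe n k ⌊B⌋₊ := by
    apply helly_of_bd
    intro V hV hoth
    rw [Nat.le_floor_iff hB0]
    exact h n hn k hkR V hV (by exact_mod_cast hoth)
  classical
  have hex : ∃ t, HellyLe n k t := ⟨_, hH⟩
  refine ⟨Nat.find hex, ⟨Nat.find_spec hex, fun t ht => Nat.find_min' hex ht⟩, ?_⟩
  have h1 : Nat.find hex ≤ ⌊B⌋₊ := Nat.find_min' hex hH
  calc ((Nat.find hex : ℕ) : ℝ) ≤ (⌊B⌋₊ : ℝ) := by exact_mod_cast h1
    _ ≤ B := Nat.floor_le hB0
    _ = C * 2 ^ n * (k : ℝ) ^ (((n : ℝ) - 1) / ((n : ℝ) + 1)) := by rw [hB]; rfl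

end Pool.Agent.Helper34.QH
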