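import Pool.Agent.Helper34.QH.Base

/-! Project QH (helper34), MP_735047_co: the main induction, slicing part. -/

namespace Pool.Agent.Helper34.QH

open MeasureTheory Real

/-- First induction statement, `K = exp x`. -/
def PI (C : ℝ) (n : ℕ) : Prop :=
  ∀ x : ℝ, 0 ≤ x → Bd n (exp x) (C * 2 ^ n * exp (al n * x))

/-- Second induction statement, `K = exp x`. -/
def PII (C : ℝ) (n : ℕ) : Prop :=
  ∀ x : ℝ, (n : ℝ) ^ 2 ≤ x →
    Bd n (exp x) (C * 2 ^ n * exp (2 * x / (n : ℝ) ^ 2 - n / 13 + al n * x))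

/-- Slicing in exponential coordinates. -/
lemma bs_slice_exp {n : ℕ} (hn : 1 ≤ n) (V : Finset (Fin (n + 1) → ℤ)) (hV : CI V)
    (u : Fin (n + 1) → ℤ) (hu : u ≠ 0) (W : ℝ) (hW0 : 0 ≤ W)
    (hW : ∀ x ∈ V, ∀ y ∈ V, lin u (toR x) - lin u (toR y) ≤ W)
    (x y z A : ℝ) (hz : 0 ≤ z) (hzx : z ≤ x) (hA : 0 ≤ A) (hWy : W + 1 ≤ exp y)
    (hB : ∀ K' : ℝ, exp z ≤ K' → K' ≤ exp x → Bd n K' (A * K' ^ al n))
    (hk : ((oth V).ncard : ℝ) ≤ exp x) :
    (V.card : ℝ) ≤ A * exp (2 / ((n : ℝ) + 1) * y + al n * x + exp (y + z - x)) := by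
  have hz1 : 1 ≤ exp z := Real.one_le_exp hz
  have hsl := slicing hn V hV u hu W hW0 hW (exp x) (exp z) A hz1 (exp_le_exp.mpr hzx) hA hB hk
  refine hsl.trans ?_
  have h1 : (W + 1) ^ (2 / ((n : ℝ) + 1)) ≤ exp (2 / ((n : ℝ) + 1) * y) := by
    calc (W + 1) ^ (2 / ((n : ℝ) + 1)) ≤ (exp y) ^ (2 / ((n : ℝ) + 1)) :=
          Real.rpow_le_rpow (by linarith) hWy (by positivity)
      _ = exp (2 / ((n : ℝ) + 1) * y) := by rw [← Real.exp_mul]; congr 1; ring
  have h2 : exp x + (W + 1) * exp z ≤ exp (x + exp (y + z - x)) := by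
    calc exp x + (W + 1) * exp z ≤ exp x + exp y * exp z := by gcongr
      _ = exp x * (exp (y + z - x) + 1) := by
          rw [mul_add, ← Real.exp_add, ← Real.exp_add]
          rw [show x + (y + z - x) = y + z by ring]
          ring
      _ ≤ exp x * exp (exp (y + z - x)) := by
          apply mul_le_mul_of_nonneg_left (Real.add_one_le_exp _) (exp_pos x).le
      _ = exp (x + exp (y + z - x)) := by rw [Real.exp_add]
  have haln := bs_al_nonneg hn
  have haln1 := bs_al_le_one n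
  have h3 : (exp x + (W + 1) * exp z) ^ al n ≤ exp (al n * x + exp (y + z - x)) := by
    calc (exp x + (W + 1) * exp z) ^ al n ≤ (exp (x + exp (y + z - x))) ^ al n := by
          apply Real.rpow_le_rpow _ h2 haln
          have := exp_pos x
          have := exp_pos z
          positivity
      _ = exp (al n * (x + exp (y + z - x))) := by rw [← Real.exp_mul]; congr 1; ring
      _ ≤ exp (al n * x + exp (y + z - x)) := by
          apply exp_le_exp.mpr
          have h0 := exp_pos (y + z - x)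
          nlinarith
  calc A * (W + 1) ^ (2 / ((n : ℝ) + 1)) * (exp x + (W + 1) * exp z) ^ al n
      ≤ A * exp (2 / ((n : ℝ) + 1) * y) * exp (al n * x + exp (y + z - x)) := by
        gcongr
    _ = A * exp (2 / ((n : ℝ) + 1) * y + al n * x + exp (y + z - x)) := by
        rw [mul_assoc, ← Real.exp_add]
        congr 2
        ring

/-- Largeness of the dimension. -/
structure Large (N : ℕ) : Prop where
  big : 1000 ≤ N
  lf : Real.log (6 * F N) ≤ 0.15 * N

lemma bs_al_succ {n : ℕ} : al (n + 1) = al n + 2 / (((n : ℝ) + 1) * ((n : ℝ) + 2)) := by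
  unfold al
  push_cast
  field_simp
  ring

lemma bs_exp_small {N : ℕ} (hL : Large N) (s : ℝ) (hs : s ≤ Real.log (6 * F N) - N + 1) :
    exp s ≤ 0.05 := by
  have h1 : (1000 : ℝ) ≤ N := by exact_mod_cast hL.big
  have h2 := hL.lf
  have h3 : s ≤ -3 := by linarith
  calc exp s ≤ exp (-3) := exp_le_exp.mpr h3
    _ ≤ 0.05 := by
        rw [Real.exp_neg, inv_le_comm₀ (exp_pos 3) (by norm_num)]
        have h4 : exp 3 = exp 1 ^ 3 := by rw [← Real.exp_nat_mul]; norm_num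
        rw [h4]
        have h5 := Real.exp_one_gt_d9
        calc (0.05 : ℝ)⁻¹ ≤ 2.7182818283 ^ 3 := by norm_num
          _ ≤ exp 1 ^ 3 := by gcongr

lemma bs_thin_width {N : ℕ} (hN : 2 ≤ N) (x : ℝ) (hx : 0 ≤ x) :
    5 * F N * (exp x) ^ (1 / (N : ℝ)) + 1 ≤ exp (Real.log (6 * F N) + x / N) := by
  have hF := bs_one_le_F N
  have hN0 : (0 : ℝ) < N := by
    have : 0 < N := by omega
    exact_mod_cast this
  rw [Real.exp_add, Real.exp_log (by linarith), ← Real.exp_mul]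
  have h1 : 1 ≤ exp (x / N) := Real.one_le_exp (by positivity)
  have h2 : exp (x * (1 / (N : ℝ))) = exp (x / N) := by congr 1; ring
  rw [h2]
  nlinarith

/-- Numerical inequality for the second statement. -/
lemma bs_numA (N x : ℝ) (hN : 20 ≤ N) (hx0 : 0 ≤ x) (hx : x ≤ N ^ 3 / 26) :
    2 * x / (N - 1) ^ 2 - 2 * x / (N * (N + 1)) ≤ 0.24 := by
  have h1 : 0 < (N - 1) ^ 2 := by
    have : 0 < N - 1 := by linarith
    positivity
  have h2 : 0 < N * (N + 1) := by positivity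
  have e : 2 * x / (N - 1) ^ 2 - 2 * x / (N * (N + 1))
      = x * (2 * (3 * N - 1)) / ((N - 1) ^ 2 * (N * (N + 1))) := by
    have : N - 1 ≠ 0 := by linarith
    field_simp
    ring
  rw [e, div_le_iff₀ (by positivity)]
  have h3 : x * (2 * (3 * N - 1)) ≤ N ^ 3 / 26 * (2 * (3 * N - 1)) := by
    apply mul_le_mul_of_nonneg_right hx
    linarith
  refine h3.trans ?_
  have h4 : N ^ 2 * (3 * N - 1) ≤ 0.24 * 13 * ((N - 1) ^ 2 * (N + 1)) := by
    nlinarith [mul_nonneg (by linarith : (0 : ℝ) ≤ N - 20) (by positivity : 0 ≤ N ^ 2),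
      mul_nonneg (by linarith : (0 : ℝ) ≤ N - 20) (by linarith : (0 : ℝ) ≤ N)]
  have h5 : N ^ 3 / 26 * (2 * (3 * N - 1)) = N * (N ^ 2 * (3 * N - 1)) / 13 := by ring
  rw [h5, div_le_iff₀ (by norm_num)]
  calc N * (N ^ 2 * (3 * N - 1)) ≤ N * (0.24 * 13 * ((N - 1) ^ 2 * (N + 1))) := by
        apply mul_le_mul_of_nonneg_left h4 (by linarith)
    _ = 0.24 * ((N - 1) ^ 2 * (N * (N + 1))) * 13 := by ring

lemma bs_num1 (N x : ℝ) (hN : 1 ≤ N) (hx : N ^ 2 ≤ x) : x / N - x ≤ N - N ^ 2 := by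
  have hN0 : 0 < N := by linarith
  have h4 : x / N - x = -(x * (N - 1) / N) := by field_simp; ring
  rw [h4]
  have h5 : N ^ 2 - N ≤ x * (N - 1) / N := by
    rw [le_div_iff₀ hN0]
    have : 0 ≤ (x - N ^ 2) * (N - 1) := mul_nonneg (by linarith) (by linarith)
    nlinarith
  linarith

lemma bs_num1b (N : ℝ) : (N - 1) ^ 2 = N ^ 2 - 2 * N + 1 := by ring

lemma bs_num1p (N x : ℝ) (hN : 1 ≤ N) (hx : N ≤ x) : x / N - x ≤ 1 - N := by
  have hN0 : 0 < N := by linarith
  have h4 : x / N - x = -(x * (N - 1) / N) := by field_simp; ring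
  rw [h4]
  have h5 : N - 1 ≤ x * (N - 1) / N := by
    rw [le_div_iff₀ hN0]
    have : 0 ≤ (x - N) * (N - 1) := mul_nonneg (by linarith) (by linarith)
    nlinarith
  linarith

lemma bs_num2 (N x : ℝ) (hN0 : 0 < N) (hx2 : x ≤ 0.15 * N ^ 3) :
    2 * x / N ^ 2 - 2 * x / (N * (N + 1)) ≤ 0.3 := by
  have e : 2 * x / N ^ 2 - 2 * x / (N * (N + 1)) = 2 * x / (N ^ 2 * (N + 1)) := by
    field_simp
    ring
  rw [e, div_le_iff₀ (by positivity)]
  nlinarith [pow_pos hN0 2, pow_pos hN0 3]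

/-- (ii) for `N² ≤ x ≤ N³/26`. -/
theorem stepA {C : ℝ} {n : ℕ} (hC : 0 < C) (hL : Large (n + 1)) (h2 : PII C n) (x : ℝ)
    (hx1 : ((n + 1 : ℕ) : ℝ) ^ 2 ≤ x) (hx2 : x ≤ ((n + 1 : ℕ) : ℝ) ^ 3 / 26) :
    Bd (n + 1) (exp x) (C * 2 ^ (n + 1) *
      exp (2 * x / ((n + 1 : ℕ) : ℝ) ^ 2 - ((n + 1 : ℕ) : ℝ) / 13 + al (n + 1) * x)) := by
  have hbig := hL.big
  have hn : 1 ≤ n := by omega
  intro V hV hk
  set N : ℝ := ((n + 1 : ℕ) : ℝ) with hN
  have hNn : (n : ℝ) = N - 1 := by rw [hN]; push_cast; ring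
  have hN1000 : (1000 : ℝ) ≤ N := by rw [hN]; exact_mod_cast hbig
  have hN0 : 0 < N := by linarith
  have hx0 : 0 ≤ x := le_trans (by positivity) hx1
  obtain ⟨u, hu, hthin⟩ := exists_thin (n := n + 1) (by omega) V hV (exp x)
    (Real.one_le_exp hx0) hk
  have hwid := bs_thin_width (N := n + 1) (by omega) x hx0
  set LF : ℝ := Real.log (6 * F (n + 1)) with hLF
  have hlf := hL.lf
  rw [← hLF, ← hN] at hlf
  have hW0 : 0 ≤ 5 * F (n + 1) * (exp x) ^ (1 / ((n + 1 : ℕ) : ℝ)) := by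
    have := F_pos (n + 1)
    have := exp_pos x
    positivity
  have hn2x : (n : ℝ) ^ 2 ≤ x := by
    refine le_trans ?_ hx1
    apply pow_le_pow_left₀ (by positivity)
    rw [hN]
    push_cast
    linarith
  have hsl := bs_slice_exp hn V hV u hu _ hW0 hthin x (LF + x / N) ((n : ℝ) ^ 2)
    (C * 2 ^ n * exp (2 * x / (n : ℝ) ^ 2 - n / 13)) (by positivity) hn2x (by positivity)
    hwid ?_ hk
  clear_value N LF
  · refine hsl.trans ?_
    have hsmall : exp (LF + x / N + (n : ℝ) ^ 2 - x) ≤ 0.05 := by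
      apply bs_exp_small hL
      rw [← hLF, ← hN, hNn]
      have h3 : x / N - x ≤ N - N ^ 2 := bs_num1 N x (by linarith) hx1
      linarith [bs_num1b N]
    have hA := bs_numA N x (by linarith) hx0 hx2
    rw [mul_assoc (C * 2 ^ n), ← Real.exp_add]
    have hlog2 : (0.6931 : ℝ) ≤ Real.log 2 := by
      have := Real.log_two_gt_d9
      linarith
    have h2N : C * 2 ^ (n + 1) *
        exp (2 * x / N ^ 2 - N / 13 + al (n + 1) * x)
        = C * 2 ^ n * exp (Real.log 2 + (2 * x / N ^ 2 - N / 13 + al (n + 1) * x)) := by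
      rw [Real.exp_add (Real.log 2), Real.exp_log (by norm_num), pow_succ]
      ring
    rw [h2N]
    apply mul_le_mul_of_nonneg_left _ (by positivity)
    apply exp_le_exp.mpr
    rw [bs_al_succ, hNn, sub_add_cancel, show N - 1 + 2 = N + 1 by ring]
    rw [hNn] at hsmall
    have h6 : 2 / N * (LF + x / N) = 2 * LF / N + 2 * x / N ^ 2 := by field_simp
    have h7 : 2 * LF / N ≤ 0.3 := by
      rw [div_le_iff₀ hN0]
      linarith
    have h8 : 2 / (N * (N + 1)) * x = 2 * x / (N * (N + 1)) := by ring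
    rw [h6, add_mul, h8]
    linarith
  · intro K' hK1 hK2
    have hK0 : 0 < K' := lt_of_lt_of_le (exp_pos _) hK1
    have hlog : (n : ℝ) ^ 2 ≤ Real.log K' := by
      rw [Real.le_log_iff_exp_le hK0]
      exact hK1
    have hlog2 : Real.log K' ≤ x := by
      rw [Real.log_le_iff_le_exp hK0]
      exact hK2
    have h := h2 (Real.log K') hlog
    rw [Real.exp_log hK0] at h
    refine bs_bd_mono h le_rfl ?_
    rw [Real.rpow_def_of_pos hK0, mul_assoc, mul_assoc (C * 2 ^ n), ← Real.exp_add, ← mul_assoc]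
    apply mul_le_mul_of_nonneg_left _ (by positivity)
    apply exp_le_exp.mpr
    have h9 : 2 * Real.log K' / (n : ℝ) ^ 2 ≤ 2 * x / (n : ℝ) ^ 2 := by gcongr
    linarith [mul_comm (Real.log K') (al n)]

/-- (i) for `N ≤ x ≤ 0.15 N³`. -/
theorem stepB {C : ℝ} {n : ℕ} (hC : 0 < C) (hL : Large (n + 1)) (h1 : PI C n) (x : ℝ)
    (hx1 : ((n + 1 : ℕ) : ℝ) ≤ x) (hx2 : x ≤ 0.15 * ((n + 1 : ℕ) : ℝ) ^ 3) :
    Bd (n + 1) (exp x) (C * 2 ^ (n + 1) * exp (al (n + 1) * x)) := by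
  have hbig := hL.big
  have hn : 1 ≤ n := by omega
  intro V hV hk
  set N : ℝ := ((n + 1 : ℕ) : ℝ) with hN
  have hNn : (n : ℝ) = N - 1 := by rw [hN]; push_cast; ring
  have hN1000 : (1000 : ℝ) ≤ N := by rw [hN]; exact_mod_cast hbig
  have hN0 : 0 < N := by linarith
  have hx0 : 0 ≤ x := by linarith
  obtain ⟨u, hu, hthin⟩ := exists_thin (n := n + 1) (by omega) V hV (exp x)
    (Real.one_le_exp hx0) hk
  have hwid := bs_thin_width (N := n + 1) (by omega) x hx0
  set LF : ℝ := Real.log (6 * F (n + 1)) with hLF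
  have hlf := hL.lf
  rw [← hLF, ← hN] at hlf
  have hW0 : 0 ≤ 5 * F (n + 1) * (exp x) ^ (1 / ((n + 1 : ℕ) : ℝ)) := by
    have := F_pos (n + 1)
    have := exp_pos x
    positivity
  have hsl := bs_slice_exp hn V hV u hu _ hW0 hthin x (LF + x / N) 0
    (C * 2 ^ n) le_rfl hx0 (by positivity) hwid ?_ hk
  clear_value N LF
  · refine hsl.trans ?_
    have hsmall : exp (LF + x / N + 0 - x) ≤ 0.05 := by
      apply bs_exp_small hL
      rw [← hLF, ← hN]
      have h3 : x / N - x ≤ 1 - N := bs_num1p N x (by linarith) hx1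
      linarith
    have hlog2 : (0.6931 : ℝ) ≤ Real.log 2 := by
      have := Real.log_two_gt_d9
      linarith
    have h2N : C * 2 ^ (n + 1) * exp (al (n + 1) * x)
        = C * 2 ^ n * exp (Real.log 2 + al (n + 1) * x) := by
      rw [Real.exp_add (Real.log 2), Real.exp_log (by norm_num), pow_succ]
      ring
    rw [h2N]
    apply mul_le_mul_of_nonneg_left _ (by positivity)
    apply exp_le_exp.mpr
    rw [bs_al_succ, hNn, sub_add_cancel, show N - 1 + 2 = N + 1 by ring]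
    have h6 : 2 / N * (LF + x / N) = 2 * LF / N + 2 * x / N ^ 2 := by field_simp
    have h7 : 2 * LF / N ≤ 0.3 := by
      rw [div_le_iff₀ hN0]
      linarith
    have h8 : 2 / (N * (N + 1)) * x = 2 * x / (N * (N + 1)) := by ring
    have h9 : 2 * x / N ^ 2 - 2 * x / (N * (N + 1)) ≤ 0.3 := bs_num2 N x hN0 hx2
    rw [h6, add_mul, h8]
    linarith
  · intro K' hK1 hK2
    have hK0 : 0 < K' := lt_of_lt_of_le (exp_pos _) hK1
    have hlog : 0 ≤ Real.log K' := by
      rw [Real.le_log_iff_exp_le hK0]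
      exact hK1
    have h := h1 (Real.log K') hlog
    rw [Real.exp_log hK0] at h
    refine bs_bd_mono h le_rfl ?_
    rw [Real.rpow_def_of_pos hK0, mul_comm (Real.log K')]

/-- (i) for `0 ≤ x ≤ N`. -/
theorem stepC {C : ℝ} {N : ℕ} (hC : 16 ≤ C) (hN : 1 ≤ N) (x : ℝ) (hx0 : 0 ≤ x)
    (hx : x ≤ (N : ℝ)) : Bd N (exp x) (C * 2 ^ N * exp (al N * x)) := by
  refine bs_bd_mono (bs_parity_bd N (exp x)) le_rfl ?_
  have h1 : 1 ≤ exp x := Real.one_le_exp hx0
  have hN0 : (1 : ℝ) ≤ N := by exact_mod_cast hN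
  have h2 : exp x ≤ exp 2 * exp (al N * x) := by
    rw [← Real.exp_add]
    apply exp_le_exp.mpr
    have : al N = 1 - 2 / ((N : ℝ) + 1) := by
      unfold al
      field_simp
      ring
    rw [this]
    have h3 : 2 / ((N : ℝ) + 1) * x ≤ 2 := by
      rw [div_mul_eq_mul_div, div_le_iff₀ (by positivity)]
      nlinarith
    nlinarith
  have h3 : exp 2 ≤ 8 := by
    have e : exp 2 = exp 1 * exp 1 := by rw [← Real.exp_add]; norm_num
    rw [e]
    have := Real.exp_one_lt_d9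
    have h0 := Real.exp_pos 1
    nlinarith
  have h4 := exp_pos (al N * x)
  calc (2 : ℝ) ^ N * (exp x + 1) ≤ 2 ^ N * (2 * exp x) := by gcongr; linarith
    _ ≤ 2 ^ N * (2 * (exp 2 * exp (al N * x))) := by gcongr
    _ ≤ 2 ^ N * (2 * (8 * exp (al N * x))) := by gcongr
    _ = 16 * 2 ^ N * exp (al N * x) := by ring
    _ ≤ C * 2 ^ N * exp (al N * x) := by gcongr

end Pool.Agent.Helper34.QH
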