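import Pool.Agent.Helper34.QH.MainA

/-! Project QH (helper34), MP_735047_co: the main induction, fat part. -/

namespace Pool.Agent.Helper34.QH

open MeasureTheory Real

/-- The final numerical condition. -/
def Fin1 (N : ℝ) : Prop :=
  1600000 * N ^ 6 * (exp (-0.056 * N) + 1 / 2 * exp 5 * (N * (N + 1)) *
    exp (-(N ^ 2 / (50 * (N + 1))))) ≤ 1

lemma bs_F_le {N : ℕ} (hL : Large N) : 6 * F N ≤ exp (0.15 * N) := by
  have hF := F_pos N
  rw [← Real.log_le_iff_le_exp (by positivity)]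
  exact hL.lf

lemma bs_le_exp_self (x : ℝ) : x ≤ exp x := by
  have := Real.add_one_le_exp x
  linarith

lemma bs_ell_le {N : ℕ} (hL : Large N) : ell N ≤ exp (2.5 * N) := by
  have hF := bs_F_le hL
  have hF1 := bs_one_le_F N
  have hN1000 : (1000 : ℝ) ≤ N := by exact_mod_cast hL.big
  unfold ell om
  have h1 : (N : ℝ) ≤ exp N := bs_le_exp_self _
  have h2 : (1 : ℝ) ≤ (N : ℝ) ^ 2 := one_le_pow₀ (by linarith)
  have h3 : 2 * (2 * (N : ℝ) ^ 2 * F N) + 1 ≤ (N : ℝ) ^ 2 * (6 * F N) := by nlinarith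
  refine h3.trans ?_
  have h4 : (N : ℝ) ^ 2 ≤ exp (2 * N) := by
    calc (N : ℝ) ^ 2 ≤ (exp N) ^ 2 := by gcongr
      _ = exp (2 * N) := by rw [← Real.exp_nat_mul]; norm_num
  calc (N : ℝ) ^ 2 * (6 * F N) ≤ exp (2 * N) * exp (0.15 * N) := by
        apply mul_le_mul h4 hF (by positivity) (exp_pos _).le
    _ = exp (2 * N + 0.15 * N) := by rw [← Real.exp_add]
    _ ≤ exp (2.5 * N) := by
        apply exp_le_exp.mpr
        linarith

lemma bs_kap_pow_ge {N : ℕ} (hN : 2 ≤ N) : exp (-(2 * (N : ℝ) ^ 2)) ≤ kap N ^ N := by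
  have hk := kap_ge hN
  have hN0 : (0 : ℝ) < N := by
    have : 0 < N := by omega
    exact_mod_cast this
  have h1 : exp (-(2 * (N : ℝ))) ≤ 1 / (2 * (N : ℝ)) := by
    rw [Real.exp_neg, one_div]
    apply inv_anti₀ (by positivity)
    exact bs_le_exp_self _
  calc exp (-(2 * (N : ℝ) ^ 2)) = (exp (-(2 * (N : ℝ)))) ^ N := by
        rw [← Real.exp_nat_mul]
        congr 1
        ring
    _ ≤ kap N ^ N := by
        apply pow_le_pow_left₀ (exp_pos _).le
        exact h1.trans hk

lemma bs_num3 (N : ℝ) (hN : 1000 ≤ N) : 2.5 * N ≤ -(2 * N ^ 2) + N ^ 3 / 100 := by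
  nlinarith [mul_nonneg (by linarith : (0:ℝ) ≤ N - 1000) (by positivity : 0 ≤ N ^ 2),
    mul_nonneg (by linarith : (0:ℝ) ≤ N - 1000) (by linarith : (0:ℝ) ≤ N)]

lemma bs_num4 (N x : ℝ) (hN : 1000 ≤ N) (hx : 0.15 * N ^ 3 ≤ x) : 0.14 * N ^ 2 ≤ x / (N + 1) := by
  rw [le_div_iff₀ (by linarith)]
  nlinarith [mul_nonneg (by linarith : (0:ℝ) ≤ N - 1000) (by positivity : 0 ≤ N ^ 2)]

/-- The base bound used for the caps. -/
lemma bs_bd_caps {C : ℝ} {n : ℕ} (hC : 0 < C) (hL : Large (n + 1)) (h2 : PII C n) (K : ℝ)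
    (hK1 : exp (((n + 1 : ℕ) : ℝ) ^ 2) ≤ K)
    (hK2 : K ≤ 9 * exp (((n + 1 : ℕ) : ℝ) ^ 3 / 100)) :
    Bd (n + 1) K (C * 2 ^ (n + 1) * exp (-0.056 * ((n + 1 : ℕ) : ℝ)) * K ^ al (n + 1)) := by
  have hK0 : 0 < K := lt_of_lt_of_le (exp_pos _) hK1
  have hN1000 : (1000 : ℝ) ≤ ((n + 1 : ℕ) : ℝ) := by exact_mod_cast hL.big
  have hA := stepA hC hL h2 (Real.log K)
  rw [Real.exp_log hK0] at hA
  have e : C * 2 ^ (n + 1) * exp (-0.056 * ((n + 1 : ℕ) : ℝ)) * K ^ al (n + 1)
      = C * 2 ^ (n + 1) * exp (-0.056 * ((n + 1 : ℕ) : ℝ) + al (n + 1) * Real.log K) := by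
    rw [Real.rpow_def_of_pos hK0, Real.exp_add]
    ring_nf
  rw [e]
  have hlog1 : ((n + 1 : ℕ) : ℝ) ^ 2 ≤ Real.log K := by
    rw [Real.le_log_iff_exp_le hK0]; exact hK1
  have h9 : (9 : ℝ) ≤ exp 3 := by
    have h4 : exp 3 = exp 1 ^ 3 := by rw [← Real.exp_nat_mul]; norm_num
    rw [h4]
    have h5 := Real.exp_one_gt_d9
    calc (9 : ℝ) ≤ 2.7182818283 ^ 3 := by norm_num
      _ ≤ exp 1 ^ 3 := by gcongr
  have hlog2 : Real.log K ≤ 3 + ((n + 1 : ℕ) : ℝ) ^ 3 / 100 := by
    rw [Real.log_le_iff_le_exp hK0, Real.exp_add]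
    refine hK2.trans ?_
    gcongr
  generalize ((n + 1 : ℕ) : ℝ) = N at *
  have hN0 : 0 < N := by linarith
  have hx3 : Real.log K ≤ N ^ 3 / 26 := by
    refine hlog2.trans ?_
    nlinarith [mul_nonneg (by linarith : (0:ℝ) ≤ N - 1000) (by positivity : 0 ≤ N ^ 2),
      mul_nonneg (by linarith : (0:ℝ) ≤ N - 1000) (by linarith : (0:ℝ) ≤ N)]
  refine bs_bd_mono (hA hlog1 hx3) le_rfl ?_
  apply mul_le_mul_of_nonneg_left _ (by positivity)
  apply exp_le_exp.mpr
  have h6 : 2 * Real.log K / N ^ 2 ≤ 2 * (3 + N ^ 3 / 100) / N ^ 2 := by gcongr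
  have h7 : 2 * (3 + N ^ 3 / 100) / N ^ 2 = 6 / N ^ 2 + N / 50 := by
    field_simp
    ring
  have h8 : 6 / N ^ 2 ≤ 0.001 := by
    rw [div_le_iff₀ (by positivity)]
    nlinarith
  rw [h7] at h6
  linarith

theorem stepD {C : ℝ} {n : ℕ} (hC : 0 < C) (hL : Large (n + 1)) (hf : Fin1 ((n + 1 : ℕ) : ℝ))
    (h1 : PI C n) (h2 : PII C n) (x : ℝ) (hx : 0.15 * ((n + 1 : ℕ) : ℝ) ^ 3 ≤ x) :
    Bd (n + 1) (exp x) (C * 2 ^ (n + 1) * exp (al (n + 1) * x)) := by
  have hbig := hL.big
  have hn : 1 ≤ n := by omega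
  have hN2 : 2 ≤ n + 1 := by omega
  intro V hV hk
  have hN1000 : (1000 : ℝ) ≤ ((n + 1 : ℕ) : ℝ) := by exact_mod_cast hbig
  clear hbig
  have hF := bs_F_le hL
  have hF1 := bs_one_le_F (n + 1)
  have hell := bs_ell_le hL
  have hkp := bs_kap_pow_ge hN2
  have hcaps := bs_bd_caps hC hL h2
  have hNn : ((n + 1 : ℕ) : ℝ) = (n : ℝ) + 1 := by push_cast; ring
  have hB1 : ∀ K' : ℝ, 1 ≤ K' → Bd n K' (C * 2 ^ n * K' ^ al n) := by
    intro K' hK'
    have hK0 : 0 < K' := by linarith
    have h := h1 (Real.log K') (Real.log_nonneg hK')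
    rw [Real.exp_log hK0] at h
    refine bs_bd_mono h le_rfl ?_
    rw [Real.rpow_def_of_pos hK0, mul_comm (Real.log K')]
  have hx0 : 0 ≤ x := le_trans (by positivity) hx
  have hlog2 : (0.6931 : ℝ) ≤ Real.log 2 := by
    have := Real.log_two_gt_d9
    linarith
  have hlog2' : Real.log 2 ≤ 0.7 := by
    have := Real.log_two_lt_d9
    linarith
  obtain ⟨N, hN⟩ : ∃ N : ℝ, N = ((n + 1 : ℕ) : ℝ) := ⟨_, rfl⟩
  rw [← hN] at hN1000 hF hell hkp hcaps hx hf hNn
  have hN0 : 0 < N := by linarith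
  have hx4 := bs_num4 N x hN1000 hx
  set E : ℝ := exp (N / 2 * Real.log 2 + x / (N + 1)) with hE
  by_cases hW : Wide (hull V) (E / 2)
  · -- fat case
    have hE1 : exp (0.14 * N ^ 2) ≤ E := by
      rw [hE]
      apply exp_le_exp.mpr
      have : 0 ≤ N / 2 * Real.log 2 := by positivity
      linarith
    have hhalf : exp (0.14 * N ^ 2 - 1) ≤ E / 2 := by
      rw [Real.exp_sub]
      have h3 : (2 : ℝ) ≤ exp 1 := by
        have := Real.exp_one_gt_d9
        linarith
      rw [div_le_div_iff₀ (exp_pos _) (by norm_num)]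
      have h4 := exp_pos (0.14 * N ^ 2)
      nlinarith [exp_pos (0.14 * N ^ 2)]
    have hNexp : N ≤ exp N := bs_le_exp_self N
    have hN1exp : N + 1 ≤ exp N := Real.add_one_le_exp N
    -- widths
    have hWa : Wide (hull V) (((n : ℝ) + 1) * (n + 2) * om (n + 1)) := by
      apply bs_wide_mono hW
      refine le_trans ?_ hhalf
      unfold om
      rw [← hN]
      have e1 : ((n : ℝ) + 1) * (n + 2) * (2 * N ^ 2 * F (n + 1))
          = N * (N + 1) * (2 * N ^ 2 * F (n + 1)) := by rw [hNn]; ring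
      rw [e1]
      calc N * (N + 1) * (2 * N ^ 2 * F (n + 1))
          ≤ (exp N * exp N) * (exp N * exp N * exp (0.15 * N)) := by
            have h5 : 2 * N ^ 2 * F (n + 1) ≤ exp N * exp N * exp (0.15 * N) := by
              calc 2 * N ^ 2 * F (n + 1) ≤ N * N * (6 * F (n + 1)) := by nlinarith [pow_pos hN0 2]
                _ ≤ exp N * exp N * exp (0.15 * N) := by gcongr
            gcongr
        _ = exp (N + N + (N + N + 0.15 * N)) := by simp only [Real.exp_add]
        _ ≤ exp (0.14 * N ^ 2 - 1) := by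
            apply exp_le_exp.mpr
            nlinarith
    have hWb : Wide (hull V) (2 * ((n + 1 : ℕ) : ℝ) * F (n + 1)) := by
      apply bs_wide_mono hW
      refine le_trans ?_ hhalf
      rw [← hN]
      calc 2 * N * F (n + 1) ≤ N * (6 * F (n + 1)) := by nlinarith
        _ ≤ exp N * exp (0.15 * N) := by gcongr
        _ = exp (N + 0.15 * N) := by simp only [Real.exp_add]
        _ ≤ exp (0.14 * N ^ 2 - 1) := by
            apply exp_le_exp.mpr
            nlinarith
    -- the volume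
    set m : ℕ := ⌈exp (N ^ 2 / 50)⌉₊ with hm
    have hm1 : exp (N ^ 2 / 50) ≤ m := Nat.le_ceil _
    have hm2 : (m : ℝ) ≤ exp (N ^ 2 / 50 + 1) := by
      have h6 := (Nat.ceil_lt_add_one (exp_pos (N ^ 2 / 50)).le).le
      refine h6.trans ?_
      have h7 : 1 ≤ exp (N ^ 2 / 50) := Real.one_le_exp (by positivity)
      rw [Real.exp_add]
      have h3 : (2 : ℝ) ≤ exp 1 := by
        have := Real.exp_one_gt_d9
        linarith
      nlinarith
    have hmN : n + 1 ≤ m := by
      have : ((n + 1 : ℕ) : ℝ) ≤ m := by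
        rw [← hN]
        refine hNexp.trans (le_trans ?_ hm1)
        apply exp_le_exp.mpr
        nlinarith
      exact_mod_cast this
    have hWc : Wide (hull V) ((m : ℝ) * F (n + 1)) := by
      apply bs_wide_mono hW
      refine le_trans ?_ hhalf
      calc (m : ℝ) * F (n + 1) ≤ m * (6 * F (n + 1)) := by
            apply mul_le_mul_of_nonneg_left _ (by positivity)
            linarith
        _ ≤ exp (N ^ 2 / 50 + 1) * exp (0.15 * N) := by gcongr
        _ = exp (N ^ 2 / 50 + 1 + 0.15 * N) := by simp only [Real.exp_add]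
        _ ≤ exp (0.14 * N ^ 2 - 1) := by
            apply exp_le_exp.mpr
            nlinarith
    have hvol := vol_ge (n := n + 1) (by omega) hmN (hull V) (convex_convexHull ℝ _)
      (hull_compact V) hWc
    set t : ℝ := exp (N ^ 3 / 100) with ht
    have ht0 : 0 < t := exp_pos _
    have hvol' : (((n : ℝ) + 1) * (n + 2)) ^ (n + 1) * t ≤ volume.real (hull V) := by
      have e2 : ((n : ℝ) + 1) * (n + 2) = N * (N + 1) := by rw [hNn]; ring
      rw [e2]
      have h8 : (N * (N + 1)) ^ (n + 1) ≤ exp (2 * N ^ 2) := by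
        calc (N * (N + 1)) ^ (n + 1) ≤ (exp N * exp N) ^ (n + 1) := by gcongr
          _ = exp (2 * N ^ 2) := by
              rw [← Real.exp_add, ← Real.exp_nat_mul, ← hN]
              congr 1
              ring
      have h9 : exp (N ^ 3 / 50) ≤ (m : ℝ) ^ (n + 1) := by
        calc exp (N ^ 3 / 50) = (exp (N ^ 2 / 50)) ^ (n + 1) := by
              rw [← Real.exp_nat_mul, ← hN]
              congr 1
              ring
          _ ≤ (m : ℝ) ^ (n + 1) := by gcongr
      have h10 : 3 * (exp (2 * N ^ 2) * t) ≤ exp (N ^ 3 / 50) := by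
        have h11 : (3 : ℝ) ≤ exp 2 := by
          have := Real.add_one_le_exp 2
          linarith
        calc 3 * (exp (2 * N ^ 2) * t) ≤ exp 2 * (exp (2 * N ^ 2) * t) := by gcongr
          _ = exp (2 + (2 * N ^ 2 + N ^ 3 / 100)) := by rw [ht]; simp only [Real.exp_add]
          _ ≤ exp (N ^ 3 / 50) := by
              apply exp_le_exp.mpr
              have := bs_num3 N hN1000
              linarith
      have h12 : (N * (N + 1)) ^ (n + 1) * t ≤ exp (2 * N ^ 2) * t := by gcongr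
      linarith
    -- constants
    have hl : ell (n + 1) ≤ kap (n + 1) ^ (n + 1) * t := by
      calc ell (n + 1) ≤ exp (2.5 * N) := hell
        _ ≤ exp (-(2 * N ^ 2)) * t := by
            rw [ht, ← Real.exp_add]
            exact exp_le_exp.mpr (bs_num3 N hN1000)
        _ ≤ kap (n + 1) ^ (n + 1) * t := by gcongr
    have hkap1 : kap (n + 1) ^ (n + 1) ≤ 1 :=
      pow_le_one₀ (kap_pos hN2).le (kap_le_one hN2)
    have hkapt : kap (n + 1) ^ (n + 1) * t ≤ t := by
      calc kap (n + 1) ^ (n + 1) * t ≤ 1 * t := by gcongr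
        _ = t := one_mul t
    have hkt2 : exp (N ^ 2) ≤ kap (n + 1) ^ (n + 1) * t := by
      calc exp (N ^ 2) ≤ exp (-(2 * N ^ 2)) * t := by
            rw [ht, ← Real.exp_add]
            apply exp_le_exp.mpr
            nlinarith [mul_nonneg (by linarith : (0:ℝ) ≤ N - 1000) (by positivity : 0 ≤ N ^ 2)]
        _ ≤ kap (n + 1) ^ (n + 1) * t := by gcongr
    set a : ℝ := C * 2 ^ (n + 1) * exp (-0.056 * N) with ha
    have ha0 : 0 ≤ a := by positivity
    have hBa : Bd (n + 1) (9 * t) (a * (9 * t) ^ al (n + 1)) := by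
      apply hcaps (9 * t) _ le_rfl
      linarith [hkt2.trans hkapt]
    have hBa' : Bd (n + 1) (9 * (kap (n + 1) ^ (n + 1) * t))
        (a * (9 * (kap (n + 1) ^ (n + 1) * t)) ^ al (n + 1)) := by
      apply hcaps (9 * (kap (n + 1) ^ (n + 1) * t))
      · have := exp_pos (N ^ 2)
        linarith
      · linarith
    have hfb := fat_bound hn V hV t a (C * 2 ^ n) ht0 ha0 (by positivity) hl hWa hvol' hBa hBa'
      hB1
    have hvo := vol_le_oth hN2 V hV hWb
    have hv16 : volume.real (hull V) ≤ 16 * exp x := hvo.trans (by linarith)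
    have hal0 := bs_al_nonneg (n := n + 1) (by omega)
    have hal1 := bs_al_le_one (n + 1)
    have hvr : volume.real (hull V) ^ al (n + 1) ≤ 16 * exp (al (n + 1) * x) := by
      calc volume.real (hull V) ^ al (n + 1) ≤ (16 * exp x) ^ al (n + 1) :=
            Real.rpow_le_rpow measureReal_nonneg hv16 hal0
        _ = 16 ^ al (n + 1) * (exp x) ^ al (n + 1) :=
            Real.mul_rpow (by norm_num) (exp_pos x).le
        _ ≤ 16 ^ (1 : ℝ) * (exp x) ^ al (n + 1) := by
            apply mul_le_mul_of_nonneg_right _ (by positivity)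
            exact Real.rpow_le_rpow_of_exponent_le (by norm_num) hal1
        _ = 16 * exp (al (n + 1) * x) := by
            rw [Real.rpow_one, ← Real.exp_mul, mul_comm x]
    have hellp : ell (n + 1) ^ (2 / ((n : ℝ) + 1)) ≤ exp 5 := by
      have h0 : 0 ≤ ell (n + 1) := by linarith [bs_one_le_ell (n + 1)]
      calc ell (n + 1) ^ (2 / ((n : ℝ) + 1)) ≤ (exp (2.5 * N)) ^ (2 / ((n : ℝ) + 1)) :=
            Real.rpow_le_rpow h0 hell (by positivity)
        _ = exp 5 := by
            rw [← Real.exp_mul, ← hNn]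
            congr 1
            field_simp
            norm_num
    have htga : t ^ (-ga (n + 1)) = exp (-(N ^ 2 / (50 * (N + 1)))) := by
      rw [ht, ← Real.exp_mul]
      congr 1
      unfold ga
      rw [← hN]
      field_simp
      norm_num
    have hell0 : 0 ≤ ell (n + 1) := by linarith [bs_one_le_ell (n + 1)]
    calc (V.card : ℝ) ≤ _ := hfb
      _ ≤ 10 ^ 5 * N ^ 6 *
          (a + C * 2 ^ n * exp 5 * (N * (N + 1)) * exp (-(N ^ 2 / (50 * (N + 1))))) *
            (16 * exp (al (n + 1) * x)) := by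
          rw [htga]
          have e3 : ((n : ℝ) + 1) = N := hNn.symm
          have e4 : ((n : ℝ) + 2) = N + 1 := by rw [hNn]; ring
          rw [e3] at hellp ⊢
          rw [e4]
          gcongr
      _ = C * 2 ^ (n + 1) * exp (al (n + 1) * x) *
          (1600000 * N ^ 6 * (exp (-0.056 * N) + 1 / 2 * exp 5 * (N * (N + 1)) *
            exp (-(N ^ 2 / (50 * (N + 1)))))) := by
          rw [ha, pow_succ]
          ring
      _ ≤ C * 2 ^ (n + 1) * exp (al (n + 1) * x) * 1 := by
          apply mul_le_mul_of_nonneg_left hf (by positivity)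
      _ = C * 2 ^ (n + 1) * exp (al (n + 1) * x) := mul_one _
  · -- thin case
    obtain ⟨u, hu, hthin⟩ := thin_of_not_wide V (E / 2) hW
    have hE10 : 10 ≤ E := by
      rw [hE]
      have h3 : 9 + 1 ≤ exp 9 := Real.add_one_le_exp 9
      calc (10 : ℝ) = 9 + 1 := by norm_num
        _ ≤ exp 9 := h3
        _ ≤ exp (N / 2 * Real.log 2 + x / (N + 1)) := by
            apply exp_le_exp.mpr
            have h4 : 0 ≤ x / (N + 1) := by positivity
            nlinarith
    have hy : E / 2 + 1 ≤ exp (Real.log 0.6 + (N / 2 * Real.log 2 + x / (N + 1))) := by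
      rw [Real.exp_add, Real.exp_log (by norm_num), ← hE]
      linarith
    have hsl := bs_slice_exp hn V hV u hu (E / 2) (by linarith) hthin x
      (Real.log 0.6 + (N / 2 * Real.log 2 + x / (N + 1))) 0 (C * 2 ^ n) le_rfl hx0
      (by positivity) hy ?_ hk
    · refine hsl.trans ?_
      have h2N : C * 2 ^ (n + 1) * exp (al (n + 1) * x)
          = C * 2 ^ n * exp (Real.log 2 + al (n + 1) * x) := by
        rw [Real.exp_add (Real.log 2), Real.exp_log (by norm_num), pow_succ]
        ring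
      rw [h2N]
      apply mul_le_mul_of_nonneg_left _ (by positivity)
      apply exp_le_exp.mpr
      rw [bs_al_succ, ← hNn, show (n : ℝ) + 2 = N + 1 by rw [hNn]; ring]
      have hlog06 : Real.log 0.6 ≤ -(1 / 2) := by
        rw [Real.log_le_iff_le_exp (by norm_num), Real.exp_neg]
        rw [le_inv_comm₀ (by norm_num) (exp_pos _)]
        have h5 : exp (1 / 2) * exp (1 / 2) ≤ (5 / 3) * (5 / 3) := by
          rw [← Real.exp_add]
          norm_num
          have := Real.exp_one_lt_d9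
          linarith
        have h6 : exp (1 / 2) ≤ 5 / 3 := by
          have := exp_pos (1 / 2)
          nlinarith
        norm_num at h6 ⊢
        linarith
      have hsm : exp (Real.log 0.6 + (N / 2 * Real.log 2 + x / (N + 1)) + 0 - x) ≤ 1 / N := by
        have h7 : Real.log 0.6 + (N / 2 * Real.log 2 + x / (N + 1)) + 0 - x ≤ -N := by
          have h8 : x / (N + 1) ≤ x / 2 := by
            apply div_le_div_of_nonneg_left hx0 (by norm_num)
            linarith
          have h9 : N / 2 * Real.log 2 ≤ N / 2 * 0.7 := by gcongr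
          nlinarith [mul_nonneg (by linarith : (0:ℝ) ≤ N - 1000) (by positivity : 0 ≤ N ^ 2),
            mul_nonneg (by linarith : (0:ℝ) ≤ N - 1000) (by linarith : (0:ℝ) ≤ N)]
        calc exp (Real.log 0.6 + (N / 2 * Real.log 2 + x / (N + 1)) + 0 - x) ≤ exp (-N) :=
              exp_le_exp.mpr h7
          _ ≤ 1 / N := by
              rw [Real.exp_neg, one_div]
              apply inv_anti₀ hN0
              exact bs_le_exp_self N
      have e5 : 2 / N * (Real.log 0.6 + (N / 2 * Real.log 2 + x / (N + 1)))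
          = 2 / N * Real.log 0.6 + Real.log 2 + 2 / (N * (N + 1)) * x := by
        field_simp
        ring
      have h10 : 2 / N * Real.log 0.6 ≤ -(1 / N) := by
        have : 2 / N * Real.log 0.6 ≤ 2 / N * (-(1 / 2)) := by gcongr
        calc 2 / N * Real.log 0.6 ≤ 2 / N * (-(1 / 2)) := this
          _ = -(1 / N) := by ring
      rw [e5, add_mul]
      linarith
    · intro K' hK1 _
      rw [Real.exp_zero] at hK1
      exact hB1 K' hK1

end Pool.Agent.Helper34.QH
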